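import Mathlib

/-!
The telescoping sum of P. Jones and the colouring lemma.
-/

set_option autoImplicit false

open Set

namespace Pool.Agent.V7H86.HP

/-- the telescoping sum -/
theorem jones_aux {ι : Type} [LinearOrder ι] (τ : ι → ℝ) (S : Finset ι) :
    ∑ k ∈ S, τ k * Real.exp (-∑ j ∈ S with k ≤ j, τ j) ≤ 1 - Real.exp (-∑ j ∈ S, τ j) := by
  induction S using Finset.induction_on_min with
  | empty => simp
  | insert a s ha ih =>
    have hns : a ∉ s := fun h => lt_irrefl _ (ha a h)
    rw [Finset.sum_insert hns, Finset.sum_insert hns]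
    have h1 : (Finset.filter (fun j => a ≤ j) (insert a s)) = insert a s := by
      refine Finset.filter_true_of_mem fun j hj => ?_
      rcases Finset.mem_insert.1 hj with h | h
      · exact h.ge
      · exact (ha j h).le
    have h2 : ∀ k ∈ s, (Finset.filter (fun j => k ≤ j) (insert a s)) =
        Finset.filter (fun j => k ≤ j) s := by
      intro k hk
      rw [Finset.filter_insert, if_neg (not_le.2 (ha k hk))]
    have h3 : ∑ k ∈ s, τ k * Real.exp (-∑ j ∈ insert a s with k ≤ j, τ j) =
        ∑ k ∈ s, τ k * Real.exp (-∑ j ∈ s with k ≤ j, τ j) := by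
      refine Finset.sum_congr rfl fun k hk => ?_
      rw [h2 k hk]
    rw [h1, h3, Finset.sum_insert hns]
    have h4 : τ a * Real.exp (-(τ a + ∑ j ∈ s, τ j)) + (1 - Real.exp (-∑ j ∈ s, τ j)) ≤
        1 - Real.exp (-(τ a + ∑ j ∈ s, τ j)) := by
      have h5 : Real.exp (-∑ j ∈ s, τ j) = Real.exp (τ a) * Real.exp (-(τ a + ∑ j ∈ s, τ j)) := by
        rw [← Real.exp_add]
        congr 1
        ring
      rw [h5]
      have h6 := Real.add_one_le_exp (τ a)
      have h7 := Real.exp_pos (-(τ a + ∑ j ∈ s, τ j))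
      nlinarith
    linarith

theorem jones_sum {ι : Type} [Fintype ι] [LinearOrder ι] (τ : ι → ℝ) :
    ∑ k, τ k * Real.exp (-∑ j with k ≤ j, τ j) ≤ 1 := by
  have h1 := jones_aux τ Finset.univ
  have h2 := Real.exp_pos (-∑ j, τ j)
  linarith

theorem prodDiff {X : Type} [NormedAddCommGroup X] [NormedSpace ℂ X] {B : Set X} {ι : Type}
    (s : Finset ι) (f : ι → X → ℂ) (hf : ∀ i, DifferentiableOn ℂ (f i) B) :
    DifferentiableOn ℂ (fun z => ∏ i ∈ s, f i z) B := by
  classical
  induction s using Finset.induction_on with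
  | empty => simp
  | insert a s ha ih =>
    simp only [Finset.prod_insert ha]
    exact (hf a).mul ih

/-- greedy colouring -/
theorem colour (K : ℕ) : ∀ (n : ℕ) (r : Fin n → Fin n → Prop),
    (∀ k : Fin n, ∀ S : Finset (Fin n), (∀ j ∈ S, j < k ∧ r j k) → S.card ≤ K) →
    ∃ c : Fin n → Fin (K + 1), ∀ j k, j < k → r j k → c j ≠ c k := by
  classical
  intro n
  induction n with
  | zero => exact fun r _ => ⟨fun k => k.elim0, fun j => j.elim0⟩
  | succ n ih =>
    intro r hr
    obtain ⟨c, hc⟩ := ih (fun j k => r j.castSucc k.castSucc) (by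
      intro k S hS
      have h1 := hr k.castSucc (S.map Fin.castSuccEmb) (by
        intro j hj
        obtain ⟨i, hi, rfl⟩ := Finset.mem_map.1 hj
        exact ⟨Fin.castSucc_lt_castSucc_iff.2 (hS i hi).1, (hS i hi).2⟩)
      rwa [Finset.card_map] at h1)
    -- a free colour for the last one
    let S : Finset (Fin n) := Finset.univ.filter fun j => r j.castSucc (Fin.last n)
    have hS : S.card ≤ K := by
      have h1 := hr (Fin.last n) (S.map Fin.castSuccEmb) (by
        intro j hj
        obtain ⟨i, hi, rfl⟩ := Finset.mem_map.1 hj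
        exact ⟨Fin.castSucc_lt_last i, (Finset.mem_filter.1 hi).2⟩)
      rwa [Finset.card_map] at h1
    have hcard : (S.image c).card < (Finset.univ : Finset (Fin (K + 1))).card := by
      rw [Finset.card_univ, Fintype.card_fin]
      exact lt_of_le_of_lt Finset.card_image_le (Nat.lt_succ_of_le hS)
    obtain ⟨x, -, hx⟩ := Finset.exists_mem_notMem_of_card_lt_card hcard
    refine ⟨Fin.snoc (α := fun _ => Fin (K + 1)) c x, fun j k => ?_⟩
    refine Fin.lastCases ?_ (fun j => ?_) j
    · intro h
      exact absurd h (not_lt.2 (Fin.le_last k))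
    · refine Fin.lastCases ?_ (fun k => ?_) k
      · intro _ hjk
        rw [Fin.snoc_castSucc, Fin.snoc_last]
        intro he
        exact hx (Finset.mem_image.2 ⟨j, Finset.mem_filter.2 ⟨Finset.mem_univ _, hjk⟩, he⟩)
      · intro hjk hr
        rw [Fin.snoc_castSucc, Fin.snoc_castSucc]
        exact hc j k (Fin.castSucc_lt_castSucc_iff.1 hjk) hr

end Pool.Agent.V7H86.HP
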