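import Mathlib
import Pool.Agent.V7H86.HP.Sum

/-!
Products of Bezout identities: the core of the gluing theorems.
-/

set_option autoImplicit false
set_option linter.unusedSectionVars false

open Set Filter Topology Complex

namespace Pool.Agent.V7H86.HP

section

variable {X : Type} [NormedAddCommGroup X] [NormedSpace ℂ X]

/-- `∑ F_j g_j + φ u = 1` has a holomorphic solution on `Ω` bounded by `C` -/
def Sol (Ω : Set X) {J : Type} [Fintype J] (F : J → X → ℂ) (φ : X → ℂ) (C : ℝ) : Prop :=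
  ∃ (g : J → X → ℂ) (u : X → ℂ), (∀ j, DifferentiableOn ℂ (g j) Ω) ∧
    DifferentiableOn ℂ u Ω ∧ (∀ j, ∀ z ∈ Ω, ‖g j z‖ ≤ C) ∧
    (∀ z ∈ Ω, ‖u z‖ ≤ C) ∧ ∀ z ∈ Ω, ∑ j, F j z * g j z + φ z * u z = 1

theorem exp_lower {x : ℝ} (hx : 1 / 49 ≤ x) (hx1 : x ≤ 1) : Real.exp (-(49 * (1 - x))) ≤ x := by
  have hx0 : 0 < x := by linarith
  have h2 : -(49 * (1 - x)) ≤ Real.log x := by
    have h3 := Real.one_sub_inv_le_log_of_pos hx0
    have h4 : -(49 * (1 - x)) ≤ 1 - x⁻¹ := by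
      have h6 : x⁻¹ ≤ 49 := by
        rw [inv_le_comm₀ hx0 (by norm_num)]
        linarith
      have h7 : x⁻¹ * x = 1 := inv_mul_cancel₀ hx0.ne'
      nlinarith
    linarith
  calc Real.exp (-(49 * (1 - x))) ≤ Real.exp (Real.log x) := Real.exp_le_exp.2 h2
    _ = x := Real.exp_log hx0

/-- a product is bounded below where its factors are -/
theorem prod_low {ι : Type} [Fintype ι] {M : ℝ} (φ : ι → ℂ) (h1 : ∀ k, ‖φ k‖ ≤ 1)
    (hM : ∑ k, (1 - ‖φ k‖ ^ 2) ≤ M) (S : Finset ι) (hS : ∀ j ∈ S, 1 / 7 ≤ ‖φ j‖) :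
    Real.exp (-(49 * M)) ≤ ‖∏ j ∈ S, φ j‖ := by
  have hmn : ∀ k, 0 ≤ 1 - ‖φ k‖ ^ 2 := fun k => by
    have h2 := h1 k
    have h3 := norm_nonneg (φ k)
    nlinarith
  have e1 : ‖∏ j ∈ S, φ j‖ = ∏ j ∈ S, ‖φ j‖ := norm_prod _ _
  have h2 : ∏ j ∈ S, ‖φ j‖ ≤ 1 := Finset.prod_le_one (fun j _ => norm_nonneg _) fun j _ => h1 j
  have h3 : 0 ≤ ∏ j ∈ S, ‖φ j‖ := Finset.prod_nonneg fun j _ => norm_nonneg _
  have h4 : (∏ j ∈ S, ‖φ j‖) ^ 2 ≤ ∏ j ∈ S, ‖φ j‖ := by nlinarith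
  have h5 : ∏ j ∈ S, Real.exp (-(49 * (1 - ‖φ j‖ ^ 2))) ≤ (∏ j ∈ S, ‖φ j‖) ^ 2 := by
    rw [← Finset.prod_pow]
    refine Finset.prod_le_prod (fun j _ => (Real.exp_pos _).le) fun j hj => ?_
    have h6 := hS j hj
    exact exp_lower (by nlinarith) (by linarith [hmn j])
  have h7 : Real.exp (-(49 * M)) ≤ ∏ j ∈ S, Real.exp (-(49 * (1 - ‖φ j‖ ^ 2))) := by
    rw [← Real.exp_sum]
    refine Real.exp_le_exp.2 ?_
    rw [Finset.sum_neg_distrib, ← Finset.mul_sum]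
    have h8 : ∑ j ∈ S, (1 - ‖φ j‖ ^ 2) ≤ ∑ j, (1 - ‖φ j‖ ^ 2) :=
      Finset.sum_le_sum_of_subset_of_nonneg (Finset.subset_univ _) fun j _ _ => hmn j
    linarith
  rw [e1]
  linarith

theorem prod_one_sub_le {ι : Type} (S : Finset ι) (T : ι → ℂ) :
    ‖∏ j ∈ S, (1 - T j)‖ ≤ Real.exp (∑ j ∈ S, ‖T j‖) := by
  rw [norm_prod, Real.exp_sum]
  refine Finset.prod_le_prod (fun j _ => norm_nonneg _) fun j _ => ?_
  have h1 := norm_sub_le (1 : ℂ) (T j)
  have h2 := Real.add_one_le_exp ‖T j‖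
  rw [norm_one] at h1
  linarith

/-- **Core gluing lemma.** -/
theorem glue_abs (M C C₁ : ℝ) (hC : 0 ≤ C) (hC₁ : 0 ≤ C₁) : ∃ C' : ℝ, 0 ≤ C' ∧
    ∀ (X : Type) [NormedAddCommGroup X] [NormedSpace ℂ X] (Ω : Set X)
    (ι : Type) [Fintype ι] [LinearOrder ι] (φ : ι → X → ℂ),
    (∀ k, DifferentiableOn ℂ (φ k) Ω) → (∀ k, ∀ z ∈ Ω, ‖φ k z‖ ≤ 1) →
    (∀ z ∈ Ω, ∑ k, (1 - ‖φ k z‖ ^ 2) ≤ M) →
    (∀ k, ∃ A u : X → ℂ, DifferentiableOn ℂ A Ω ∧ DifferentiableOn ℂ u Ω ∧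
      (∀ z ∈ Ω, ‖A z‖ ≤ C₁) ∧ (∀ z ∈ Ω, ‖u z‖ ≤ C₁) ∧
      ∀ z ∈ Ω, Complex.exp (-∑ j with k ≤ j, (1 - φ j z)) * A z + φ k z * u z = 1) →
    ∀ (J : Type) [Fintype J] (F : J → X → ℂ), (∀ k, Sol Ω F (φ k) C) →
    Sol Ω F (fun z => ∏ k, φ k z) C' := by
  obtain ⟨KE, hKE⟩ : ∃ KE : ℝ, KE = 2 * (C₁ * (1 + C)) := ⟨_, rfl⟩
  obtain ⟨KU, hKU⟩ : ∃ KU : ℝ, KU = 3 + 4 * (C₁ + C + C * C₁) := ⟨_, rfl⟩
  obtain ⟨n, hn⟩ : ∃ n : ℕ, n = ⌊2 * M⌋₊ := ⟨_, rfl⟩
  have hKE0 : 0 ≤ KE := by rw [hKE]; positivity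
  have hKU1 : 1 ≤ KU := by
    rw [hKU]
    have : 0 ≤ 4 * (C₁ + C + C * C₁) := by positivity
    linarith
  refine ⟨max (2 * (C₁ * C) * Real.exp KE) (KU ^ n * Real.exp KE * Real.exp (49 * M)),
    le_max_of_le_left (by positivity), ?_⟩
  intro X _ _ Ω ι _ _ φ hφd hφ1 hM hA J _ F hF
  classical
  choose A u' hAd hu'd hAb hu'b hAu using hA
  choose g u hgd hud hgb hub hgu using hF
  have hmn : ∀ k, ∀ z ∈ Ω, 0 ≤ 1 - ‖φ k z‖ ^ 2 := fun k z hz => by
    have h2 := hφ1 k z hz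
    have h3 := norm_nonneg (φ k z)
    nlinarith
  obtain ⟨τ, hτ⟩ : ∃ τ : ι → X → ℝ, τ = fun k z => (1 - φ k z).re := ⟨_, rfl⟩
  have hτ' : ∀ k z, τ k z = (1 - φ k z).re := fun k z => by rw [hτ]
  have hx2 : ∀ k, ∀ z ∈ Ω, ‖1 - φ k z‖ ^ 2 ≤ 2 * τ k z := by
    intro k z hz
    have h1 := hφ1 k z hz
    have h2 : ‖φ k z‖ ^ 2 ≤ 1 := by nlinarith [norm_nonneg (φ k z)]
    rw [hτ', ← Complex.normSq_eq_norm_sq, Complex.normSq_apply]
    rw [← Complex.normSq_eq_norm_sq, Complex.normSq_apply] at h2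
    simp only [Complex.sub_re, Complex.sub_im, Complex.one_re, Complex.one_im]
    nlinarith
  have hτ0 : ∀ k, ∀ z ∈ Ω, 0 ≤ τ k z := fun k z hz => by
    have h1 := hx2 k z hz
    have h2 := sq_nonneg ‖1 - φ k z‖
    linarith
  have hx : ∀ k, ∀ z ∈ Ω, ‖1 - φ k z‖ ≤ 2 := fun k z hz => by
    have h1 := norm_sub_le (1 : ℂ) (φ k z)
    have h2 := hφ1 k z hz
    rw [norm_one] at h1
    linarith
  obtain ⟨e, he⟩ : ∃ e : ι → X → ℂ, e = fun k z => Complex.exp (-∑ j with k ≤ j, (1 - φ j z)) :=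
    ⟨_, rfl⟩
  have he' : ∀ k z, e k z = Complex.exp (-∑ j with k ≤ j, (1 - φ j z)) := fun k z => by rw [he]
  have hed : ∀ k, DifferentiableOn ℂ (e k) Ω := fun k => by
    rw [he]
    exact (DifferentiableOn.fun_sum fun j _ => (differentiableOn_const _).sub (hφd j)).neg.cexp
  have hen : ∀ k z, ‖e k z‖ = Real.exp (-∑ j with k ≤ j, τ j z) := by
    intro k z
    rw [he', Complex.norm_exp, Complex.neg_re, Complex.re_sum]
    simp only [hτ']
  -- the elements of the ideal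
  obtain ⟨T, hT⟩ : ∃ T : ι → X → ℂ, T = fun k z =>
    (1 - φ k z) ^ 2 * e k z * A k z * (1 - φ k z * u k z) := ⟨_, rfl⟩
  obtain ⟨U, hU⟩ : ∃ U : ι → X → ℂ, U = fun k z =>
    (2 - φ k z) + (1 - φ k z) ^ 2 * (u' k z + u k z - φ k z * (u k z * u' k z)) := ⟨_, rfl⟩
  have hTd : ∀ k, DifferentiableOn ℂ (T k) Ω := fun k => by
    rw [hT]
    exact (((((differentiableOn_const _).sub (hφd k)).fun_pow 2).mul (hed k)).mul (hAd k)).mul
      ((differentiableOn_const _).sub ((hφd k).mul (hud k)))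
  have hUd : ∀ k, DifferentiableOn ℂ (U k) Ω := fun k => by
    rw [hU]
    exact ((differentiableOn_const _).sub (hφd k)).add ((((differentiableOn_const _).sub
      (hφd k)).fun_pow 2).mul (((hu'd k).add (hud k)).sub ((hφd k).mul ((hud k).mul (hu'd k)))))
  have hTU : ∀ k, ∀ z ∈ Ω, 1 - T k z = φ k z * U k z := by
    intro k z hz
    have h1 := hAu k z hz
    rw [← he'] at h1
    rw [hT, hU]
    beta_reduce
    have h4 : (1 - φ k z) ^ 2 * e k z * A k z * (1 - φ k z * u k z) =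
        (1 - φ k z) ^ 2 * (1 - φ k z * u' k z) * (1 - φ k z * u k z) := by
      rw [← h1]; ring
    rw [h4]
    ring
  have hTF : ∀ k, ∀ z ∈ Ω, T k z = ∑ j, F j z * ((1 - φ k z) ^ 2 * e k z * A k z * g k j z) := by
    intro k z hz
    have h2 := hgu k z hz
    have h4 : 1 - φ k z * u k z = ∑ j, F j z * g k j z := by rw [← h2]; ring
    rw [hT]
    beta_reduce
    rw [h4, Finset.mul_sum]
    refine Finset.sum_congr rfl fun j _ => ?_
    ring
  have hGb : ∀ k, ∀ z ∈ Ω, ‖(1 - φ k z) ^ 2 * e k z * A k z‖ ≤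
      2 * C₁ * (τ k z * Real.exp (-∑ j with k ≤ j, τ j z)) := by
    intro k z hz
    rw [norm_mul, norm_mul, norm_pow, hen]
    have h3 := hAb k z hz
    have h4 := hx2 k z hz
    have h5 := Real.exp_pos (-∑ j with k ≤ j, τ j z)
    have h6 := hτ0 k z hz
    calc ‖1 - φ k z‖ ^ 2 * Real.exp (-∑ j with k ≤ j, τ j z) * ‖A k z‖
        ≤ (2 * τ k z) * Real.exp (-∑ j with k ≤ j, τ j z) * C₁ := by gcongr
      _ = _ := by ring
  have hjs : ∀ z ∈ Ω, ∑ k, τ k z * Real.exp (-∑ j with k ≤ j, τ j z) ≤ 1 := fun z _ =>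
    jones_sum (fun k => τ k z)
  have hTsum : ∀ z ∈ Ω, ∑ k, ‖T k z‖ ≤ KE := by
    intro z hz
    have h1 : ∀ k, ‖T k z‖ ≤ KE * (τ k z * Real.exp (-∑ j with k ≤ j, τ j z)) := by
      intro k
      rw [hT, hKE]
      beta_reduce
      rw [norm_mul]
      have h2 : ‖1 - φ k z * u k z‖ ≤ 1 + C := by
        refine (norm_sub_le _ _).trans ?_
        rw [norm_one, norm_mul]
        have h3 := mul_le_mul (hφ1 k z hz) (hub k z hz) (norm_nonneg _) zero_le_one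
        linarith
      have h3 := hGb k z hz
      have h4 := mul_le_mul h3 h2 (norm_nonneg _) (by
        have h5 := Real.exp_pos (-∑ j with k ≤ j, τ j z)
        have h6 := hτ0 k z hz
        positivity)
      refine h4.trans (le_of_eq ?_)
      ring
    calc ∑ k, ‖T k z‖ ≤ ∑ k, KE * (τ k z * Real.exp (-∑ j with k ≤ j, τ j z)) :=
          Finset.sum_le_sum fun k _ => h1 k
      _ = KE * ∑ k, τ k z * Real.exp (-∑ j with k ≤ j, τ j z) := by rw [Finset.mul_sum]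
      _ ≤ KE * 1 := mul_le_mul_of_nonneg_left (hjs z hz) hKE0
      _ = KE := mul_one _
  have hTprod : ∀ (S : Finset ι), ∀ z ∈ Ω, ‖∏ j ∈ S, (1 - T j z)‖ ≤ Real.exp KE := by
    intro S z hz
    refine (prod_one_sub_le S fun j => T j z).trans (Real.exp_le_exp.2 ?_)
    exact (Finset.sum_le_sum_of_subset_of_nonneg (Finset.subset_univ _)
      fun j _ _ => norm_nonneg _).trans (hTsum z hz)
  have hUb : ∀ k, ∀ z ∈ Ω, ‖U k z‖ ≤ KU := by
    intro k z hz
    rw [hU, hKU]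
    beta_reduce
    have h2 : ‖2 - φ k z‖ ≤ 3 := by
      have h3 := norm_sub_le (2 : ℂ) (φ k z)
      have h4 := hφ1 k z hz
      have h5 : ‖(2 : ℂ)‖ = 2 := by norm_num
      rw [h5] at h3
      linarith
    have h3 : ‖u' k z + u k z - φ k z * (u k z * u' k z)‖ ≤ C₁ + C + C * C₁ := by
      refine (norm_sub_le _ _).trans ?_
      have h4 := norm_add_le (u' k z) (u k z)
      have h5 := hub k z hz
      have h6 := hu'b k z hz
      have h7 : ‖φ k z * (u k z * u' k z)‖ ≤ C * C₁ := by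
        rw [norm_mul, norm_mul]
        have h8 := mul_le_mul h5 h6 (norm_nonneg _) hC
        have h9 := mul_le_mul (hφ1 k z hz) h8 (by positivity) zero_le_one
        linarith
      linarith
    have h4 : ‖(1 - φ k z) ^ 2‖ ≤ 4 := by
      rw [norm_pow]
      have h5 := hx k z hz
      have h6 := norm_nonneg (1 - φ k z)
      nlinarith
    refine (norm_add_le _ _).trans ?_
    rw [norm_mul ((1 - φ k z) ^ 2)]
    have h5 := mul_le_mul h4 h3 (norm_nonneg _) (by norm_num)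
    linarith
  have hexp : Real.exp (-(49 * M)) * Real.exp (49 * M) = 1 := by
    rw [← Real.exp_add]; simp
  have hRb : ∀ z ∈ Ω, ‖∏ k, U k z‖ ≤ KU ^ n * Real.exp KE * Real.exp (49 * M) := by
    intro z hz
    obtain ⟨S, hS⟩ : ∃ S : Finset ι, S = Finset.univ.filter fun k => ‖φ k z‖ < 1 / 7 := ⟨_, rfl⟩
    have hcard : S.card ≤ n := by
      have h1 : (S.card : ℝ) * (1 / 2) ≤ M := by
        calc (S.card : ℝ) * (1 / 2) = ∑ _j ∈ S, (1 / 2 : ℝ) := by
              rw [Finset.sum_const, nsmul_eq_mul]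
          _ ≤ ∑ j ∈ S, (1 - ‖φ j z‖ ^ 2) := by
              refine Finset.sum_le_sum fun j hj => ?_
              rw [hS] at hj
              have h2 := (Finset.mem_filter.1 hj).2
              have h3 := norm_nonneg (φ j z)
              nlinarith
          _ ≤ ∑ j, (1 - ‖φ j z‖ ^ 2) :=
              Finset.sum_le_sum_of_subset_of_nonneg (Finset.subset_univ _) fun j _ _ => hmn j z hz
          _ ≤ M := hM z hz
      rw [hn]
      exact Nat.le_floor (by linarith)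
    have h1 : (∏ j ∈ Sᶜ, φ j z) * ∏ k, U k z = (∏ k ∈ S, U k z) * ∏ j ∈ Sᶜ, (1 - T j z) := by
      rw [← Finset.prod_mul_prod_compl S (fun k => U k z)]
      have h2 : ∏ j ∈ Sᶜ, (1 - T j z) = (∏ j ∈ Sᶜ, φ j z) * ∏ j ∈ Sᶜ, U j z := by
        rw [← Finset.prod_mul_distrib]
        exact Finset.prod_congr rfl fun k _ => hTU k z hz
      rw [h2]
      ring
    have h2 := prod_low (fun k => φ k z) (fun k => hφ1 k z hz) (hM z hz) Sᶜ (by
      intro j hj
      rw [Finset.mem_compl, hS, Finset.mem_filter] at hj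
      by_contra h
      exact hj ⟨Finset.mem_univ _, not_le.1 h⟩)
    have h3 : ‖∏ k ∈ S, U k z‖ ≤ KU ^ n := by
      rw [norm_prod]
      calc ∏ k ∈ S, ‖U k z‖ ≤ ∏ _k ∈ S, KU :=
            Finset.prod_le_prod (fun j _ => norm_nonneg _) fun j _ => hUb j z hz
        _ = KU ^ S.card := by rw [Finset.prod_const]
        _ ≤ KU ^ n := pow_le_pow_right₀ hKU1 hcard
    have h4 : ‖(∏ j ∈ Sᶜ, φ j z) * ∏ k, U k z‖ ≤ KU ^ n * Real.exp KE := by
      rw [h1, norm_mul]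
      exact mul_le_mul h3 (hTprod _ z hz) (norm_nonneg _) (by positivity)
    rw [norm_mul] at h4
    have h5 : Real.exp (-(49 * M)) * ‖∏ k, U k z‖ ≤ KU ^ n * Real.exp KE :=
      (mul_le_mul_of_nonneg_right h2 (norm_nonneg _)).trans h4
    calc ‖∏ k, U k z‖ = (Real.exp (-(49 * M)) * ‖∏ k, U k z‖) * Real.exp (49 * M) := by
          rw [mul_right_comm, hexp, one_mul]
      _ ≤ _ := mul_le_mul_of_nonneg_right h5 (Real.exp_pos _).le
  refine ⟨fun j z => ∑ k, ((1 - φ k z) ^ 2 * e k z * A k z * g k j z) *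
    ∏ i with i < k, (1 - T i z), fun z => ∏ k, U k z, fun j => ?_, prodDiff _ _ hUd,
    fun j z hz => ?_, fun z hz => (hRb z hz).trans (le_max_right _ _), fun z hz => ?_⟩
  · exact DifferentiableOn.fun_sum fun k _ => ((((((differentiableOn_const _).sub
      (hφd k)).fun_pow 2).mul (hed k)).mul (hAd k)).mul (hgd k j)).mul
        (prodDiff _ (fun i z => 1 - T i z) fun i => (differentiableOn_const _).sub (hTd i))
  · refine le_trans ?_ (le_max_left _ _)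
    refine (norm_sum_le _ _).trans ?_
    have h1 : ∀ k, ‖((1 - φ k z) ^ 2 * e k z * A k z * g k j z) * ∏ i with i < k, (1 - T i z)‖ ≤
        (2 * (C₁ * C) * Real.exp KE) * (τ k z * Real.exp (-∑ j with k ≤ j, τ j z)) := by
      intro k
      rw [norm_mul, norm_mul]
      have h2 := hGb k z hz
      have h3 := hgb k j z hz
      have h4 := hTprod (Finset.univ.filter fun i => i < k) z hz
      have h5 := Real.exp_pos (-∑ j with k ≤ j, τ j z)
      have h6 := hτ0 k z hz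
      calc ‖(1 - φ k z) ^ 2 * e k z * A k z‖ * ‖g k j z‖ * ‖∏ i with i < k, (1 - T i z)‖
          ≤ (2 * C₁ * (τ k z * Real.exp (-∑ j with k ≤ j, τ j z))) * C * Real.exp KE := by
            gcongr
        _ = _ := by ring
    calc ∑ k, ‖((1 - φ k z) ^ 2 * e k z * A k z * g k j z) * ∏ i with i < k, (1 - T i z)‖
        ≤ ∑ k, (2 * (C₁ * C) * Real.exp KE) * (τ k z * Real.exp (-∑ j with k ≤ j, τ j z)) :=
          Finset.sum_le_sum fun k _ => h1 k
      _ = (2 * (C₁ * C) * Real.exp KE) * ∑ k, τ k z * Real.exp (-∑ j with k ≤ j, τ j z) := by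
          rw [Finset.mul_sum]
      _ ≤ (2 * (C₁ * C) * Real.exp KE) * 1 :=
          mul_le_mul_of_nonneg_left (hjs z hz) (by positivity)
      _ = _ := mul_one _
  · have h1 : ∑ j, F j z * ∑ k, ((1 - φ k z) ^ 2 * e k z * A k z * g k j z) *
        ∏ i with i < k, (1 - T i z) = ∑ k, T k z * ∏ i with i < k, (1 - T i z) := by
      simp only [Finset.mul_sum]
      rw [Finset.sum_comm]
      refine Finset.sum_congr rfl fun k _ => ?_
      rw [hTF k z hz, Finset.sum_mul]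
      refine Finset.sum_congr rfl fun j _ => ?_
      ring
    have h2 : (∏ k, φ k z) * ∏ k, U k z = ∏ k, (1 - T k z) := by
      rw [← Finset.prod_mul_distrib]
      exact Finset.prod_congr rfl fun k _ => (hTU k z hz).symm
    have h3 := Finset.prod_one_sub_ordered (Finset.univ : Finset ι) fun k => T k z
    rw [h1, h2, h3]
    ring

end

end Pool.Agent.V7H86.HP
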