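import Mathlib
import Pool.Agent.V7H86.HP.Core
import Pool.Agent.W366.UD.Lu
import Pool.Agent.W978.Ud.Mt

/-!
Infinite products: passage to the limit, gluing for absolutely convergent products of arbitrary
bounded holomorphic functions.
-/

set_option autoImplicit false
set_option linter.unusedSectionVars false

open Metric Set Filter Topology Complex

namespace Pool.Agent.V7H86.HP

section

variable {X : Type} [NormedAddCommGroup X] [NormedSpace ℂ X] {Ω : Set X}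

theorem Sol.mul {J : Type} [Fintype J] {F : J → X → ℂ} {φ φ' : X → ℂ} {C C' : ℝ}
    (h : Sol Ω F φ C) (h' : Sol Ω F φ' C') (hC : 0 ≤ C) (hφd : DifferentiableOn ℂ φ Ω)
    (hφ : ∀ z ∈ Ω, ‖φ z‖ ≤ 1) :
    Sol Ω F (fun z => φ z * φ' z) (C * (1 + C')) := by
  obtain ⟨g, u, h1, h2, h3, h4, h5⟩ := h
  obtain ⟨g', u', h1', h2', h3', h4', h5'⟩ := h'
  refine ⟨fun j z => g j z + φ z * u z * g' j z, fun z => u z * u' z,
    fun j => (h1 j).add ((hφd.mul h2).mul (h1' j)), h2.mul h2', fun j z hz => ?_, fun z hz => ?_,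
    fun z hz => ?_⟩
  · refine (norm_add_le _ _).trans ?_
    have e1 := h3 j z hz
    have e2 : ‖φ z * u z * g' j z‖ ≤ C * C' := by
      rw [norm_mul, norm_mul]
      have e3 : ‖φ z‖ * ‖u z‖ ≤ 1 * C := mul_le_mul (hφ z hz) (h4 z hz) (norm_nonneg _) zero_le_one
      rw [one_mul] at e3
      exact mul_le_mul e3 (h3' j z hz) (norm_nonneg _) hC
    linarith
  · rw [norm_mul]
    have e3 := mul_le_mul (h4 z hz) (h4' z hz) (norm_nonneg _) hC
    linarith
  · have e1 := h5 z hz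
    have e2 := h5' z hz
    have e3 : ∑ j, F j z * (g j z + φ z * u z * g' j z) =
        ∑ j, F j z * g j z + φ z * u z * ∑ j, F j z * g' j z := by
      rw [Finset.mul_sum, ← Finset.sum_add_distrib]
      refine Finset.sum_congr rfl fun j _ => ?_
      ring
    rw [e3]
    linear_combination e1 + φ z * u z * e2

/-- the bound for products of several functions -/
noncomputable def dn (C : ℝ) : ℕ → ℝ
  | 0 => 1
  | n + 1 => C * (1 + dn C n)

theorem dn_nonneg {C : ℝ} (hC : 0 ≤ C) : ∀ n, 0 ≤ dn C n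
  | 0 => zero_le_one
  | n + 1 => mul_nonneg hC (by linarith [dn_nonneg hC n])

theorem Sol.prod {J : Type} [Fintype J] {F : J → X → ℂ} {κ : Type} (φ : κ → X → ℂ) {C : ℝ}
    (hC : 0 ≤ C) (h : ∀ i, Sol Ω F (φ i) C) (hφd : ∀ i, DifferentiableOn ℂ (φ i) Ω)
    (hφ : ∀ i, ∀ z ∈ Ω, ‖φ i z‖ ≤ 1) (T : Finset κ) :
    Sol Ω F (fun z => ∏ i ∈ T, φ i z) (dn C T.card) := by
  classical
  induction T using Finset.induction_on with
  | empty =>
    refine ⟨fun _ _ => 0, fun _ => 1, fun _ => differentiableOn_const _, differentiableOn_const _,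
      fun _ _ _ => by simp [dn], fun _ _ => by simp [dn], fun z _ => by simp⟩
  | insert a T ha ih =>
    rw [Finset.card_insert_of_notMem ha]
    simp only [Finset.prod_insert ha]
    exact (h a).mul ih hC (hφd a) (hφ a)

theorem Sol.mono {J : Type} [Fintype J] {F : J → X → ℂ} {φ : X → ℂ} {C C' : ℝ}
    (h : Sol Ω F φ C) (hC : C ≤ C') : Sol Ω F φ C' := by
  obtain ⟨g, u, h1, h2, h3, h4, h5⟩ := h
  exact ⟨g, u, h1, h2, fun j z hz => (h3 j z hz).trans hC, fun z hz => (h4 z hz).trans hC, h5⟩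

theorem Sol.congr {J : Type} [Fintype J] {F : J → X → ℂ} {φ φ' : X → ℂ} {C : ℝ}
    (h : Sol Ω F φ C) (he : ∀ z ∈ Ω, φ z = φ' z) : Sol Ω F φ' C := by
  obtain ⟨g, u, h1, h2, h3, h4, h5⟩ := h
  exact ⟨g, u, h1, h2, h3, h4, fun z hz => by rw [← he z hz]; exact h5 z hz⟩

end

section lim

variable {X : Type} [NormedAddCommGroup X] [NormedSpace ℂ X] [FiniteDimensional ℂ X] {Ω : Set X}

open Pool.Agent.W732.Ud (S_mt Exh)

theorem t_mt : S_mt := Pool.Agent.W978.Ud.main Pool.Agent.W366.UD.lu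

/-- Montel's theorem -/
theorem montel (hΩ : IsOpen Ω) {N : ℕ} {M : ℝ} (φ : ℕ → Fin N → X → ℂ)
    (hd : ∀ n i, DifferentiableOn ℂ (φ n i) Ω) (hb : ∀ n i, ∀ x ∈ Ω, ‖φ n i x‖ ≤ M) :
    ∃ (s : ℕ → ℕ) (Φ : Fin N → X → ℂ), StrictMono s ∧
      (∀ i, DifferentiableOn ℂ (Φ i) Ω) ∧ (∀ i, ∀ x ∈ Ω, ‖Φ i x‖ ≤ M) ∧
      ∀ i, ∀ x ∈ Ω, Tendsto (fun n => φ (s n) i x) atTop (𝓝 (Φ i x)) := by
  obtain ⟨s, Φ, hs, h1, h2, h3⟩ := t_mt X Ω (fun _ => Ω)
    ⟨hΩ, fun _ => hΩ, fun _ => subset_rfl, fun _ hK _ => Eventually.of_forall fun _ => hK⟩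
    N M φ hd hb
  refine ⟨s, Φ, hs, h1, h2, fun i x hx => ?_⟩
  exact (h3 i {x} (singleton_subset_iff.2 hx) isCompact_singleton).tendsto_at (mem_singleton x)

theorem Sol.lim (hΩ : IsOpen Ω) {J : Type} [Fintype J] {F : J → X → ℂ} {φ : ℕ → X → ℂ}
    {b : X → ℂ} {C : ℝ} (h : ∀ n, Sol Ω F (φ n) C)
    (hl : ∀ z ∈ Ω, Tendsto (fun n => φ n z) atTop (𝓝 (b z))) : Sol Ω F b C := by
  classical
  choose g u h1 h2 h3 h4 h5 using h
  let e := Fintype.equivFin (Option J)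
  obtain ⟨s, Φ, hs, m1, m2, m3⟩ := montel (X := X) hΩ (M := C)
    (fun n i => Option.elim (e.symm i) (u n) (g n)) (by
      intro n i
      cases e.symm i with
      | none => exact h2 n
      | some j => exact h1 n j) (by
      intro n i
      cases e.symm i with
      | none => exact h4 n
      | some j => exact h3 n j)
  refine ⟨fun j => Φ (e (some j)), Φ (e none), fun j => m1 _, m1 _, fun j => m2 _, m2 _,
    fun z hz => ?_⟩
  have l1 : ∀ j, Tendsto (fun n => g (s n) j z) atTop (𝓝 (Φ (e (some j)) z)) := by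
    intro j
    have := m3 (e (some j)) z hz
    simpa using this
  have l2 : Tendsto (fun n => u (s n) z) atTop (𝓝 (Φ (e none) z)) := by
    have := m3 (e none) z hz
    simpa using this
  have l3 : Tendsto (fun n => ∑ j, F j z * g (s n) j z + φ (s n) z * u (s n) z) atTop
      (𝓝 (∑ j, F j z * Φ (e (some j)) z + b z * Φ (e none) z)) :=
    (tendsto_finsetSum _ fun j _ => (l1 j).const_mul (F j z)).add
      (((hl z hz).comp hs.tendsto_atTop).mul l2)
  have l4 : Tendsto (fun n => ∑ j, F j z * g (s n) j z + φ (s n) z * u (s n) z) atTop (𝓝 1) := by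
    refine tendsto_const_nhds.congr fun n => ?_
    exact (h5 (s n) z hz).symm
  exact tendsto_nhds_unique l3 l4

/-- the function `b` is the limit of the partial products of the bounded functions `φ k` -/
structure IsProd (Ω : Set X) (φ : ℕ → X → ℂ) (b : X → ℂ) : Prop where
  diff : ∀ k, DifferentiableOn ℂ (φ k) Ω
  le : ∀ k, ∀ z ∈ Ω, ‖φ k z‖ ≤ 1
  lim : ∀ z ∈ Ω, Tendsto (fun n => ∏ k ∈ Finset.range n, φ k z) atTop (𝓝 (b z))

variable {φ : ℕ → X → ℂ} {b : X → ℂ}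

theorem IsProd.prod_le (h : IsProd Ω φ b) (S : Finset ℕ) {z : X} (hz : z ∈ Ω) :
    ‖∏ k ∈ S, φ k z‖ ≤ 1 := by
  rw [norm_prod]
  exact Finset.prod_le_one (fun j _ => norm_nonneg _) fun j _ => h.le j z hz

theorem IsProd.b_le (h : IsProd Ω φ b) {z : X} (hz : z ∈ Ω) : ‖b z‖ ≤ 1 :=
  le_of_tendsto (h.lim z hz).norm (Eventually.of_forall fun n => h.prod_le _ hz)

theorem IsProd.b_le_φ (h : IsProd Ω φ b) {z : X} (hz : z ∈ Ω) (k : ℕ) : ‖b z‖ ≤ ‖φ k z‖ := by
  refine le_of_tendsto (h.lim z hz).norm ?_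
  filter_upwards [eventually_gt_atTop k] with n hn
  rw [← Finset.mul_prod_erase _ _ (Finset.mem_range.2 hn), norm_mul]
  exact mul_le_of_le_one_right (norm_nonneg _) (h.prod_le _ hz)

/-- the complementary products -/
theorem IsProd.factor (hΩ : IsOpen Ω) (h : IsProd Ω φ b) (k : ℕ) : ∃ c : X → ℂ,
    DifferentiableOn ℂ c Ω ∧ (∀ z ∈ Ω, ‖c z‖ ≤ 1) ∧ ∀ z ∈ Ω, b z = φ k z * c z := by
  obtain ⟨s, Φ, hs, h1, h2, h3⟩ := montel (X := X) hΩ (N := 1) (M := 1)
    (fun n _ z => ∏ j ∈ (Finset.range n).erase k, φ j z)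
    (fun n _ => prodDiff _ _ h.diff) (fun n _ z hz => h.prod_le _ hz)
  refine ⟨Φ 0, h1 0, h2 0, fun z hz => ?_⟩
  have l1 : Tendsto (fun n => φ k z * ∏ j ∈ (Finset.range (s n)).erase k, φ j z) atTop
      (𝓝 (φ k z * Φ 0 z)) := (h3 0 z hz).const_mul _
  have l2 : Tendsto (fun n => φ k z * ∏ j ∈ (Finset.range (s n)).erase k, φ j z) atTop
      (𝓝 (b z)) := by
    refine ((h.lim z hz).comp hs.tendsto_atTop).congr' ?_
    filter_upwards [eventually_gt_atTop k] with n hn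
    have h4 : k < s n := lt_of_lt_of_le hn (hs.id_le n)
    exact (Finset.mul_prod_erase _ _ (Finset.mem_range.2 h4)).symm
  exact tendsto_nhds_unique l2 l1

theorem IsProd.b_diff (hΩ : IsOpen Ω) (h : IsProd Ω φ b) : DifferentiableOn ℂ b Ω := by
  obtain ⟨c, h1, -, h3⟩ := h.factor hΩ 0
  exact ((h.diff 0).mul h1).congr h3

/-- the converse of gluing -/
theorem Sol.factor (hΩ : IsOpen Ω) (h : IsProd Ω φ b) {J : Type} [Fintype J] {F : J → X → ℂ}
    {C : ℝ} (hs : Sol Ω F b C) (k : ℕ) : Sol Ω F (φ k) C := by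
  obtain ⟨c, h1, h2, h3⟩ := h.factor hΩ k
  obtain ⟨g, u, g1, g2, g3, g4, g5⟩ := hs
  refine ⟨g, fun z => c z * u z, g1, h1.mul g2, g3, fun z hz => ?_, fun z hz => ?_⟩
  · rw [norm_mul]
    have e1 := mul_le_mul (h2 z hz) (g4 z hz) (norm_nonneg _) zero_le_one
    linarith
  · rw [← g5 z hz, h3 z hz]
    ring

end lim

/-- gluing for finite products, all functions close to `1` -/
theorem glueB_fin (M C : ℝ) (hC : 0 ≤ C) : ∃ C' : ℝ, 0 ≤ C' ∧
    ∀ (X : Type) [NormedAddCommGroup X] [NormedSpace ℂ X] (Ω : Set X)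
    (n : ℕ) (φ : Fin n → X → ℂ),
    (∀ k, DifferentiableOn ℂ (φ k) Ω) → (∀ k, ∀ z ∈ Ω, ‖φ k z‖ ≤ 1) →
    (∀ z ∈ Ω, ∑ k, (1 - φ k z).re ≤ M) →
    ∀ (J : Type) [Fintype J] (F : J → X → ℂ), (∀ k, Sol Ω F (φ k) C) →
    Sol Ω F (fun z => ∏ k, φ k z) C' := by
  obtain ⟨C', hC', h⟩ := glue_abs (2 * M) C (Real.exp M) hC (Real.exp_pos _).le
  refine ⟨C', hC', ?_⟩
  intro X _ _ Ω n φ hφd hφ1 hM J _ F hF
  have hre : ∀ k, ∀ z ∈ Ω, 0 ≤ (1 - φ k z).re := by
    intro k z hz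
    have h1 := hφ1 k z hz
    have h2 := Complex.re_le_norm (φ k z)
    rw [Complex.sub_re, Complex.one_re]
    linarith
  refine h X Ω (Fin n) φ hφd hφ1 (fun z hz => ?_) (fun k => ?_) J F hF
  · have h1 : ∀ k, (1 - ‖φ k z‖ ^ 2) ≤ 2 * (1 - φ k z).re := by
      intro k
      have h2 := Complex.re_le_norm (φ k z)
      have h3 := hφ1 k z hz
      rw [Complex.sub_re, Complex.one_re]
      have h4 : (φ k z).re ^ 2 ≤ ‖φ k z‖ ^ 2 := by
        rw [← Complex.normSq_eq_norm_sq, Complex.normSq_apply]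
        nlinarith [sq_nonneg (φ k z).im]
      nlinarith [sq_nonneg (1 - (φ k z).re)]
    calc ∑ k, (1 - ‖φ k z‖ ^ 2) ≤ ∑ k, 2 * (1 - φ k z).re := Finset.sum_le_sum fun k _ => h1 k
      _ = 2 * ∑ k, (1 - φ k z).re := by rw [Finset.mul_sum]
      _ ≤ 2 * M := by linarith [hM z hz]
  · refine ⟨fun z => Complex.exp (∑ j with k ≤ j, (1 - φ j z)), fun _ => 0, ?_,
      differentiableOn_const _, fun z hz => ?_, fun z hz => ?_, fun z hz => ?_⟩
    · exact (DifferentiableOn.fun_sum fun j _ => (differentiableOn_const _).sub (hφd j)).cexp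
    · rw [Complex.norm_exp, Complex.re_sum]
      refine Real.exp_le_exp.2 (le_trans ?_ (hM z hz))
      exact Finset.sum_le_sum_of_subset_of_nonneg (Finset.subset_univ _) fun j _ _ => hre j z hz
    · rw [norm_zero]
      exact (Real.exp_pos _).le
    · rw [← Complex.exp_add]
      simp

/-- **Gluing for infinite products of arbitrary functions close to `1`.** -/
theorem glueB (M C : ℝ) (hC : 0 ≤ C) : ∃ C' : ℝ, 0 ≤ C' ∧
    ∀ (X : Type) [NormedAddCommGroup X] [NormedSpace ℂ X] [FiniteDimensional ℂ X] (Ω : Set X),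
    IsOpen Ω → ∀ (φ : ℕ → X → ℂ) (b : X → ℂ), IsProd Ω φ b →
    (∀ z ∈ Ω, ∀ n, ∑ k ∈ Finset.range n, (1 - φ k z).re ≤ M) →
    ∀ (J : Type) [Fintype J] (F : J → X → ℂ), (∀ k, Sol Ω F (φ k) C) → Sol Ω F b C' := by
  obtain ⟨C', hC', h⟩ := glueB_fin M C hC
  refine ⟨C', hC', ?_⟩
  intro X _ _ _ Ω hΩ φ b hp hM J _ F hF
  refine Sol.lim hΩ (φ := fun n z => ∏ k : Fin n, φ k z) (fun n => ?_) fun z hz => ?_
  · refine h X Ω n (fun k => φ k) (fun k => hp.diff k) (fun k => hp.le k) (fun z hz => ?_) J F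
      (fun k => hF k)
    have h1 := hM z hz n
    rwa [← Fin.sum_univ_eq_sum_range (fun k => (1 - φ k z).re) n] at h1
  · refine (hp.lim z hz).congr fun n => ?_
    exact (Fin.prod_univ_eq_prod_range (fun k => φ k z) n).symm

end Pool.Agent.V7H86.HP
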