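import Mathlib

/-!
Pointwise estimates for the functions `(t - w) / (1 - t w)` of one coordinate `w = ⟨z, p⟩` of the
ball (`0 ≤ t < 1`): comparison between several hyperplanes `⟨z, p⟩ = t`.
-/

set_option autoImplicit false

open Complex

namespace Pool.Agent.V7H86.HP

/-- the function with zero `t` -/
noncomputable def mo (t : ℝ) (w : ℂ) : ℂ := (t - w) / (1 - t * w)

/-- `1 - t * mo t w` -/
noncomputable def qq (t : ℝ) (w : ℂ) : ℂ := (1 - t ^ 2) / (1 - t * w)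

/-- the function with positive real part -/
noncomputable def vv (t : ℝ) (w : ℂ) : ℂ := (1 - t ^ 2) * (1 + t * w) / (1 - t * w)

section one

variable {t : ℝ} {w : ℂ}

theorem tw_lt (h0 : 0 ≤ t) (h1 : t < 1) (hw : ‖w‖ < 1) : ‖(t : ℂ) * w‖ < 1 := by
  rw [norm_mul, Complex.norm_real, Real.norm_of_nonneg h0]
  nlinarith [norm_nonneg w]

theorem den_ne (h0 : 0 ≤ t) (h1 : t < 1) (hw : ‖w‖ < 1) : (1 : ℂ) - t * w ≠ 0 := by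
  intro h
  have h2 : (t : ℂ) * w = 1 := (sub_eq_zero.1 h).symm
  have h3 := tw_lt h0 h1 hw
  rw [h2, norm_one] at h3
  exact lt_irrefl _ h3

theorem den_pos (h0 : 0 ≤ t) (h1 : t < 1) (hw : ‖w‖ < 1) : 0 < ‖(1 : ℂ) - t * w‖ :=
  norm_pos_iff.2 (den_ne h0 h1 hw)

theorem D_pos (h0 : 0 ≤ t) (h1 : t < 1) : 0 < 1 - t ^ 2 := by nlinarith

theorem sq_norm (z : ℂ) : ‖z‖ ^ 2 = z.re ^ 2 + z.im ^ 2 := by
  rw [← Complex.normSq_eq_norm_sq, Complex.normSq_apply]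
  ring

theorem key_id (t : ℝ) (w : ℂ) :
    ‖(1 : ℂ) - t * w‖ ^ 2 - ‖(t : ℂ) - w‖ ^ 2 = (1 - t ^ 2) * (1 - ‖w‖ ^ 2) := by
  simp only [sq_norm, Complex.sub_re, Complex.sub_im, Complex.mul_re, Complex.mul_im,
    Complex.one_re, Complex.one_im, Complex.ofReal_re, Complex.ofReal_im]
  ring

theorem one_sub_mo (h0 : 0 ≤ t) (h1 : t < 1) (hw : ‖w‖ < 1) :
    1 - ‖mo t w‖ ^ 2 = (1 - t ^ 2) * (1 - ‖w‖ ^ 2) / ‖(1 : ℂ) - t * w‖ ^ 2 := by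
  have h := den_pos h0 h1 hw
  rw [mo, norm_div, div_pow, ← key_id]
  field_simp

theorem mo_lt (h0 : 0 ≤ t) (h1 : t < 1) (hw : ‖w‖ < 1) : ‖mo t w‖ < 1 := by
  have h := one_sub_mo h0 h1 hw
  have h2 : 0 < (1 - t ^ 2) * (1 - ‖w‖ ^ 2) / ‖(1 : ℂ) - t * w‖ ^ 2 := by
    have h3 := D_pos h0 h1
    have h4 : 0 < 1 - ‖w‖ ^ 2 := by nlinarith [norm_nonneg w]
    have h5 := den_pos h0 h1 hw
    positivity
  rw [← h] at h2
  nlinarith [norm_nonneg (mo t w)]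

theorem one_sub_mo_nonneg (h0 : 0 ≤ t) (h1 : t < 1) (hw : ‖w‖ < 1) : 0 ≤ 1 - ‖mo t w‖ ^ 2 := by
  have := mo_lt h0 h1 hw
  nlinarith [norm_nonneg (mo t w)]

theorem num_le (h0 : 0 ≤ t) (h1 : t < 1) (hw : ‖w‖ < 1) : ‖(t : ℂ) - w‖ ≤ ‖(1 : ℂ) - t * w‖ := by
  have h := key_id t w
  have h2 : 0 ≤ (1 - t ^ 2) * (1 - ‖w‖ ^ 2) := by
    have h3 := D_pos h0 h1
    have h4 : 0 < 1 - ‖w‖ ^ 2 := by nlinarith [norm_nonneg w]
    positivity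
  by_contra hc
  push Not at hc
  nlinarith [norm_nonneg ((1 : ℂ) - t * w)]

theorem norm_qq_sq (h0 : 0 ≤ t) (h1 : t < 1) :
    ‖qq t w‖ ^ 2 = (1 - t ^ 2) ^ 2 / ‖(1 : ℂ) - t * w‖ ^ 2 := by
  rw [qq, norm_div, div_pow]
  congr 1
  have : ((1 : ℂ) - (t : ℂ) ^ 2) = ((1 - t ^ 2 : ℝ) : ℂ) := by push_cast; ring
  rw [this, Complex.norm_real, Real.norm_of_nonneg (D_pos h0 h1).le]

theorem re_vv (h0 : 0 ≤ t) (h1 : t < 1) (hw : ‖w‖ < 1) :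
    (vv t w).re = (1 - t ^ 2) * (1 - t ^ 2 * ‖w‖ ^ 2) / ‖(1 : ℂ) - t * w‖ ^ 2 := by
  have h := den_pos h0 h1 hw
  have h2 : ‖(1 : ℂ) - t * w‖ ^ 2 ≠ 0 := by positivity
  have h3 : vv t w = (1 - t ^ 2) * (1 + t * w) * (starRingEnd ℂ (1 - t * w)) /
      ((‖(1 : ℂ) - t * w‖ ^ 2 : ℝ) : ℂ) := by
    have h4 : ((‖(1 : ℂ) - t * w‖ ^ 2 : ℝ) : ℂ) = (1 - t * w) * starRingEnd ℂ (1 - t * w) := by
      rw [Complex.mul_conj, Complex.normSq_eq_norm_sq]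
    have h5 : (1 : ℂ) - t * w ≠ 0 := den_ne h0 h1 hw
    have h6 : starRingEnd ℂ (1 - t * w) ≠ 0 := by
      intro hc
      exact h5 ((map_eq_zero _).1 hc)
    rw [h4, vv, mul_div_mul_right _ _ h6]
  rw [h3, Complex.div_ofReal_re, sq_norm w]
  congr 1
  simp only [Complex.mul_re, Complex.mul_im, Complex.add_re, Complex.add_im, Complex.sub_re,
    Complex.sub_im, Complex.one_re, Complex.one_im, Complex.ofReal_re, Complex.ofReal_im,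
    Complex.conj_re, Complex.conj_im, pow_two]
  ring

theorem qq_sq_le (h0 : 0 ≤ t) (h1 : t < 1) (hw : ‖w‖ < 1) : ‖qq t w‖ ^ 2 ≤ (vv t w).re := by
  rw [norm_qq_sq h0 h1, re_vv h0 h1 hw]
  have h := den_pos h0 h1 hw
  have h3 := D_pos h0 h1
  gcongr
  rw [pow_two]
  gcongr
  have h4 : ‖w‖ ^ 2 ≤ 1 := by nlinarith [norm_nonneg w]
  nlinarith [sq_nonneg t]

theorem re_vv_nonneg (h0 : 0 ≤ t) (h1 : t < 1) (hw : ‖w‖ < 1) : 0 ≤ (vv t w).re :=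
  (sq_nonneg _).trans (qq_sq_le h0 h1 hw)

theorem re_vv_le (h0 : 0 ≤ t) (h1 : t < 1) (hw : ‖w‖ < 1) :
    (vv t w).re ≤ (1 - ‖mo t w‖ ^ 2) + ‖qq t w‖ ^ 2 := by
  rw [norm_qq_sq h0 h1, re_vv h0 h1 hw, one_sub_mo h0 h1 hw, ← add_div]
  have h := den_pos h0 h1 hw
  have h3 := D_pos h0 h1
  gcongr
  have h4 : ‖w‖ ^ 2 ≤ 1 := by nlinarith [norm_nonneg w]
  nlinarith [mul_nonneg (mul_nonneg h3.le h3.le) (sub_nonneg.2 h4)]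

theorem one_sub_qq (h0 : 0 ≤ t) (h1 : t < 1) (hw : ‖w‖ < 1) : 1 - qq t w = t * mo t w := by
  have h := den_ne h0 h1 hw
  rw [qq, mo]
  field_simp
  ring

theorem qq_eq (h0 : 0 ≤ t) (h1 : t < 1) (hw : ‖w‖ < 1) : qq t w = 1 - t * mo t w := by
  rw [← one_sub_qq h0 h1 hw]; ring

theorem norm_t_mo_le (h0 : 0 ≤ t) (h1 : t < 1) : ‖(t : ℂ) * mo t w‖ ≤ ‖mo t w‖ := by
  rw [norm_mul, Complex.norm_real, Real.norm_of_nonneg h0]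
  nlinarith [norm_nonneg (mo t w)]

theorem norm_qq_le (h0 : 0 ≤ t) (h1 : t < 1) (hw : ‖w‖ < 1) : ‖qq t w‖ ≤ 2 := by
  rw [qq_eq h0 h1 hw]
  have h2 := norm_sub_le (1 : ℂ) (t * mo t w)
  have h3 := norm_t_mo_le (t := t) (w := w) h0 h1
  have h4 := mo_lt h0 h1 hw
  rw [norm_one] at h2
  linarith

theorem den_eq (h0 : 0 ≤ t) (h1 : t < 1) (hw : ‖w‖ < 1) :
    ‖(1 : ℂ) - t * w‖ * ‖qq t w‖ = 1 - t ^ 2 := by
  have h := den_pos h0 h1 hw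
  rw [qq, norm_div]
  have : ((1 : ℂ) - (t : ℂ) ^ 2) = ((1 - t ^ 2 : ℝ) : ℂ) := by push_cast; ring
  rw [this, Complex.norm_real, Real.norm_of_nonneg (D_pos h0 h1).le]
  field_simp

/-- the region `‖mo t w‖ < 1 / 7` -/
theorem near (h0 : 0 ≤ t) (h1 : t < 1) (hw : ‖w‖ < 1) (hm : ‖mo t w‖ < 1 / 7) :
    ‖(1 : ℂ) - t * w‖ ≤ 7 / 6 * (1 - t ^ 2) ∧ 7 / 8 * (1 - t ^ 2) ≤ ‖(1 : ℂ) - t * w‖ ∧
    3 / 4 * (1 - t ^ 2) ≤ 1 - ‖w‖ ^ 2 ∧ 1 - ‖w‖ ^ 2 ≤ 49 / 36 * (1 - t ^ 2) ∧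
    ‖(t : ℂ) - w‖ ≤ 1 / 6 * (1 - t ^ 2) ∧ ‖qq t w‖ ≤ 8 / 7 := by
  have h := den_pos h0 h1 hw
  have hD := D_pos h0 h1
  have hq1 : ‖qq t w‖ ≤ 8 / 7 := by
    rw [qq_eq h0 h1 hw]
    have h2 := norm_sub_le (1 : ℂ) (t * mo t w)
    have h3 := norm_t_mo_le (t := t) (w := w) h0 h1
    rw [norm_one] at h2
    linarith
  have hq2 : 6 / 7 ≤ ‖qq t w‖ := by
    rw [qq_eq h0 h1 hw]
    have h2 := norm_sub_norm_le (1 : ℂ) (t * mo t w)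
    have h3 := norm_t_mo_le (t := t) (w := w) h0 h1
    rw [norm_one] at h2
    linarith
  have hden := den_eq h0 h1 hw
  set r := ‖(1 : ℂ) - t * w‖ with hr
  have e1 : r ≤ 7 / 6 * (1 - t ^ 2) := by nlinarith
  have e2 : 7 / 8 * (1 - t ^ 2) ≤ r := by nlinarith
  have e3 := one_sub_mo h0 h1 hw
  rw [← hr, eq_div_iff (by positivity)] at e3
  have hm0 := norm_nonneg (mo t w)
  have e4 : ‖mo t w‖ ^ 2 ≤ 1 / 49 := by nlinarith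
  have e5 : 49 / 64 * (1 - t ^ 2) ^ 2 ≤ r ^ 2 := by nlinarith
  have e6 : r ^ 2 ≤ 49 / 36 * (1 - t ^ 2) ^ 2 := by nlinarith
  refine ⟨e1, e2, ?_, ?_, ?_, hq1⟩
  · have h5 : 3 / 4 * (1 - t ^ 2) * (1 - t ^ 2) ≤ (1 - t ^ 2) * (1 - ‖w‖ ^ 2) := by
      rw [← e3]
      nlinarith [sq_nonneg r]
    have h6 := le_of_mul_le_mul_left (by linarith : (1 - t ^ 2) * (3 / 4 * (1 - t ^ 2)) ≤
      (1 - t ^ 2) * (1 - ‖w‖ ^ 2)) hD
    exact h6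
  · have h5 : (1 - t ^ 2) * (1 - ‖w‖ ^ 2) ≤ 49 / 36 * (1 - t ^ 2) * (1 - t ^ 2) := by
      rw [← e3]
      nlinarith [sq_nonneg r, sq_nonneg (‖mo t w‖)]
    exact le_of_mul_le_mul_left (by linarith : (1 - t ^ 2) * (1 - ‖w‖ ^ 2) ≤
      (1 - t ^ 2) * (49 / 36 * (1 - t ^ 2))) hD
  · have h5 : ‖(t : ℂ) - w‖ = ‖mo t w‖ * r := by
      rw [mo, norm_div, ← hr]
      field_simp
    rw [h5]
    nlinarith

/-- moving `w` towards `0` -/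
theorem radial (h0 : 0 ≤ t) (h1 : t < 1) (hw : ‖w‖ < 1) {τ : ℝ} (hτ0 : 0 < τ) (hτ1 : τ ≤ 1) :
    (1 - t ^ 2) * τ / (‖(1 : ℂ) - t * w‖ + τ) ^ 2 ≤ 1 - ‖mo t ((1 - τ : ℝ) * w)‖ ^ 2 := by
  have hw' : ‖((1 - τ : ℝ) : ℂ) * w‖ ≤ 1 - τ := by
    rw [norm_mul, Complex.norm_real, Real.norm_of_nonneg (by linarith)]
    nlinarith [norm_nonneg w]
  have hw1 : ‖((1 - τ : ℝ) : ℂ) * w‖ < 1 := by linarith
  rw [one_sub_mo h0 h1 hw1]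
  have hD := D_pos h0 h1
  have h2 := den_pos h0 h1 hw1
  have h3 : ‖(1 : ℂ) - t * (((1 - τ : ℝ) : ℂ) * w)‖ ≤ ‖(1 : ℂ) - t * w‖ + τ := by
    have h4 : (1 : ℂ) - t * (((1 - τ : ℝ) : ℂ) * w) = ((1 - τ : ℝ) : ℂ) * (1 - t * w) + (τ : ℝ) := by
      push_cast
      ring
    rw [h4]
    refine (norm_add_le _ _).trans ?_
    rw [norm_mul, Complex.norm_real, Complex.norm_real, Real.norm_of_nonneg (by linarith : (0 : ℝ) ≤ 1 - τ),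
      Real.norm_of_nonneg hτ0.le]
    nlinarith [norm_nonneg ((1 : ℂ) - t * w)]
  have h5 : τ ≤ 1 - ‖((1 - τ : ℝ) : ℂ) * w‖ ^ 2 := by
    nlinarith [norm_nonneg (((1 - τ : ℝ) : ℂ) * w)]
  have h6 : 0 ≤ (1 - t ^ 2) * (1 - ‖((1 - τ : ℝ) : ℂ) * w‖ ^ 2) :=
    mul_nonneg hD.le (by linarith)
  gcongr

end one

section geo

variable {E : Type*} [NormedAddCommGroup E] [InnerProductSpace ℂ E]

theorem pyth {p : E} (hp : ‖p‖ = 1) (y : E) :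
    ‖y‖ ^ 2 = ‖(inner ℂ p y : ℂ)‖ ^ 2 + ‖y - (inner ℂ p y : ℂ) • p‖ ^ 2 := by
  have h1 : (inner ℂ ((inner ℂ p y : ℂ) • p) (y - (inner ℂ p y : ℂ) • p) : ℂ) = 0 := by
    rw [inner_smul_left, inner_sub_right, inner_smul_right, inner_self_eq_norm_sq_to_K, hp]
    simp
  have h2 := norm_add_sq_eq_norm_sq_add_norm_sq_of_inner_eq_zero
    ((inner ℂ p y : ℂ) • p) (y - (inner ℂ p y : ℂ) • p) h1
  rw [add_sub_cancel] at h2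
  rw [norm_smul, hp, mul_one] at h2
  nlinarith [h2]

theorem perp_inner {p : E} (hp : ‖p‖ = 1) (y : E) :
    (inner ℂ p (y - (inner ℂ p y : ℂ) • p) : ℂ) = 0 := by
  rw [inner_sub_right, inner_smul_right, inner_self_eq_norm_sq_to_K, hp]
  simp

theorem inner_lt {p : E} (hp : ‖p‖ = 1) {z : E} (hz : ‖z‖ < 1) : ‖(inner ℂ p z : ℂ)‖ < 1 := by
  have h1 := norm_inner_le_norm (𝕜 := ℂ) p z
  rw [hp, one_mul] at h1
  exact h1.trans_lt hz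

theorem inner_le_one {p q : E} (hp : ‖p‖ = 1) (hq : ‖q‖ = 1) : ‖(inner ℂ p q : ℂ)‖ ≤ 1 := by
  have h1 := norm_inner_le_norm (𝕜 := ℂ) p q
  rw [hp, hq, one_mul] at h1
  exact h1

/-- the inner product with `q` of a vector orthogonal to `p` -/
theorem perp_bound {p q : E} (hp : ‖p‖ = 1) (hq : ‖q‖ = 1) (y : E) :
    ‖(inner ℂ q (y - (inner ℂ p y : ℂ) • p) : ℂ)‖ ^ 2 ≤
      (1 - ‖(inner ℂ p q : ℂ)‖ ^ 2) * (‖y‖ ^ 2 - ‖(inner ℂ p y : ℂ)‖ ^ 2) := by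
  set y' := y - (inner ℂ p y : ℂ) • p with hy'
  have h1 : (inner ℂ p y' : ℂ) = 0 := perp_inner hp y
  have h2 : (inner ℂ q y' : ℂ) = inner ℂ (q - (inner ℂ p q : ℂ) • p) y' := by
    rw [inner_sub_left, inner_smul_left, h1, mul_zero, sub_zero]
  have h3 := norm_inner_le_norm (𝕜 := ℂ) (q - (inner ℂ p q : ℂ) • p) y'
  rw [← h2] at h3
  have h4 := pyth hp q
  have h5 := pyth hp y
  rw [hq] at h4
  rw [← hy'] at h5
  have h6 : ‖(inner ℂ q y' : ℂ)‖ ^ 2 ≤ (‖q - (inner ℂ p q : ℂ) • p‖ * ‖y'‖) ^ 2 := by gcongr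
  rw [mul_pow] at h6
  have h7 : ‖q - (inner ℂ p q : ℂ) • p‖ ^ 2 = 1 - ‖(inner ℂ p q : ℂ)‖ ^ 2 := by linarith
  have h8 : ‖y'‖ ^ 2 = ‖y‖ ^ 2 - ‖(inner ℂ p y : ℂ)‖ ^ 2 := by linarith
  rw [h7, h8] at h6
  exact h6

/-- a later hyperplane `j` whose region is disjoint from the region of `k` -/
theorem geo2 {pj pk z : E} {tj tk : ℝ} (hpj : ‖pj‖ = 1) (hpk : ‖pk‖ = 1) (hj0 : 0 ≤ tj)
    (hj1 : tj < 1) (hk0 : 0 ≤ tk) (hjk : tk ≤ tj) (hz : ‖z‖ < 1)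
    (hk : ‖mo tk (inner ℂ pk z)‖ < 1 / 7)
    (hdis : ∀ y : E, ‖y‖ < 1 → ‖mo tj (inner ℂ pj y)‖ < 1 / 7 → ‖mo tk (inner ℂ pk y)‖ < 1 / 7 →
      False)
    (hσ : 1 - ‖(inner ℂ pj z : ℂ)‖ ^ 2 < (1 - tj ^ 2) / 4) :
    (1 - tj ^ 2) * (1 - tk ^ 2) ≤ 32 * ‖(1 : ℂ) - tj * inner ℂ pj z‖ ^ 2 := by
  have hk1 : tk < 1 := lt_of_le_of_lt hjk hj1
  have hDj := D_pos hj0 hj1
  have hDk := D_pos hk0 hk1
  have hD : 1 - tj ^ 2 ≤ 1 - tk ^ 2 := by nlinarith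
  obtain ⟨a, ha⟩ : ∃ a : ℂ, a = inner ℂ pj z := ⟨_, rfl⟩
  obtain ⟨b, hb⟩ : ∃ b : ℂ, b = inner ℂ pk z := ⟨_, rfl⟩
  obtain ⟨c, hc⟩ : ∃ c : ℂ, c = inner ℂ pk pj := ⟨_, rfl⟩
  have hcj : (inner ℂ pj pk : ℂ) = starRingEnd ℂ c := by rw [hc, inner_conj_symm]
  have ha1 : ‖a‖ < 1 := by rw [ha]; exact inner_lt hpj hz
  have hb1 : ‖b‖ < 1 := by rw [hb]; exact inner_lt hpk hz
  rw [← ha] at hσ ⊢
  rw [← hb] at hk
  set r := ‖(1 : ℂ) - tj * a‖ with hr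
  have hr0 : 0 < r := den_pos hj0 hj1 ha1
  have hc1 : ‖c‖ ≤ 1 := by rw [hc]; exact inner_le_one hpk hpj
  set β := 1 - ‖c‖ ^ 2 with hβ
  have hβ0 : 0 ≤ β := by rw [hβ]; nlinarith [norm_nonneg c]
  have hta : ‖(tj : ℂ) - a‖ ≤ r := num_le hj0 hj1 ha1
  -- first claim
  have claim1 : β * (1 - tj ^ 2) ≤ 4 * r ^ 2 := by
    by_contra hcon
    push Not at hcon
    have hβp : 0 < β := by
      rcases hβ0.lt_or_eq with h | h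
      · exact h
      · rw [← h] at hcon
        nlinarith
    have hβne : (β : ℂ) ≠ 0 := by exact_mod_cast hβp.ne'
    obtain ⟨v, hv⟩ : ∃ v : E, v = (((tj : ℂ) - a) / β) • (pj - c • pk) := ⟨_, rfl⟩
    have hcc : (1 : ℂ) - c * starRingEnd ℂ c = β := by
      rw [Complex.mul_conj, Complex.normSq_eq_norm_sq, hβ]
      push_cast
      ring
    have hvk : (inner ℂ pk v : ℂ) = 0 := by
      rw [hv, inner_smul_right, inner_sub_right, inner_smul_right, inner_self_eq_norm_sq_to_K, hpk,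
        ← hc]
      simp
    have hvj : (inner ℂ pj v : ℂ) = tj - a := by
      rw [hv, inner_smul_right, inner_sub_right, inner_smul_right, inner_self_eq_norm_sq_to_K, hpj,
        hcj]
      have h1 : ((((1 : ℝ) : ℂ)) ^ 2 - c * starRingEnd ℂ c) = β := by
        rw [← hcc]
        push_cast
        ring
      rw [show ((RCLike.ofReal (1 : ℝ) : ℂ) ^ 2 - c * starRingEnd ℂ c) = β from h1]
      field_simp
    have hvn : ‖v‖ ^ 2 * β = ‖(tj : ℂ) - a‖ ^ 2 := by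
      have h1 : ‖pj - c • pk‖ ^ 2 = β := by
        have h2 := pyth hpk pj
        rw [hpj, ← hc] at h2
        rw [hβ]
        linarith
      rw [hv, norm_smul, mul_pow, h1, norm_div, Complex.norm_real, Real.norm_of_nonneg hβ0, div_pow]
      field_simp
    have hz1 := pyth hpj z
    have hv1 := pyth hpj v
    rw [← ha] at hz1
    rw [hvj] at hv1
    have hy1 := pyth hpj (z + v)
    have hin : (inner ℂ pj (z + v) : ℂ) = tj := by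
      rw [inner_add_right, hvj, ← ha]
      ring
    rw [hin] at hy1
    have hsplit : z + v - (tj : ℂ) • pj = (z - a • pj) + (v - ((tj : ℂ) - a) • pj) := by
      module
    have hzz : ‖z‖ ^ 2 < 1 := by nlinarith [norm_nonneg z]
    have hq1 : ‖z - a • pj‖ ^ 2 < (1 - tj ^ 2) / 4 := by linarith
    have hq2 : ‖v - ((tj : ℂ) - a) • pj‖ ^ 2 < (1 - tj ^ 2) / 4 := by
      have h1 : ‖v - ((tj : ℂ) - a) • pj‖ ^ 2 ≤ ‖v‖ ^ 2 := by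
        nlinarith [sq_nonneg ‖(tj : ℂ) - a‖]
      have h2 : ‖v‖ ^ 2 * β ≤ r ^ 2 := by
        rw [hvn]
        gcongr
      have h3 : ‖v‖ ^ 2 * β < (1 - tj ^ 2) / 4 * β := by linarith
      exact h1.trans_lt (lt_of_mul_lt_mul_right h3 hβ0)
    have hq3 : ‖z + v - (tj : ℂ) • pj‖ ^ 2 < 1 - tj ^ 2 := by
      rw [hsplit]
      have h1 := norm_add_le (z - a • pj) (v - ((tj : ℂ) - a) • pj)
      have h2 : ‖(z - a • pj) + (v - ((tj : ℂ) - a) • pj)‖ ^ 2 ≤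
          (‖z - a • pj‖ + ‖v - ((tj : ℂ) - a) • pj‖) ^ 2 :=
        pow_le_pow_left₀ (norm_nonneg _) h1 2
      have h3 := sq_nonneg (‖z - a • pj‖ - ‖v - ((tj : ℂ) - a) • pj‖)
      linarith
    have hyn : ‖z + v‖ < 1 := by
      have h1 : ‖(tj : ℂ)‖ ^ 2 = tj ^ 2 := by
        rw [Complex.norm_real, Real.norm_of_nonneg hj0]
      rw [h1] at hy1
      have h2 : ‖z + v‖ ^ 2 < 1 := by linarith
      exact lt_of_pow_lt_pow_left₀ 2 zero_le_one (by linarith)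
    refine hdis (z + v) hyn ?_ ?_
    · rw [hin, mo, sub_self, zero_div, norm_zero]
      norm_num
    · rw [inner_add_right, hvk, add_zero, ← hb]
      exact hk
  -- second claim
  have claim2 : 1 - ‖b‖ ^ 2 ≤ 2 * (1 - ‖a‖ ^ 2) + 2 * β := by
    have h1 := perp_bound hpj hpk z
    rw [← ha, hcj, RCLike.norm_conj] at h1
    set Y := ‖(inner ℂ pk (z - a • pj) : ℂ)‖ with hY
    have h2 : b = a * c + inner ℂ pk (z - a • pj) := by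
      rw [inner_sub_right, inner_smul_right, ← hb, ← hc]
      ring
    have h3 : ‖a‖ * ‖c‖ ≤ ‖b‖ + Y := by
      rw [← norm_mul]
      have h4 : a * c = b - inner ℂ pk (z - a • pj) := by rw [h2]; ring
      rw [h4]
      exact norm_sub_le _ _
    have h5 : Y ^ 2 ≤ β * (1 - ‖a‖ ^ 2) := by
      refine h1.trans ?_
      have : ‖z‖ ^ 2 ≤ 1 := by nlinarith [norm_nonneg z]
      rw [← hβ]
      gcongr
    have hσ0 : 0 ≤ 1 - ‖a‖ ^ 2 := by nlinarith [norm_nonneg a]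
    have hY0 : 0 ≤ Y := norm_nonneg _
    obtain ⟨σ, hσ'⟩ : ∃ σ : ℝ, σ = 1 - ‖a‖ ^ 2 := ⟨_, rfl⟩
    rw [← hσ'] at h5 hσ0 ⊢
    have h6 : Y ≤ (β + σ) / 2 := by
      have e1 : Y ^ 2 ≤ ((β + σ) / 2) ^ 2 := by
        have e2 := sq_nonneg (β - σ)
        have e3 : ((β + σ) / 2) ^ 2 = β * σ + (β - σ) ^ 2 / 4 := by ring
        rw [e3]
        linarith
      exact le_of_sq_le_sq e1 (by linarith)
    have h7 : (‖a‖ * ‖c‖) ^ 2 ≤ (‖b‖ + Y) ^ 2 :=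
      pow_le_pow_left₀ (mul_nonneg (norm_nonneg _) (norm_nonneg _)) h3 2
    have h8 : (‖a‖ * ‖c‖) ^ 2 = (1 - σ) * (1 - β) := by
      rw [hβ, hσ']; ring
    rw [h8] at h7
    have h9 : ‖b‖ * Y ≤ 1 * ((β + σ) / 2) := mul_le_mul hb1.le h6 hY0 zero_le_one
    have h10 : (‖b‖ + Y) ^ 2 = ‖b‖ ^ 2 + 2 * (‖b‖ * Y) + Y ^ 2 := by ring
    have h11 : (1 - σ) * (1 - β) = 1 - σ - β + β * σ := by ring
    rw [h10, h11] at h7
    linarith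
  have h3 := (near hk0 hk1 hb1 hk).2.2.1
  have h4 : (1 - tk ^ 2) / 4 ≤ 2 * β := by linarith
  have h5 : (1 - tj ^ 2) * ((1 - tk ^ 2) / 4) ≤ (1 - tj ^ 2) * (2 * β) :=
    mul_le_mul_of_nonneg_left h4 hDj.le
  linarith

/-- an earlier hyperplane `j` whose region meets the region of `k` is seen from the foot of `k` -/
theorem geo1 {pj pk z : E} {tj tk : ℝ} (hpj : ‖pj‖ = 1) (hpk : ‖pk‖ = 1) (hj0 : 0 ≤ tj)
    (hk1 : tk < 1) (hk0 : 0 ≤ tk) (hjk : tj ≤ tk) (hz : ‖z‖ < 1)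
    (hj : ‖mo tj (inner ℂ pj z)‖ < 1 / 7) (hk : ‖mo tk (inner ℂ pk z)‖ < 1 / 7) :
    1 / 25 ≤ 1 - ‖mo tj (inner ℂ pj ((tk : ℂ) • pk))‖ ^ 2 := by
  have hj1 : tj < 1 := lt_of_le_of_lt hjk hk1
  have hDj := D_pos hj0 hj1
  have hDk := D_pos hk0 hk1
  have hD : 1 - tk ^ 2 ≤ 1 - tj ^ 2 := by nlinarith
  obtain ⟨a, ha⟩ : ∃ a : ℂ, a = inner ℂ pj z := ⟨_, rfl⟩
  obtain ⟨b, hb⟩ : ∃ b : ℂ, b = inner ℂ pk z := ⟨_, rfl⟩
  obtain ⟨c, hc⟩ : ∃ c : ℂ, c = inner ℂ pj pk := ⟨_, rfl⟩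
  have hcj : (inner ℂ pk pj : ℂ) = starRingEnd ℂ c := by rw [hc, inner_conj_symm]
  have ha1 : ‖a‖ < 1 := by rw [ha]; exact inner_lt hpj hz
  have hb1 : ‖b‖ < 1 := by rw [hb]; exact inner_lt hpk hz
  rw [← ha] at hj
  rw [← hb] at hk
  have hc1 : ‖c‖ ≤ 1 := by rw [hc]; exact inner_le_one hpj hpk
  have hx : (inner ℂ pj ((tk : ℂ) • pk) : ℂ) = tk * c := by rw [inner_smul_right, ← hc]
  rw [hx]
  have hxn : ‖(tk : ℂ) * c‖ = tk * ‖c‖ := by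
    rw [norm_mul, Complex.norm_real, Real.norm_of_nonneg hk0]
  have hx1 : ‖(tk : ℂ) * c‖ < 1 := by rw [hxn]; nlinarith [norm_nonneg c]
  set s := 1 - ‖(tk : ℂ) * c‖ ^ 2 with hs
  have hs' : s = 1 - tk ^ 2 * ‖c‖ ^ 2 := by rw [hs, hxn]; ring
  have hc2 : ‖c‖ ^ 2 ≤ 1 := by nlinarith [norm_nonneg c]
  have hsβ : 1 - ‖c‖ ^ 2 ≤ s := by rw [hs']; nlinarith [sq_nonneg ‖c‖]
  have hsD : 1 - tk ^ 2 ≤ s := by rw [hs']; nlinarith [sq_nonneg tk]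
  obtain ⟨-, -, hb3, hb4, hb5, -⟩ := near hk0 hk1 hb1 hk
  obtain ⟨ha2, -, ha3, -, -, -⟩ := near hj0 hj1 ha1 hj
  have h1 := perp_bound hpk hpj z
  rw [← hb, hcj, RCLike.norm_conj] at h1
  obtain ⟨Y, hY⟩ : ∃ Y : ℝ, Y = ‖(inner ℂ pj (z - b • pk) : ℂ)‖ := ⟨_, rfl⟩
  rw [← hY] at h1
  have hY0 : 0 ≤ Y := by rw [hY]; exact norm_nonneg _
  have hz2 : ‖z‖ ^ 2 ≤ 1 := by nlinarith [norm_nonneg z]
  have hβ0 : 0 ≤ 1 - ‖c‖ ^ 2 := by linarith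
  have hY1 : Y ^ 2 ≤ 49 / 36 * (s * (1 - tk ^ 2)) := by
    have h2 : Y ^ 2 ≤ (1 - ‖c‖ ^ 2) * (49 / 36 * (1 - tk ^ 2)) := by
      refine h1.trans ?_
      exact mul_le_mul_of_nonneg_left (by linarith) hβ0
    have h3 : (1 - ‖c‖ ^ 2) * (49 / 36 * (1 - tk ^ 2)) ≤ s * (49 / 36 * (1 - tk ^ 2)) :=
      mul_le_mul_of_nonneg_right hsβ (by positivity)
    linarith
  have hs0 : 0 < s := by linarith
  have hY2 : Y ≤ 7 / 6 * s := by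
    have e1 : Y ^ 2 ≤ (7 / 6 * s) ^ 2 := by
      have e2 : s * (1 - tk ^ 2) ≤ s * s := mul_le_mul_of_nonneg_left hsD hs0.le
      have e3 : (7 / 6 * s) ^ 2 = 49 / 36 * (s * s) := by ring
      rw [e3]
      linarith
    exact le_of_sq_le_sq e1 (by linarith)
  have hdiff : (tk : ℂ) * c - a = ((tk : ℂ) - b) * c - inner ℂ pj (z - b • pk) := by
    rw [inner_sub_right, inner_smul_right, ← ha, ← hc]
    ring
  obtain ⟨Δ, hΔ⟩ : ∃ Δ : ℝ, Δ = ‖(tk : ℂ) * c - a‖ := ⟨_, rfl⟩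
  have hΔ0 : 0 ≤ Δ := by rw [hΔ]; exact norm_nonneg _
  have hΔ1 : Δ ≤ 1 / 6 * (1 - tk ^ 2) + Y := by
    rw [hΔ, hdiff, hY]
    refine (norm_sub_le _ _).trans (add_le_add ?_ le_rfl)
    rw [norm_mul]
    have e1 : ‖(tk : ℂ) - b‖ * ‖c‖ ≤ ‖(tk : ℂ) - b‖ * 1 :=
      mul_le_mul_of_nonneg_left hc1 (norm_nonneg _)
    linarith
  have hΔ2 : Δ ≤ 4 / 3 * s := by linarith
  -- claim A
  have hA : (1 - tj ^ 2) / 6 ≤ s := by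
    by_cases hs4 : 1 / 4 ≤ s
    · nlinarith [sq_nonneg tj]
    · push Not at hs4
      have h2 : ‖(tk : ℂ) * c‖ ≤ ‖a‖ + Δ := by
        have h3 : (tk : ℂ) * c = a + ((tk : ℂ) * c - a) := by ring
        calc ‖(tk : ℂ) * c‖ = ‖a + ((tk : ℂ) * c - a)‖ := by rw [← h3]
          _ ≤ ‖a‖ + ‖(tk : ℂ) * c - a‖ := norm_add_le _ _
          _ = ‖a‖ + Δ := by rw [hΔ]
      have h4 : ‖(tk : ℂ) * c‖ ^ 2 ≤ (‖a‖ + Δ) ^ 2 := pow_le_pow_left₀ (norm_nonneg _) h2 2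
      have h5 : s ≥ 1 - (‖a‖ + Δ) ^ 2 := by rw [hs]; linarith
      have h6 : ‖a‖ * Δ ≤ 1 * Δ := mul_le_mul_of_nonneg_right ha1.le hΔ0
      have h7 : Δ * Δ ≤ 1 / 3 * Δ := mul_le_mul_of_nonneg_right (by linarith) hΔ0
      have h8 : (‖a‖ + Δ) ^ 2 = ‖a‖ ^ 2 + 2 * (‖a‖ * Δ) + Δ * Δ := by ring
      rw [h8] at h5
      linarith
  -- claim B
  have hr : ‖(1 : ℂ) - tj * (tk * c)‖ ≤ 4 / 3 * (1 - tj ^ 2) + Y := by
    have h2 : (1 : ℂ) - tj * (tk * c) = (1 - tj * a) - tj * (tk * c - a) := by ring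
    rw [h2]
    refine (norm_sub_le _ _).trans ?_
    rw [norm_mul, ← hΔ, Complex.norm_real, Real.norm_of_nonneg hj0]
    have e1 : tj * Δ ≤ 1 * Δ := mul_le_mul_of_nonneg_right hj1.le hΔ0
    linarith
  have hden := den_pos hj0 hj1 hx1
  rw [one_sub_mo hj0 hj1 hx1, ← hs]
  have hr2 : ‖(1 : ℂ) - tj * (tk * c)‖ ^ 2 ≤ 25 * ((1 - tj ^ 2) * s) := by
    have h2 : ‖(1 : ℂ) - tj * (tk * c)‖ ^ 2 ≤ (4 / 3 * (1 - tj ^ 2) + Y) ^ 2 :=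
      pow_le_pow_left₀ (norm_nonneg _) hr 2
    have h3 : Y ^ 2 ≤ 49 / 36 * (s * (1 - tj ^ 2)) := by
      have e1 : s * (1 - tk ^ 2) ≤ s * (1 - tj ^ 2) := mul_le_mul_of_nonneg_left hD hs0.le
      linarith
    have h4 : (1 - tj ^ 2) * (1 - tj ^ 2) ≤ 6 * s * (1 - tj ^ 2) :=
      mul_le_mul_of_nonneg_right (by linarith) hDj.le
    have h5 := sq_nonneg (4 / 3 * (1 - tj ^ 2) - Y)
    have h6 : (4 / 3 * (1 - tj ^ 2) + Y) ^ 2 =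
      2 * (16 / 9 * ((1 - tj ^ 2) * (1 - tj ^ 2))) + 2 * Y ^ 2 -
        (4 / 3 * (1 - tj ^ 2) - Y) ^ 2 := by ring
    have h7 : 0 ≤ (1 - tj ^ 2) * s := mul_nonneg hDj.le hs0.le
    linarith
  rw [le_div_iff₀ (by positivity)]
  linarith

/-- the main pointwise estimate -/
theorem comb {pj pk z : E} {tj tk : ℝ} (hpj : ‖pj‖ = 1) (hpk : ‖pk‖ = 1) (hj0 : 0 ≤ tj)
    (hj1 : tj < 1) (hk0 : 0 ≤ tk) (hjk : tk ≤ tj) (hz : ‖z‖ < 1)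
    (hk : ‖mo tk (inner ℂ pk z)‖ < 1 / 7)
    (hdis : ∀ y : E, ‖y‖ < 1 → ‖mo tj (inner ℂ pj y)‖ < 1 / 7 → ‖mo tk (inner ℂ pk y)‖ < 1 / 7 →
      False) :
    ‖qq tj (inner ℂ pj z)‖ ^ 2 ≤ 4 * (1 - ‖mo tj (inner ℂ pj z)‖ ^ 2) +
      128 * (1 - ‖mo tj (inner ℂ pj (((tk ^ 2 : ℝ) : ℂ) • z))‖ ^ 2) := by
  have hk1 : tk < 1 := lt_of_le_of_lt hjk hj1
  have hDj := D_pos hj0 hj1
  have hDk := D_pos hk0 hk1
  have hD : 1 - tj ^ 2 ≤ 1 - tk ^ 2 := by nlinarith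
  have ha1 : ‖(inner ℂ pj z : ℂ)‖ < 1 := inner_lt hpj hz
  have hr0 := den_pos hj0 hj1 ha1
  have hrad := radial hj0 hj1 ha1 hDk (by nlinarith [sq_nonneg tk])
  have hy : (inner ℂ pj (((tk ^ 2 : ℝ) : ℂ) • z) : ℂ) = ((1 - (1 - tk ^ 2) : ℝ) : ℂ) * inner ℂ pj z := by
    rw [inner_smul_right]
    congr 2
    ring
  rw [hy]
  have hmn := one_sub_mo_nonneg hj0 hj1 ha1
  set r := ‖(1 : ℂ) - tj * inner ℂ pj z‖ with hr
  rw [norm_qq_sq hj0 hj1, ← hr]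
  by_cases hσ : 1 - ‖(inner ℂ pj z : ℂ)‖ ^ 2 < (1 - tj ^ 2) / 4
  · have h2 := geo2 hpj hpk hj0 hj1 hk0 hjk hz hk hdis hσ
    rw [← hr] at h2
    by_cases hrk : r ≤ 1 - tk ^ 2
    · have h3 : (1 - tj ^ 2) ^ 2 / r ^ 2 ≤ 128 * ((1 - tj ^ 2) * (1 - tk ^ 2) / (r + (1 - tk ^ 2)) ^ 2) := by
        have h4 : (1 - tj ^ 2) * (1 - tk ^ 2) / (2 * (1 - tk ^ 2)) ^ 2 ≤
            (1 - tj ^ 2) * (1 - tk ^ 2) / (r + (1 - tk ^ 2)) ^ 2 := by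
          gcongr
          linarith
        refine le_trans ?_ (mul_le_mul_of_nonneg_left h4 (by norm_num))
        rw [mul_pow, div_le_iff₀ (by positivity)]
        have h5 : 128 * ((1 - tj ^ 2) * (1 - tk ^ 2) / (2 ^ 2 * (1 - tk ^ 2) ^ 2)) * r ^ 2 =
            (1 - tj ^ 2) * (32 * r ^ 2) / (1 - tk ^ 2) := by
          field_simp
          ring
        rw [h5, le_div_iff₀ hDk]
        nlinarith
      have h6 : (128 : ℝ) * ((1 - tj ^ 2) * (1 - tk ^ 2) / (r + (1 - tk ^ 2)) ^ 2) ≤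
          128 * (1 - ‖mo tj (((1 - (1 - tk ^ 2) : ℝ) : ℂ) * inner ℂ pj z)‖ ^ 2) :=
        mul_le_mul_of_nonneg_left hrad (by norm_num)
      linarith
    · push Not at hrk
      have h3 : (1 - tj ^ 2) ^ 2 / r ^ 2 ≤ 4 * ((1 - tj ^ 2) * (1 - tk ^ 2) / (r + (1 - tk ^ 2)) ^ 2) := by
        have h4 : (1 - tj ^ 2) * (1 - tk ^ 2) / (2 * r) ^ 2 ≤
            (1 - tj ^ 2) * (1 - tk ^ 2) / (r + (1 - tk ^ 2)) ^ 2 := by
          gcongr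
          linarith
        refine le_trans ?_ (mul_le_mul_of_nonneg_left h4 (by norm_num))
        rw [mul_pow, div_le_iff₀ (by positivity)]
        have h5 : 4 * ((1 - tj ^ 2) * (1 - tk ^ 2) / (2 ^ 2 * r ^ 2)) * r ^ 2 =
            (1 - tj ^ 2) * (1 - tk ^ 2) := by
          field_simp
          ring
        rw [h5]
        nlinarith
      have h6 : (1 - tj ^ 2) * (1 - tk ^ 2) / (r + (1 - tk ^ 2)) ^ 2 ≤
          (1 - ‖mo tj (((1 - (1 - tk ^ 2) : ℝ) : ℂ) * inner ℂ pj z)‖ ^ 2) := hrad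
      have h7 : 0 ≤ (1 - tj ^ 2) * (1 - tk ^ 2) / (r + (1 - tk ^ 2)) ^ 2 := by positivity
      linarith
  · push Not at hσ
    have h3 : (1 - tj ^ 2) ^ 2 / r ^ 2 ≤ 4 * (1 - ‖mo tj (inner ℂ pj z)‖ ^ 2) := by
      rw [one_sub_mo hj0 hj1 ha1, ← hr, ← mul_div_assoc]
      gcongr
      nlinarith
    have h4 : 0 ≤ (1 - tj ^ 2) * (1 - tk ^ 2) / (r + (1 - tk ^ 2)) ^ 2 := by positivity
    linarith

end geo

end Pool.Agent.V7H86.HP
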