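import Mathlib
import Pool.Agent.Y263.GF.Alg
import Pool.Agent.V7H86.HP.Pt
import Pool.Agent.V7H86.HP.Lim

/-!
Gluing over families of hyperplanes with the Carleson condition.
-/

set_option autoImplicit false
set_option linter.unusedSectionVars false

open Metric Set Filter Topology Complex
open Pool.Agent.Y263.GF (AF frac_AF loc_aff)
open Pool.Agent.Y263.LF (Bez Bez.mono)

namespace Pool.Agent.V7H86.HP

section

variable {X : Type} [NormedAddCommGroup X] [InnerProductSpace ℂ X]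

/-- the function with zero set `⟨z, p⟩ = t` -/
noncomputable def mf (p : X) (t : ℝ) (z : X) : ℂ := mo t (inner ℂ p z)

theorem inner_diff (p : X) (S : Set X) : DifferentiableOn ℂ (fun z : X => (inner ℂ p z : ℂ)) S := by
  have h : DifferentiableOn ℂ (fun z : X => innerSL ℂ p z) S :=
    (innerSL ℂ p).differentiable.differentiableOn
  exact h

theorem inner_AF (p : X) : AF (ball (0 : X) 1) (fun z => (inner ℂ p z : ℂ)) := by
  have h := frac_AF (X := X) (innerSL ℂ p) 0 0 1 (by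
    intro z _
    simp)
  have he : (fun z : X => (inner ℂ p z : ℂ)) =
      fun z => ((innerSL ℂ p) z + 0) / ((0 : X →L[ℂ] ℂ) z + 1) := by
    funext z
    simp
  rw [he]
  exact h

theorem mo_one {w : ℂ} (hw : ‖w‖ < 1) : mo 1 w = 1 := by
  have h : (1 : ℂ) - w ≠ 0 := by
    intro h
    rw [← sub_eq_zero.1 h, norm_one] at hw
    exact lt_irrefl _ hw
  rw [mo, Complex.ofReal_one, one_mul, div_self h]

theorem mo_le {t : ℝ} {w : ℂ} (h0 : 0 ≤ t) (h1 : t ≤ 1) (hw : ‖w‖ < 1) : ‖mo t w‖ ≤ 1 := by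
  rcases h1.lt_or_eq with h | h
  · exact (mo_lt h0 h hw).le
  · rw [h, mo_one hw, norm_one]

theorem mo_diff {t : ℝ} (h0 : 0 ≤ t) (h1 : t ≤ 1) : DifferentiableOn ℂ (mo t) (ball 0 1) := by
  unfold mo
  simp only [div_eq_mul_inv]
  refine ((differentiableOn_const _).sub differentiableOn_id).mul ?_
  refine DifferentiableOn.fun_inv ((differentiableOn_const _).sub
    ((differentiableOn_const _).mul differentiableOn_id)) fun w hw => ?_
  rw [mem_ball_zero_iff] at hw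
  intro h
  have h2 : (t : ℂ) * w = 1 := (sub_eq_zero.1 h).symm
  have h3 : ‖(t : ℂ) * w‖ < 1 := by
    rw [norm_mul, Complex.norm_real, Real.norm_of_nonneg h0]
    nlinarith [norm_nonneg w]
  rw [h2, norm_one] at h3
  exact lt_irrefl _ h3

theorem mf_diff {p : X} {t : ℝ} (hp : ‖p‖ = 1) (h0 : 0 ≤ t) (h1 : t ≤ 1) :
    DifferentiableOn ℂ (mf p t) (ball 0 1) :=
  (mo_diff h0 h1).comp (inner_diff p _) fun _ hz =>
    mem_ball_zero_iff.2 (inner_lt hp (mem_ball_zero_iff.1 hz))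

theorem mf_le {p : X} {t : ℝ} (hp : ‖p‖ = 1) (h0 : 0 ≤ t) (h1 : t ≤ 1) {z : X}
    (hz : z ∈ ball (0 : X) 1) : ‖mf p t z‖ ≤ 1 :=
  mo_le h0 h1 (inner_lt hp (mem_ball_zero_iff.1 hz))

end

theorem re_one_sub {x : ℂ} : 2 * (1 - x).re = (1 - ‖x‖ ^ 2) + ‖1 - x‖ ^ 2 := by
  rw [sq_norm, sq_norm]
  simp only [Complex.sub_re, Complex.sub_im, Complex.one_re, Complex.one_im]
  ring

theorem one_sub_mo_eq {t : ℝ} {w : ℂ} (h0 : 0 ≤ t) (h1 : t < 1) (hw : ‖w‖ < 1) :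
    1 - mo t w = (1 - t : ℝ) * (1 + w) / (1 - t * w) := by
  have hne := den_ne h0 h1 hw
  rw [mo]
  field_simp
  push_cast
  ring

theorem one_sub_mo_le {t : ℝ} {w : ℂ} (h0 : 0 ≤ t) (h1 : t < 1) (hw : ‖w‖ < 1) :
    ‖1 - mo t w‖ ≤ 2 * ‖qq t w‖ := by
  have hd := den_pos h0 h1 hw
  have hD := D_pos h0 h1
  rw [one_sub_mo_eq h0 h1 hw, qq, norm_div, norm_div, norm_mul, Complex.norm_real,
    Real.norm_of_nonneg (by linarith)]
  have h2 : ((1 : ℂ) - (t : ℂ) ^ 2) = ((1 - t ^ 2 : ℝ) : ℂ) := by push_cast; ring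
  have h3 : ‖(1 : ℂ) + w‖ ≤ 2 := by
    refine (norm_add_le _ _).trans ?_
    rw [norm_one]
    linarith
  rw [h2, Complex.norm_real, Real.norm_of_nonneg hD.le, ← mul_div_assoc]
  have h4 : 1 - t ≤ 1 - t ^ 2 := by nlinarith
  have h5 : (1 - t) * ‖(1 : ℂ) + w‖ ≤ 2 * (1 - t ^ 2) := by
    have := mul_le_mul h4 h3 (norm_nonneg _) hD.le
    linarith
  gcongr

theorem re_one_sub_mo {t : ℝ} {w : ℂ} (h0 : 0 ≤ t) (h1 : t < 1) (hw : ‖w‖ < 1) :
    (1 - mo t w).re ≤ 1 / 2 * (1 - ‖mo t w‖ ^ 2) + 2 * ‖qq t w‖ ^ 2 := by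
  have h2 := re_one_sub (x := mo t w)
  have h3 := one_sub_mo_le h0 h1 hw
  have h4 := norm_nonneg (1 - mo t w)
  have h5 : ‖1 - mo t w‖ ^ 2 ≤ (2 * ‖qq t w‖) ^ 2 := pow_le_pow_left₀ h4 h3 2
  nlinarith

/-- the black box: one function with affine fibres and one function -/
theorem pair {c₀ : ℝ} (hc : 0 < c₀) : ∃ C : ℝ, 0 ≤ C ∧ ∀ (X : Type) [NormedAddCommGroup X]
    [InnerProductSpace ℂ X] [FiniteDimensional ℂ X] (χ : X → ℂ) (β : ℂ → ℂ),
    AF (ball (0 : X) 1) χ → (∀ z ∈ ball (0 : X) 1, ‖χ z‖ < 1) →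
    DifferentiableOn ℂ β (ball 0 1) → (∀ w ∈ ball (0 : ℂ) 1, ‖β w‖ ≤ 1) →
    ∀ G : X → ℂ, DifferentiableOn ℂ G (ball 0 1) → (∀ z ∈ ball (0 : X) 1, ‖G z‖ ≤ 1) →
    (∀ z ∈ ball (0 : X) 1, ‖β (χ z)‖ < 1 / 7 → c₀ ≤ ‖G z‖) →
    ∃ A u : X → ℂ, DifferentiableOn ℂ A (ball 0 1) ∧ DifferentiableOn ℂ u (ball 0 1) ∧
      (∀ z ∈ ball (0 : X) 1, ‖A z‖ ≤ C) ∧ (∀ z ∈ ball (0 : X) 1, ‖u z‖ ≤ C) ∧
      ∀ z ∈ ball (0 : X) 1, G z * A z + β (χ z) * u z = 1 := by
  obtain ⟨C, hC0, hC⟩ := loc_aff 1 1 1 (ε := 1 / 7) (Q := 1 / c₀) (by norm_num) (by positivity)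
  refine ⟨C, hC0, ?_⟩
  intro X _ _ _ χ β hχ hχ1 hβ hβ1 G hG hGb hlow
  have h := hC X (fun _ => χ) (fun _ _ => β) (fun _ => hχ) (fun _ => hχ1) (fun _ _ => hβ)
    (fun _ _ => hβ1) (fun _ => G) (fun _ => hG) (fun _ => hGb) (by
      have hsub : {z : X | ‖z‖ < 1 ∧ ∀ (_ : Fin 1) (_ : Fin 1), ‖β (χ z)‖ < 1 / 7} ⊆
          ball (0 : X) 1 := fun z hz => mem_ball_zero_iff.2 hz.1
      have hlow' : ∀ z ∈ {z : X | ‖z‖ < 1 ∧ ∀ (_ : Fin 1) (_ : Fin 1), ‖β (χ z)‖ < 1 / 7},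
          c₀ ≤ ‖G z‖ := fun z hz => hlow z (hsub hz) (hz.2 0 0)
      have hne : ∀ z ∈ {z : X | ‖z‖ < 1 ∧ ∀ (_ : Fin 1) (_ : Fin 1), ‖β (χ z)‖ < 1 / 7},
          G z ≠ 0 := by
        intro z hz h3
        have h4 := hlow' z hz
        rw [h3, norm_zero] at h4
        linarith
      refine ⟨fun _ z => (G z)⁻¹, fun _ => (hG.mono hsub).fun_inv hne, fun _ z hz => ?_,
        fun z hz => ?_⟩
      · rw [norm_inv, ← one_div]
        exact one_div_le_one_div_of_le hc (hlow' z hz)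
      · simp only [Finset.univ_unique, Finset.sum_const, Finset.card_singleton, one_smul]
        exact mul_inv_cancel₀ (hne z hz))
  obtain ⟨g, hg1, hg2, hg3⟩ := h
  refine ⟨g (Sum.inr 0), g (Sum.inl (0, 0)), hg1 _, hg1 _, hg2 _, hg2 _, fun z hz => ?_⟩
  have h3 := hg3 z hz
  rw [Fintype.sum_sum_type, Fintype.sum_prod_type] at h3
  simp only [Finset.univ_unique, Finset.sum_singleton, Sum.elim_inl, Sum.elim_inr,
    Fin.default_eq_zero] at h3
  linear_combination h3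

/-- **Gluing over a finite family of hyperplanes with disjoint regions.** -/
theorem glueA_sep (M C : ℝ) (hC : 0 ≤ C) : ∃ C' : ℝ, 0 ≤ C' ∧
    ∀ (X : Type) [NormedAddCommGroup X] [InnerProductSpace ℂ X] [FiniteDimensional ℂ X]
    (ι : Type) [Fintype ι] [LinearOrder ι] (p : ι → X) (t : ι → ℝ), (∀ k, ‖p k‖ = 1) →
    (∀ k, 0 ≤ t k) → (∀ k, t k ≤ 1) → Monotone t →
    (∀ z ∈ ball (0 : X) 1, ∑ k, (1 - ‖mf (p k) (t k) z‖ ^ 2) ≤ M) →
    (∀ j k, j ≠ k → ∀ y ∈ ball (0 : X) 1, ‖mf (p j) (t j) y‖ < 1 / 7 →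
      ‖mf (p k) (t k) y‖ < 1 / 7 → False) →
    ∀ (J : Type) [Fintype J] (F : J → X → ℂ), (∀ k, Sol (ball 0 1) F (mf (p k) (t k)) C) →
    Sol (ball 0 1) F (fun z => ∏ k, mf (p k) (t k) z) C' := by
  obtain ⟨C₁, hC₁0, hpair⟩ := pair (c₀ := Real.exp (-(265 * M + 2))) (Real.exp_pos _)
  obtain ⟨C', hC', hglue⟩ := glue_abs M C C₁ hC hC₁0
  refine ⟨C', hC', ?_⟩
  intro X _ _ _ ι _ _ p t hp ht0 ht1 hmono hM hdis J _ F hF
  classical
  have hin : ∀ k, ∀ z ∈ ball (0 : X) 1, ‖(inner ℂ (p k) z : ℂ)‖ < 1 := fun k z hz =>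
    inner_lt (hp k) (mem_ball_zero_iff.1 hz)
  have hφ1 : ∀ k, ∀ z ∈ ball (0 : X) 1, ‖mf (p k) (t k) z‖ ≤ 1 := fun k z hz =>
    mf_le (hp k) (ht0 k) (ht1 k) hz
  have hmn : ∀ k, ∀ z ∈ ball (0 : X) 1, 0 ≤ 1 - ‖mf (p k) (t k) z‖ ^ 2 := fun k z hz => by
    have h1 := hφ1 k z hz
    have h2 := norm_nonneg (mf (p k) (t k) z)
    nlinarith
  have hre : ∀ k, ∀ z ∈ ball (0 : X) 1, 0 ≤ (1 - mf (p k) (t k) z).re := by
    intro k z hz
    have h1 := hφ1 k z hz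
    have h2 := Complex.re_le_norm (mf (p k) (t k) z)
    rw [Complex.sub_re, Complex.one_re]
    linarith
  refine hglue X (ball 0 1) ι (fun k => mf (p k) (t k)) (fun k => mf_diff (hp k) (ht0 k) (ht1 k))
    hφ1 hM (fun k => ?_) J F hF
  have hWd : DifferentiableOn ℂ (fun z => Complex.exp (-∑ j with k ≤ j, (1 - mf (p j) (t j) z)))
      (ball (0 : X) 1) :=
    (DifferentiableOn.fun_sum fun j _ => (differentiableOn_const _).sub
      (mf_diff (hp j) (ht0 j) (ht1 j))).neg.cexp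
  have hWn : ∀ z, ‖Complex.exp (-∑ j with k ≤ j, (1 - mf (p j) (t j) z))‖ =
      Real.exp (-∑ j with k ≤ j, (1 - mf (p j) (t j) z).re) := by
    intro z
    rw [Complex.norm_exp, Complex.neg_re, Complex.re_sum]
  refine hpair X (fun z => inner ℂ (p k) z) (mo (t k)) (inner_AF (p k)) (hin k)
    (mo_diff (ht0 k) (ht1 k)) (fun w hw => mo_le (ht0 k) (ht1 k) (mem_ball_zero_iff.1 hw)) _
    hWd (fun z hz => ?_) (fun z hz hk => ?_)
  · rw [hWn, Real.exp_le_one_iff, neg_nonpos]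
    exact Finset.sum_nonneg fun j _ => hre j z hz
  -- the weights near a hyperplane
  have hk1 : t k < 1 := by
    rcases (ht1 k).lt_or_eq with h | h
    · exact h
    · rw [h, mo_one (hin k z hz), norm_one] at hk
      norm_num at hk
  rw [hWn]
  refine Real.exp_le_exp.2 (neg_le_neg ?_)
  obtain ⟨y, hy⟩ : ∃ y : X, y = ((t k ^ 2 : ℝ) : ℂ) • z := ⟨_, rfl⟩
  have hyB : y ∈ ball (0 : X) 1 := by
    have hz' := mem_ball_zero_iff.1 hz
    rw [mem_ball_zero_iff, hy, norm_smul, Complex.norm_real, Real.norm_of_nonneg (sq_nonneg _)]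
    have h1 : t k ^ 2 ≤ 1 := by nlinarith [ht0 k, ht1 k]
    nlinarith [norm_nonneg z, sq_nonneg (t k)]
  have h1 : ∀ j ∈ (Finset.univ.filter fun j => k ≤ j).erase k, (1 - mf (p j) (t j) z).re ≤
      9 * (1 - ‖mf (p j) (t j) z‖ ^ 2) + 256 * (1 - ‖mf (p j) (t j) y‖ ^ 2) := by
    intro j hj
    obtain ⟨hjk, hj2⟩ := Finset.mem_erase.1 hj
    have hkj : k ≤ j := (Finset.mem_filter.1 hj2).2
    have h5 := hmn j z hz
    have h6 := hmn j y hyB
    rcases (ht1 j).lt_or_eq with hj1 | hj1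
    · have h2 := comb (E := X) (hp j) (hp k) (ht0 j) hj1 (ht0 k) (hmono hkj)
        (mem_ball_zero_iff.1 hz) hk (fun x hx h3 h4 =>
          hdis j k hjk x (mem_ball_zero_iff.2 hx) h3 h4)
      have h3 := re_one_sub_mo (ht0 j) hj1 (hin j z hz)
      rw [← hy] at h2
      have h4 : mo (t j) (inner ℂ (p j) z) = mf (p j) (t j) z := rfl
      have h4' : mo (t j) (inner ℂ (p j) y) = mf (p j) (t j) y := rfl
      rw [h4] at h2 h3
      rw [h4'] at h2
      linarith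
    · have h4 : mf (p j) (t j) z = 1 := by
        rw [mf, hj1]
        exact mo_one (hin j z hz)
      have h7 : (1 - mf (p j) (t j) z).re = 0 := by rw [h4]; simp
      rw [h7]
      linarith
  have hmem : k ∈ (Finset.univ.filter fun j => k ≤ j) :=
    Finset.mem_filter.2 ⟨Finset.mem_univ _, le_rfl⟩
  rw [← Finset.add_sum_erase _ _ hmem]
  have h5 : (1 - mf (p k) (t k) z).re ≤ 2 := by
    have h6 := Complex.abs_re_le_norm (mf (p k) (t k) z)
    have h7 := hφ1 k z hz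
    have h8 := neg_abs_le (mf (p k) (t k) z).re
    rw [Complex.sub_re, Complex.one_re]
    linarith
  have h6 := Finset.sum_le_sum h1
  rw [Finset.sum_add_distrib, ← Finset.mul_sum, ← Finset.mul_sum] at h6
  have h7 : ∑ j ∈ (Finset.univ.filter fun j => k ≤ j).erase k, (1 - ‖mf (p j) (t j) z‖ ^ 2) ≤ M :=
    (Finset.sum_le_sum_of_subset_of_nonneg (Finset.subset_univ _)
      fun j _ _ => hmn j z hz).trans (hM z hz)
  have h8 : ∑ j ∈ (Finset.univ.filter fun j => k ≤ j).erase k, (1 - ‖mf (p j) (t j) y‖ ^ 2) ≤ M :=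
    (Finset.sum_le_sum_of_subset_of_nonneg (Finset.subset_univ _)
      fun j _ _ => hmn j y hyB).trans (hM y hyB)
  linarith

/-- **Gluing over a finite family of hyperplanes, ordered by the distance from the centre.** -/
theorem glueA_mono (M C : ℝ) (hC : 0 ≤ C) : ∃ C' : ℝ, 0 ≤ C' ∧
    ∀ (X : Type) [NormedAddCommGroup X] [InnerProductSpace ℂ X] [FiniteDimensional ℂ X]
    (n : ℕ) (p : Fin n → X) (t : Fin n → ℝ), (∀ k, ‖p k‖ = 1) →
    (∀ k, 0 ≤ t k) → (∀ k, t k ≤ 1) → Monotone t →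
    (∀ z ∈ ball (0 : X) 1, ∑ k, (1 - ‖mf (p k) (t k) z‖ ^ 2) ≤ M) →
    ∀ (J : Type) [Fintype J] (F : J → X → ℂ), (∀ k, Sol (ball 0 1) F (mf (p k) (t k)) C) →
    Sol (ball 0 1) F (fun z => ∏ k, mf (p k) (t k) z) C' := by
  obtain ⟨C₀, hC₀, hglue⟩ := glueA_sep M C hC
  obtain ⟨K, hK⟩ : ∃ K : ℕ, K = ⌊25 * M⌋₊ := ⟨_, rfl⟩
  refine ⟨dn C₀ (K + 1), dn_nonneg hC₀ _, ?_⟩
  intro X _ _ _ n p t hp ht0 ht1 hmono hM J _ F hF
  classical
  have hin : ∀ k, ∀ z ∈ ball (0 : X) 1, ‖(inner ℂ (p k) z : ℂ)‖ < 1 := fun k z hz =>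
    inner_lt (hp k) (mem_ball_zero_iff.1 hz)
  have hmn : ∀ k, ∀ z ∈ ball (0 : X) 1, 0 ≤ 1 - ‖mf (p k) (t k) z‖ ^ 2 := fun k z hz => by
    have h1 := mf_le (hp k) (ht0 k) (ht1 k) hz
    have h2 := norm_nonneg (mf (p k) (t k) z)
    nlinarith
  have hlt : ∀ k, ∀ z ∈ ball (0 : X) 1, ‖mf (p k) (t k) z‖ < 1 / 7 → t k < 1 := by
    intro k z hz hk
    rcases (ht1 k).lt_or_eq with h | h
    · exact h
    · rw [mf, h, mo_one (hin k z hz), norm_one] at hk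
      norm_num at hk
  -- the conflict relation
  let r : Fin n → Fin n → Prop := fun j k =>
    ∃ y ∈ ball (0 : X) 1, ‖mf (p j) (t j) y‖ < 1 / 7 ∧ ‖mf (p k) (t k) y‖ < 1 / 7
  have hcount : ∀ k : Fin n, ∀ S : Finset (Fin n), (∀ j ∈ S, j < k ∧ r j k) → S.card ≤ K := by
    intro k S hS
    rcases S.eq_empty_or_nonempty with h0 | ⟨j0, hj0⟩
    · rw [h0, Finset.card_empty]
      exact Nat.zero_le _
    obtain ⟨-, y0, hy0, -, hy02⟩ := hS j0 hj0
    have hk1 := hlt k y0 hy0 hy02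
    have hx : ((t k : ℂ) • p k) ∈ ball (0 : X) 1 := by
      rw [mem_ball_zero_iff, norm_smul, hp, mul_one, Complex.norm_real, Real.norm_of_nonneg (ht0 k)]
      exact hk1
    have h1 : ∀ j ∈ S, (1 / 25 : ℝ) ≤ 1 - ‖mf (p j) (t j) ((t k : ℂ) • p k)‖ ^ 2 := by
      intro j hj
      obtain ⟨hjk, y, hy, hy1, hy2⟩ := hS j hj
      exact geo1 (hp j) (hp k) (ht0 j) hk1 (ht0 k) (hmono hjk.le) (mem_ball_zero_iff.1 hy)
        hy1 hy2
    have h2 : (S.card : ℝ) * (1 / 25) ≤ M := by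
      calc (S.card : ℝ) * (1 / 25) = ∑ _j ∈ S, (1 / 25 : ℝ) := by
            rw [Finset.sum_const, nsmul_eq_mul]
        _ ≤ ∑ j ∈ S, (1 - ‖mf (p j) (t j) ((t k : ℂ) • p k)‖ ^ 2) := Finset.sum_le_sum h1
        _ ≤ ∑ j, (1 - ‖mf (p j) (t j) ((t k : ℂ) • p k)‖ ^ 2) :=
            Finset.sum_le_sum_of_subset_of_nonneg (Finset.subset_univ _) fun j _ _ => hmn j _ hx
        _ ≤ M := hM _ hx
    rw [hK]
    exact Nat.le_floor (by linarith)
  obtain ⟨c, hc⟩ := colour K n r hcount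
  have hsol : ∀ i : Fin (K + 1), Sol (ball (0 : X) 1) F
      (fun z => ∏ k : {k // c k = i}, mf (p k) (t k) z) C₀ := by
    intro i
    refine hglue X {k // c k = i} (fun k => p k) (fun k => t k) (fun k => hp k) (fun k => ht0 k)
      (fun k => ht1 k) (fun j k hjk => hmono hjk) (fun z hz => ?_) (fun j k hjk y hy h1 h2 => ?_)
      J F (fun k => hF k)
    · have h1 : ∑ k : {k // c k = i}, (1 - ‖mf (p k) (t k) z‖ ^ 2) =
          ∑ k ∈ Finset.univ.filter (fun k => c k = i), (1 - ‖mf (p k) (t k) z‖ ^ 2) :=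
        (Finset.sum_subtype _ (by simp) fun k => (1 - ‖mf (p k) (t k) z‖ ^ 2)).symm
      rw [h1]
      exact (Finset.sum_le_sum_of_subset_of_nonneg (Finset.subset_univ _)
        fun j _ _ => hmn j z hz).trans (hM z hz)
    · have hne : (j : Fin n) ≠ k := fun h => hjk (Subtype.ext h)
      rcases lt_or_gt_of_ne hne with h | h
      · exact hc j k h ⟨y, hy, h1, h2⟩ (j.2.trans k.2.symm)
      · exact hc k j h ⟨y, hy, h2, h1⟩ (k.2.trans j.2.symm)
  have h1 := Sol.prod (fun (i : Fin (K + 1)) z => ∏ k : {k // c k = i}, mf (p k) (t k) z) hC₀ hsol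
    (fun i => prodDiff _ _ fun k => mf_diff (hp k) (ht0 k) (ht1 k)) (fun i z hz => by
      rw [norm_prod]
      exact Finset.prod_le_one (fun j _ => norm_nonneg _)
        fun j _ => mf_le (hp j) (ht0 j) (ht1 j) hz) Finset.univ
  rw [Finset.card_univ, Fintype.card_fin] at h1
  exact h1.congr fun z _ => Fintype.prod_fiberwise c fun k => mf (p k) (t k) z

/-- **Gluing over a finite family of hyperplanes.** -/
theorem glueA_fin (M C : ℝ) (hC : 0 ≤ C) : ∃ C' : ℝ, 0 ≤ C' ∧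
    ∀ (X : Type) [NormedAddCommGroup X] [InnerProductSpace ℂ X] [FiniteDimensional ℂ X]
    (n : ℕ) (p : Fin n → X) (t : Fin n → ℝ), (∀ k, ‖p k‖ = 1) →
    (∀ k, 0 ≤ t k) → (∀ k, t k ≤ 1) →
    (∀ z ∈ ball (0 : X) 1, ∑ k, (1 - ‖mf (p k) (t k) z‖ ^ 2) ≤ M) →
    ∀ (J : Type) [Fintype J] (F : J → X → ℂ), (∀ k, Sol (ball 0 1) F (mf (p k) (t k)) C) →
    Sol (ball 0 1) F (fun z => ∏ k, mf (p k) (t k) z) C' := by
  obtain ⟨C', hC', h⟩ := glueA_mono M C hC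
  refine ⟨C', hC', ?_⟩
  intro X _ _ _ n p t hp ht0 ht1 hM J _ F hF
  have h1 := h X n (p ∘ Tuple.sort t) (t ∘ Tuple.sort t) (fun k => hp _) (fun k => ht0 _)
    (fun k => ht1 _) (Tuple.monotone_sort t) (fun z hz => by
      have h2 := Equiv.sum_comp (Tuple.sort t) fun k => (1 - ‖mf (p k) (t k) z‖ ^ 2)
      simp only [Function.comp_apply]
      rw [h2]
      exact hM z hz) J F (fun k => hF _)
  exact h1.congr fun z _ => Equiv.prod_comp (Tuple.sort t) fun k => mf (p k) (t k) z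

section inf

variable {X : Type} [NormedAddCommGroup X] [InnerProductSpace ℂ X] [FiniteDimensional ℂ X]

/-- a family of hyperplanes with the Carleson condition (`t k = 1`: no hyperplane) -/
structure Fam (M : ℝ) (p : ℕ → X) (t : ℕ → ℝ) : Prop where
  unit : ∀ k, ‖p k‖ = 1
  nonneg : ∀ k, 0 ≤ t k
  le : ∀ k, t k ≤ 1
  carleson : ∀ z ∈ ball (0 : X) 1, ∀ n, ∑ k ∈ Finset.range n, (1 - ‖mf (p k) (t k) z‖ ^ 2) ≤ M

theorem mo_sub_one {t : ℝ} {w : ℂ} (h0 : 0 ≤ t) (h1 : t ≤ 1) (hw : ‖w‖ < 1) :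
    ‖mo t w - 1‖ ≤ 2 / (1 - ‖w‖) * (1 - t ^ 2) := by
  have h6 : 0 < 1 - ‖w‖ := by linarith
  rcases h1.lt_or_eq with h1 | h1
  · have h2 : mo t w - 1 = -(1 - mo t w) := by ring
    have h3 : 1 - ‖w‖ ≤ ‖(1 : ℂ) - t * w‖ := by
      have h4 := norm_sub_norm_le (1 : ℂ) (t * w)
      rw [norm_one, norm_mul, Complex.norm_real, Real.norm_of_nonneg h0] at h4
      nlinarith [norm_nonneg w]
    have h4 : ‖(1 : ℂ) + w‖ ≤ 2 := by
      refine (norm_add_le _ _).trans ?_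
      rw [norm_one]
      linarith
    rw [h2, norm_neg, one_sub_mo_eq h0 h1 hw, norm_div, norm_mul, Complex.norm_real,
      Real.norm_of_nonneg (by linarith)]
    have h5 : 1 - t ≤ 1 - t ^ 2 := by nlinarith
    have h7 : 0 ≤ 1 - t ^ 2 := (D_pos h0 h1).le
    calc (1 - t) * ‖(1 : ℂ) + w‖ / ‖(1 : ℂ) - t * w‖ ≤ (1 - t ^ 2) * 2 / (1 - ‖w‖) := by gcongr
      _ = 2 / (1 - ‖w‖) * (1 - t ^ 2) := by ring
  · rw [h1, mo_one hw, sub_self, norm_zero]
    simp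

theorem Fam.summable {M : ℝ} {p : ℕ → X} {t : ℕ → ℝ} (h : Fam M p t) :
    Summable fun k => 1 - t k ^ 2 := by
  refine summable_of_sum_range_le (c := M) (fun k => ?_) fun n => ?_
  · nlinarith [h.nonneg k, h.le k]
  · have h1 := h.carleson 0 (mem_ball_self one_pos) n
    refine le_trans (le_of_eq ?_) h1
    refine Finset.sum_congr rfl fun k _ => ?_
    have h2 : mf (p k) (t k) (0 : X) = t k := by
      rw [mf, inner_zero_right, mo]
      simp
    rw [h2, Complex.norm_real, Real.norm_of_nonneg (h.nonneg k)]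

/-- the product over a family of hyperplanes converges -/
theorem Fam.isProd {M : ℝ} {p : ℕ → X} {t : ℕ → ℝ} (h : Fam M p t) :
    IsProd (ball (0 : X) 1) (fun k => mf (p k) (t k)) (fun z => ∏' k, mf (p k) (t k) z) := by
  refine ⟨fun k => mf_diff (h.unit k) (h.nonneg k) (h.le k),
    fun k z hz => mf_le (h.unit k) (h.nonneg k) (h.le k) hz, fun z hz => ?_⟩
  have hm : Multipliable fun k => mf (p k) (t k) z := by
    have h1 : (fun k => mf (p k) (t k) z) = fun k => 1 + (mf (p k) (t k) z - 1) := by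
      funext k
      ring
    rw [h1]
    refine multipliable_one_add_of_summable ?_
    have h2 : ∀ k, ‖mf (p k) (t k) z - 1‖ ≤ 2 / (1 - ‖z‖) * (1 - t k ^ 2) := by
      intro k
      have hz1 := mem_ball_zero_iff.1 hz
      have h3 : ‖(inner ℂ (p k) z : ℂ)‖ ≤ ‖z‖ := by
        have h4 := norm_inner_le_norm (𝕜 := ℂ) (p k) z
        rwa [h.unit k, one_mul] at h4
      have h5 := mo_sub_one (h.nonneg k) (h.le k) (lt_of_le_of_lt h3 hz1)
      refine h5.trans ?_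
      have h6 : 0 < 1 - ‖z‖ := by linarith
      have h7 : 0 ≤ 1 - t k ^ 2 := by nlinarith [h.nonneg k, h.le k]
      gcongr
    exact Summable.of_nonneg_of_le (fun k => norm_nonneg _) h2 (h.summable.mul_left _)
  exact hm.hasProd.tendsto_prod_nat

end inf

/-- **Gluing over an infinite family of hyperplanes.** -/
theorem glueA (M C : ℝ) (hC : 0 ≤ C) : ∃ C' : ℝ, 0 ≤ C' ∧
    ∀ (X : Type) [NormedAddCommGroup X] [InnerProductSpace ℂ X] [FiniteDimensional ℂ X]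
    (p : ℕ → X) (t : ℕ → ℝ), Fam M p t → ∀ b : X → ℂ,
    IsProd (ball (0 : X) 1) (fun k => mf (p k) (t k)) b →
    ∀ (J : Type) [Fintype J] (F : J → X → ℂ), (∀ k, Sol (ball 0 1) F (mf (p k) (t k)) C) →
    Sol (ball 0 1) F b C' := by
  obtain ⟨C', hC', h⟩ := glueA_fin M C hC
  refine ⟨C', hC', ?_⟩
  intro X _ _ _ p t hf b hb J _ F hF
  refine Sol.lim isOpen_ball (φ := fun n z => ∏ k : Fin n, mf (p k) (t k) z) (fun n => ?_)
    fun z hz => ?_
  · refine h X n (fun k => p k) (fun k => t k) (fun k => hf.unit k) (fun k => hf.nonneg k)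
      (fun k => hf.le k) (fun z hz => ?_) J F (fun k => hF k)
    have h1 := hf.carleson z hz n
    rwa [← Fin.sum_univ_eq_sum_range (fun k => (1 - ‖mf (p k) (t k) z‖ ^ 2)) n] at h1
  · refine (hb.lim z hz).congr fun n => ?_
    exact (Fin.prod_univ_eq_prod_range (fun k => mf (p k) (t k) z) n).symm

end Pool.Agent.V7H86.HP
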