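import Mathlib
import Pool.Agent.V7H86.HP.GeoA

/-!
Localisation theorem with finitely many infinite products.
-/

set_option autoImplicit false

open Metric Set Filter Topology Complex
open Pool.Agent.Y263.GF (AF loc_aff)
open Pool.Agent.Y263.LF (Bez Bez.mono)

namespace Pool.Agent.V7H86.HP

section

variable {X : Type} [NormedAddCommGroup X] [InnerProductSpace ℂ X]

theorem sol_of_bez {I : Type} [Fintype I] [DecidableEq I] (D : I → X → ℂ) (i : I) {φ : X → ℂ}
    {C : ℝ} (h : Bez (ball (0 : X) 1) (Function.update D i φ) C) :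
    Sol (ball 0 1) (Function.update D i 0) φ C := by
  obtain ⟨g, h1, h2, h3⟩ := h
  refine ⟨g, g i, h1, h1 i, h2, h2 i, fun z hz => ?_⟩
  rw [← h3 z hz, ← Finset.add_sum_erase _ _ (Finset.mem_univ i),
    ← Finset.add_sum_erase (a := i) _ (fun m => Function.update D i φ m z * g m z)
      (Finset.mem_univ i)]
  have e1 : ∑ x ∈ Finset.univ.erase i, Function.update D i 0 x z * g x z =
      ∑ x ∈ Finset.univ.erase i, Function.update D i φ x z * g x z := by
    refine Finset.sum_congr rfl fun x hx => ?_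
    rw [Function.update_of_ne (Finset.ne_of_mem_erase hx),
      Function.update_of_ne (Finset.ne_of_mem_erase hx)]
  rw [e1, Function.update_self, Function.update_self]
  simp only [Pi.zero_apply, zero_mul, zero_add]
  ring

theorem bez_of_sol {I : Type} [Fintype I] [DecidableEq I] (D : I → X → ℂ) (i : I) {φ : X → ℂ}
    {C : ℝ} (h : Sol (ball 0 1) (Function.update D i 0) φ C) :
    Bez (ball (0 : X) 1) (Function.update D i φ) C := by
  obtain ⟨g, u, h1, h2, h3, h4, h5⟩ := h
  refine ⟨Function.update g i u, fun m => ?_, fun m z hz => ?_, fun z hz => ?_⟩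
  · by_cases hm : m = i
    · rw [hm, Function.update_self]
      exact h2
    · rw [Function.update_of_ne hm]
      exact h1 m
  · by_cases hm : m = i
    · rw [hm, Function.update_self]
      exact h4 z hz
    · rw [Function.update_of_ne hm]
      exact h3 m z hz
  · rw [← h5 z hz, ← Finset.add_sum_erase _ _ (Finset.mem_univ i),
      ← Finset.add_sum_erase (a := i) _ (fun m => Function.update D i 0 m z * g m z)
        (Finset.mem_univ i)]
    have e1 : ∑ x ∈ Finset.univ.erase i, Function.update D i φ x z * Function.update g i u x z =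
        ∑ x ∈ Finset.univ.erase i, Function.update D i 0 x z * g x z := by
      refine Finset.sum_congr rfl fun x hx => ?_
      rw [Function.update_of_ne (Finset.ne_of_mem_erase hx),
        Function.update_of_ne (Finset.ne_of_mem_erase hx),
        Function.update_of_ne (Finset.ne_of_mem_erase hx)]
    rw [e1, Function.update_self, Function.update_self, Function.update_self]
    simp only [Pi.zero_apply, zero_mul, zero_add]
    ring

/-- a bounded holomorphic function of one map with affine fibres -/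
def OV (h : X → ℂ) : Prop := ∃ (χ : X → ℂ) (β : ℂ → ℂ), AF (ball (0 : X) 1) χ ∧
  (∀ z ∈ ball (0 : X) 1, ‖χ z‖ < 1) ∧ DifferentiableOn ℂ β (ball 0 1) ∧
  (∀ w ∈ ball (0 : ℂ) 1, ‖β w‖ ≤ 1) ∧ ∀ z ∈ ball (0 : X) 1, h z = β (χ z)

/-- the infinite products of the theorem -/
structure Good (A : ℝ) (φ : ℕ → X → ℂ) (b : X → ℂ) : Prop where
  prod : IsProd (ball (0 : X) 1) φ b
  ov : ∀ k, OV (φ k)
  ty : (∃ (p : ℕ → X) (t : ℕ → ℝ), Fam A p t ∧ ∀ k, φ k = mf (p k) (t k)) ∨
    ∀ z ∈ ball (0 : X) 1, ∀ n, ∑ k ∈ Finset.range n, (1 - φ k z).re ≤ A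

end

/-- gluing for both types of products -/
theorem glueAB (A C : ℝ) (hC : 0 ≤ C) : ∃ C' : ℝ, 0 ≤ C' ∧
    ∀ (X : Type) [NormedAddCommGroup X] [InnerProductSpace ℂ X] [FiniteDimensional ℂ X]
    (φ : ℕ → X → ℂ) (b : X → ℂ), IsProd (ball (0 : X) 1) φ b →
    ((∃ (p : ℕ → X) (t : ℕ → ℝ), Fam A p t ∧ ∀ k, φ k = mf (p k) (t k)) ∨
      ∀ z ∈ ball (0 : X) 1, ∀ n, ∑ k ∈ Finset.range n, (1 - φ k z).re ≤ A) →
    ∀ (J : Type) [Fintype J] (F : J → X → ℂ), (∀ k, Sol (ball 0 1) F (φ k) C) →
    Sol (ball 0 1) F b C' := by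
  obtain ⟨C₁, hC₁, H₁⟩ := glueA A C hC
  obtain ⟨C₂, hC₂, H₂⟩ := glueB A C hC
  refine ⟨max C₁ C₂, le_max_of_le_left hC₁, ?_⟩
  intro X _ _ _ φ b hb hty J _ F hF
  rcases hty with ⟨p, t, hf, he⟩ | hty
  · have he2 : φ = fun k => mf (p k) (t k) := funext he
    subst he2
    exact (H₁ X p t hf b hb J F hF).mono (le_max_left _ _)
  · exact (H₂ X (ball 0 1) isOpen_ball φ b hb hty J F hF).mono (le_max_right _ _)

/-- the data: `L` functions `h`, the functions `f k i ∘ ψ k` and the functions `G` -/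
def Dat {X : Type} {L K N M : ℕ} (h : Fin L → X → ℂ) (ψ : Fin K → X → ℂ)
    (f : Fin K → Fin N → ℂ → ℂ) (G : Fin M → X → ℂ) : Fin L ⊕ (Fin K × Fin N) ⊕ Fin M → X → ℂ :=
  Sum.elim h (Sum.elim (fun q z => f q.1 q.2 (ψ q.1 z)) G)

/-- the localisation theorem with finitely many further functions -/
theorem base (L N K M : ℕ) {ε Q : ℝ} (hε : 0 < ε) (hQ : 0 ≤ Q) : ∃ C : ℝ, 0 ≤ C ∧
    ∀ (X : Type) [NormedAddCommGroup X] [InnerProductSpace ℂ X] [FiniteDimensional ℂ X]
    (h : Fin L → X → ℂ), (∀ l, OV (h l)) →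
    ∀ (ψ : Fin K → X → ℂ) (f : Fin K → Fin N → ℂ → ℂ), (∀ k, AF (ball (0 : X) 1) (ψ k)) →
    (∀ k, ∀ z ∈ ball (0 : X) 1, ‖ψ k z‖ < 1) →
    (∀ k i, DifferentiableOn ℂ (f k i) (ball 0 1)) →
    (∀ k i, ∀ z ∈ ball (0 : ℂ) 1, ‖f k i z‖ ≤ 1) →
    ∀ (G : Fin M → X → ℂ), (∀ j, DifferentiableOn ℂ (G j) (ball 0 1)) →
    (∀ j, ∀ z ∈ ball (0 : X) 1, ‖G j z‖ ≤ 1) →
    Bez {z : X | ‖z‖ < 1 ∧ (∀ l, ‖h l z‖ < ε) ∧ ∀ k i, ‖f k i (ψ k z)‖ < ε} G Q →
    Bez (ball 0 1) (Dat h ψ f G) C := by
  obtain ⟨C, hC0, H⟩ := loc_aff (N + 1) (L + K) M hε hQ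
  refine ⟨(N + 1 : ℕ) * C, by positivity, ?_⟩
  intro X _ _ _ h hh ψ f hψ hψ1 hf hfb G hG hGb hbez
  choose χ β hχ hχ1 hβ hβ1 hhe using hh
  have h1 := H X (Fin.append χ ψ) (Fin.append (fun l _ => β l)
    (fun k => Fin.snoc (α := fun _ => ℂ → ℂ) (f k) (fun _ => 0))) (by
      intro k
      refine Fin.addCases (fun l => ?_) (fun k => ?_) k
      · rw [Fin.append_left]; exact hχ l
      · rw [Fin.append_right]; exact hψ k) (by
      intro k
      refine Fin.addCases (fun l => ?_) (fun k => ?_) k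
      · rw [Fin.append_left]; exact hχ1 l
      · rw [Fin.append_right]; exact hψ1 k) (by
      intro k i
      refine Fin.addCases (fun l => ?_) (fun k => ?_) k
      · rw [Fin.append_left]; exact hβ l
      · rw [Fin.append_right]
        refine Fin.lastCases ?_ (fun i => ?_) i
        · rw [Fin.snoc_last]; exact differentiableOn_const _
        · rw [Fin.snoc_castSucc]; exact hf k i) (by
      intro k i
      refine Fin.addCases (fun l => ?_) (fun k => ?_) k
      · rw [Fin.append_left]; exact hβ1 l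
      · rw [Fin.append_right]
        refine Fin.lastCases ?_ (fun i => ?_) i
        · rw [Fin.snoc_last]; exact fun z _ => by simp
        · rw [Fin.snoc_castSucc]; exact hfb k i) G hG hGb (hbez.mono (by
      rintro z ⟨hz, hz2⟩
      refine ⟨hz, fun l => ?_, fun k i => ?_⟩
      · have h2 := hz2 (Fin.castAdd K l) 0
        rw [Fin.append_left, Fin.append_left, ← hhe l z (mem_ball_zero_iff.2 hz)] at h2
        exact h2
      · have h2 := hz2 (Fin.natAdd L k) i.castSucc
        rw [Fin.append_right, Fin.append_right, Fin.snoc_castSucc] at h2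
        exact h2) le_rfl)
  obtain ⟨g, g1, g2, g3⟩ := h1
  refine ⟨Sum.elim (fun l z => ∑ i : Fin (N + 1), g (Sum.inl (Fin.castAdd K l, i)) z)
    (Sum.elim (fun q => g (Sum.inl (Fin.natAdd L q.1, q.2.castSucc))) fun m => g (Sum.inr m)),
    ?_, ?_, ?_⟩
  · rintro (l | q | m)
    · exact DifferentiableOn.fun_sum fun i _ => g1 _
    · exact g1 _
    · exact g1 _
  · have hC1 : C ≤ (N + 1 : ℕ) * C := by
      have h2 : (1 : ℝ) ≤ (N + 1 : ℕ) := by
        have : (0 : ℝ) ≤ N := Nat.cast_nonneg N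
        push_cast
        linarith
      nlinarith
    rintro (l | q | m) z hz
    · refine (norm_sum_le _ _).trans ?_
      refine (Finset.sum_le_sum fun i _ => g2 _ z hz).trans (le_of_eq ?_)
      rw [Finset.sum_const, Finset.card_univ, Fintype.card_fin, nsmul_eq_mul]
    · exact (g2 _ z hz).trans hC1
    · exact (g2 _ z hz).trans hC1
  · intro z hz
    have h2 := g3 z hz
    rw [Fintype.sum_sum_type, Fintype.sum_prod_type, Fin.sum_univ_add] at h2
    simp only [Sum.elim_inl, Sum.elim_inr, Fin.append_left, Fin.append_right] at h2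
    rw [Fintype.sum_sum_type, Fintype.sum_sum_type, Fintype.sum_prod_type]
    simp only [Dat, Sum.elim_inl, Sum.elim_inr]
    rw [← h2]
    have e1 : ∑ k : Fin K, ∑ i : Fin (N + 1), Fin.snoc (α := fun _ => ℂ → ℂ) (f k) (fun _ => 0) i
        (ψ k z) * g (Sum.inl (Fin.natAdd L k, i)) z =
        ∑ k : Fin K, ∑ i : Fin N, f k i (ψ k z) * g (Sum.inl (Fin.natAdd L k, i.castSucc)) z := by
      refine Finset.sum_congr rfl fun k _ => ?_
      rw [Fin.sum_univ_castSucc, Fin.snoc_last, zero_mul, add_zero]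
      refine Finset.sum_congr rfl fun i _ => ?_
      rw [Fin.snoc_castSucc]
    have e2 : ∑ l : Fin L, h l z * ∑ i : Fin (N + 1), g (Sum.inl (Fin.castAdd K l, i)) z =
        ∑ l : Fin L, ∑ i : Fin (N + 1), β l (χ l z) * g (Sum.inl (Fin.castAdd K l, i)) z := by
      refine Finset.sum_congr rfl fun l _ => ?_
      rw [Finset.mul_sum, hhe l z hz]
    rw [e1, e2]
    ring

/-- **Localisation theorem with infinite products.** -/
theorem main (A : ℝ) (L N K M : ℕ) {ε Q : ℝ} (hε : 0 < ε) (hQ : 0 ≤ Q) : ∃ C : ℝ, 0 ≤ C ∧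
    ∀ (X : Type) [NormedAddCommGroup X] [InnerProductSpace ℂ X] [FiniteDimensional ℂ X]
    (φ : Fin L → ℕ → X → ℂ) (b : Fin L → X → ℂ), (∀ l, Good A (φ l) (b l)) →
    ∀ (ψ : Fin K → X → ℂ) (f : Fin K → Fin N → ℂ → ℂ), (∀ k, AF (ball (0 : X) 1) (ψ k)) →
    (∀ k, ∀ z ∈ ball (0 : X) 1, ‖ψ k z‖ < 1) →
    (∀ k i, DifferentiableOn ℂ (f k i) (ball 0 1)) →
    (∀ k i, ∀ z ∈ ball (0 : ℂ) 1, ‖f k i z‖ ≤ 1) →
    ∀ (G : Fin M → X → ℂ), (∀ j, DifferentiableOn ℂ (G j) (ball 0 1)) →
    (∀ j, ∀ z ∈ ball (0 : X) 1, ‖G j z‖ ≤ 1) →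
    Bez {z : X | ‖z‖ < 1 ∧ (∀ l, ‖b l z‖ < ε) ∧ ∀ k i, ‖f k i (ψ k z)‖ < ε} G Q →
    Bez (ball 0 1) (Dat b ψ f G) C := by
  classical
  obtain ⟨C₀, hC₀, hbase⟩ := base L N K M hε hQ
  choose γ hγ0 hγ using fun (C : {C : ℝ // 0 ≤ C}) => glueAB A C.1 C.2
  let c : ℕ → {C : ℝ // 0 ≤ C} := fun m => Nat.rec ⟨C₀, hC₀⟩ (fun _ x => ⟨γ x, hγ0 x⟩) m
  refine ⟨(c L).1, (c L).2, ?_⟩
  intro X _ _ _ φ b hfam ψ f hψ hψ1 hf hfb G hG hGb hbez
  -- hybrid data
  let H : ℕ → (Fin L → ℕ) → Fin L → X → ℂ := fun m κ l =>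
    if l.val < m then b l else φ l (κ l)
  have key : ∀ m ≤ L, ∀ κ : Fin L → ℕ, Bez (ball (0 : X) 1) (Dat (H m κ) ψ f G) (c m).1 := by
    intro m
    induction m with
    | zero =>
      intro _ κ
      refine hbase X (H 0 κ) (fun l => ?_) ψ f hψ hψ1 hf hfb G hG hGb
        (hbez.mono ?_ le_rfl)
      · simp only [H, Nat.not_lt_zero, if_false]
        exact (hfam l).ov _
      · rintro z ⟨hz, hz2, hz3⟩
        refine ⟨hz, fun l => ?_, hz3⟩
        have h1 := hz2 l
        simp only [H, Nat.not_lt_zero, if_false] at h1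
        exact ((hfam l).prod.b_le_φ (mem_ball_zero_iff.2 hz) (κ l)).trans_lt h1
    | succ m ih =>
      intro hm κ
      have hmL : m < L := hm
      obtain ⟨l0, hl0⟩ : ∃ l0 : Fin L, l0 = ⟨m, hmL⟩ := ⟨_, rfl⟩
      have hl0v : l0.val = m := by rw [hl0]
      have e1 : ∀ φ : X → ℂ, ∀ x : Fin L ⊕ (Fin K × Fin N) ⊕ Fin M,
          Function.update (Dat (H m κ) ψ f G) (Sum.inl l0) φ x =
            Dat (Function.update (H m κ) l0 φ) ψ f G x := by
        intro φ x
        rcases x with l | x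
        · by_cases hl : l = l0
          · rw [hl, Function.update_self]
            simp only [Dat, Sum.elim_inl, Function.update_self]
          · rw [Function.update_of_ne (fun h => hl (Sum.inl_injective h))]
            simp only [Dat, Sum.elim_inl, Function.update_of_ne hl]
        · rw [Function.update_of_ne (by simp)]
          simp only [Dat, Sum.elim_inr]
      have e2 : Function.update (H m κ) l0 (b l0) = H (m + 1) κ := by
        funext l
        by_cases hl : l = l0
        · rw [hl, Function.update_self]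
          simp only [H, hl0v, Nat.lt_succ_self, if_true]
        · rw [Function.update_of_ne hl]
          have hlv : l.val ≠ m := fun h => hl (Fin.ext (by rw [h, hl0v]))
          simp only [H]
          by_cases hlm : l.val < m
          · rw [if_pos hlm, if_pos (by omega)]
          · rw [if_neg hlm, if_neg (by omega)]
      have e3 : ∀ k, Function.update (H m κ) l0 (φ l0 k) =
          H m (Function.update κ l0 k) := by
        intro k
        funext l
        by_cases hl : l = l0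
        · rw [hl, Function.update_self]
          simp only [H, hl0v, lt_irrefl, if_false, Function.update_self]
        · rw [Function.update_of_ne hl]
          simp only [H, Function.update_of_ne hl]
      have h1 : ∀ k, Sol (ball 0 1) (Function.update (Dat (H m κ) ψ f G) (Sum.inl l0) 0)
          (φ l0 k) (c m).1 := by
        intro k
        refine sol_of_bez _ _ ?_
        have h2 := ih hmL.le (Function.update κ l0 k)
        rw [← e3 k] at h2
        have h3 : Function.update (Dat (H m κ) ψ f G) (Sum.inl l0) (φ l0 k) =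
            Dat (Function.update (H m κ) l0 (φ l0 k)) ψ f G := funext (e1 _)
        rw [h3]
        exact h2
      have h2 := hγ (c m) X (φ l0) (b l0) (hfam l0).prod (hfam l0).ty _ _ h1
      have h3 := bez_of_sol _ _ h2
      have h4 : Function.update (Dat (H m κ) ψ f G) (Sum.inl l0) (b l0) =
          Dat (H (m + 1) κ) ψ f G := by
        rw [← e2]
        exact funext (e1 _)
      rw [h4] at h3
      exact h3
  have h1 := key L le_rfl fun _ => 0
  have h2 : H L (fun _ => 0) = b := by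
    funext l
    simp only [H, l.2, if_true]
  rw [h2] at h1
  exact h1

end Pool.Agent.V7H86.HP
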