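import Mathlib
import Pool.Agent.V7H86.HP.GeoA

/-!
Arbitrary data: simultaneous solution of the Bezout equation on infinitely many retracts.
-/

set_option autoImplicit false
set_option linter.unusedSectionVars false

open Metric Set Filter Topology Complex

namespace Pool.Agent.V7H86.HP

/-- there are holomorphic `G_j` on the ball, bounded by `C`, with `∑ F_j G_j = 1` on `Z` -/
def Van {X : Type} [NormedAddCommGroup X] [NormedSpace ℂ X] {J : Type} [Fintype J]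
    (F : J → X → ℂ) (Z : Set X) (C : ℝ) : Prop :=
  ∃ G : J → X → ℂ, (∀ j, DifferentiableOn ℂ (G j) (ball 0 1)) ∧
    (∀ j, ∀ z ∈ ball (0 : X) 1, ‖G j z‖ ≤ C) ∧ ∀ z ∈ Z, ∑ j, F j z * G j z = 1

section

variable {X : Type} [NormedAddCommGroup X] [NormedSpace ℂ X] {J : Type} [Fintype J]

theorem Van.mono {F : J → X → ℂ} {Z Z' : Set X} {C C' : ℝ} (h : Van F Z C) (hZ : Z' ⊆ Z)
    (hC : C ≤ C') : Van F Z' C' := by
  obtain ⟨G, h1, h2, h3⟩ := h
  exact ⟨G, h1, fun j z hz => (h2 j z hz).trans hC, fun z hz => h3 z (hZ hz)⟩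

theorem Van.union {F : J → X → ℂ} (hF : ∀ j, DifferentiableOn ℂ (F j) (ball 0 1))
    (hFb : ∀ j, ∀ z ∈ ball (0 : X) 1, ‖F j z‖ ≤ 1) {Z Z' : Set X} {C C' : ℝ} (hC : 0 ≤ C)
    (h : Van F Z C) (h' : Van F Z' C') :
    Van F (Z ∪ Z') (C + C' + Fintype.card J * C * C') := by
  obtain ⟨G, h1, h2, h3⟩ := h
  obtain ⟨G', h1', h2', h3'⟩ := h'
  have key : ∀ z, 1 - ∑ j, F j z * (G j z + G' j z - (∑ i, F i z * G i z) * G' j z) =
      (1 - ∑ j, F j z * G j z) * (1 - ∑ j, F j z * G' j z) := by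
    intro z
    have e1 : ∑ j, F j z * (G j z + G' j z - (∑ i, F i z * G i z) * G' j z) =
        ∑ j, F j z * G j z + ∑ j, F j z * G' j z -
          (∑ i, F i z * G i z) * ∑ j, F j z * G' j z := by
      rw [Finset.mul_sum, ← Finset.sum_add_distrib, ← Finset.sum_sub_distrib]
      refine Finset.sum_congr rfl fun j _ => ?_
      ring
    rw [e1]
    ring
  refine ⟨fun j z => G j z + G' j z - (∑ i, F i z * G i z) * G' j z, fun j => ?_,
    fun j z hz => ?_, fun z hz => ?_⟩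
  · exact ((h1 j).add (h1' j)).sub
      ((DifferentiableOn.fun_sum fun i _ => (hF i).mul (h1 i)).mul (h1' j))
  · have e1 : ‖∑ i, F i z * G i z‖ ≤ Fintype.card J * C := by
      refine (norm_sum_le _ _).trans ?_
      have e2 : ∀ i ∈ (Finset.univ : Finset J), ‖F i z * G i z‖ ≤ C := by
        intro i _
        rw [norm_mul]
        have := mul_le_mul (hFb i z hz) (h2 i z hz) (norm_nonneg _) zero_le_one
        rwa [one_mul] at this
      refine (Finset.sum_le_sum e2).trans (le_of_eq ?_)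
      rw [Finset.sum_const, Finset.card_univ, nsmul_eq_mul]
    have e3 : ‖(∑ i, F i z * G i z) * G' j z‖ ≤ Fintype.card J * C * C' := by
      rw [norm_mul]
      exact mul_le_mul e1 (h2' j z hz) (norm_nonneg _) (by positivity)
    have e4 := norm_sub_le (G j z + G' j z) ((∑ i, F i z * G i z) * G' j z)
    have e5 := norm_add_le (G j z) (G' j z)
    have e6 := h2 j z hz
    have e7 := h2' j z hz
    linarith
  · have e1 := key z
    have e2 : (1 - ∑ j, F j z * G j z) * (1 - ∑ j, F j z * G' j z) = 0 := by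
      rcases hz with hz | hz
      · rw [h3 z hz]; ring
      · rw [h3' z hz]; ring
    rw [e2] at e1
    exact (sub_eq_zero.1 e1).symm

/-- the bound for unions -/
noncomputable def un (N C : ℝ) : ℕ → ℝ
  | 0 => 0
  | n + 1 => C + un N C n + N * C * un N C n

theorem un_nonneg {N C : ℝ} (hN : 0 ≤ N) (hC : 0 ≤ C) : ∀ n, 0 ≤ un N C n
  | 0 => le_rfl
  | n + 1 => by
    have h := un_nonneg hN hC n
    have h2 : 0 ≤ N * C * un N C n := mul_nonneg (mul_nonneg hN hC) h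
    simp only [un]
    linarith

theorem Van.iUnion {F : J → X → ℂ} (hF : ∀ j, DifferentiableOn ℂ (F j) (ball 0 1))
    (hFb : ∀ j, ∀ z ∈ ball (0 : X) 1, ‖F j z‖ ≤ 1) {κ : Type} (Z : κ → Set X) {C : ℝ}
    (hC : 0 ≤ C) (h : ∀ i, Van F (Z i) C) (T : Finset κ) :
    Van F (⋃ i ∈ T, Z i) (un (Fintype.card J) C T.card) := by
  classical
  induction T using Finset.induction_on with
  | empty =>
    refine ⟨fun _ _ => 0, fun _ => differentiableOn_const _, fun _ _ _ => by simp [un],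
      fun z hz => ?_⟩
    simp at hz
  | insert a T ha ih =>
    rw [Finset.card_insert_of_notMem ha, Finset.set_biUnion_insert]
    exact (Van.union hF hFb hC (h a) ih)

end

/-- the lower bound for the weights near a hyperplane -/
theorem e_low {X : Type} [NormedAddCommGroup X] [InnerProductSpace ℂ X]
    {M : ℝ} {ι : Type} [Fintype ι] [LinearOrder ι] (p : ι → X) (t : ι → ℝ)
    (hp : ∀ k, ‖p k‖ = 1) (ht0 : ∀ k, 0 ≤ t k) (ht1 : ∀ k, t k ≤ 1) (hmono : Monotone t)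
    (hM : ∀ z ∈ ball (0 : X) 1, ∑ k, (1 - ‖mf (p k) (t k) z‖ ^ 2) ≤ M)
    (hdis : ∀ j k, j ≠ k → ∀ y ∈ ball (0 : X) 1, ‖mf (p j) (t j) y‖ < 1 / 7 →
      ‖mf (p k) (t k) y‖ < 1 / 7 → False)
    (k : ι) {z : X} (hz : z ∈ ball (0 : X) 1) (hk : ‖mf (p k) (t k) z‖ < 1 / 7) :
    Real.exp (-(265 * M + 2)) ≤
      ‖Complex.exp (-∑ j with k ≤ j, (1 - mf (p j) (t j) z))‖ := by
  have hin : ∀ k, ∀ z ∈ ball (0 : X) 1, ‖(inner ℂ (p k) z : ℂ)‖ < 1 := fun k z hz =>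
    inner_lt (hp k) (mem_ball_zero_iff.1 hz)
  have hφ1 : ∀ k, ∀ z ∈ ball (0 : X) 1, ‖mf (p k) (t k) z‖ ≤ 1 := fun k z hz =>
    mf_le (hp k) (ht0 k) (ht1 k) hz
  have hmn : ∀ k, ∀ z ∈ ball (0 : X) 1, 0 ≤ 1 - ‖mf (p k) (t k) z‖ ^ 2 := fun k z hz => by
    have h1 := hφ1 k z hz
    have h2 := norm_nonneg (mf (p k) (t k) z)
    nlinarith
  have hWn : ∀ z, ‖Complex.exp (-∑ j with k ≤ j, (1 - mf (p j) (t j) z))‖ =
      Real.exp (-∑ j with k ≤ j, (1 - mf (p j) (t j) z).re) := by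
    intro z
    rw [Complex.norm_exp, Complex.neg_re, Complex.re_sum]
  have hk1 : t k < 1 := by
    rcases (ht1 k).lt_or_eq with h | h
    · exact h
    · rw [mf, h, mo_one (hin k z hz), norm_one] at hk
      norm_num at hk
  rw [hWn]
  refine Real.exp_le_exp.2 (neg_le_neg ?_)
  obtain ⟨y, hy⟩ : ∃ y : X, y = ((t k ^ 2 : ℝ) : ℂ) • z := ⟨_, rfl⟩
  have hyB : y ∈ ball (0 : X) 1 := by
    have hz' := mem_ball_zero_iff.1 hz
    rw [mem_ball_zero_iff, hy, norm_smul, Complex.norm_real, Real.norm_of_nonneg (sq_nonneg _)]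
    have h1 : t k ^ 2 ≤ 1 := by nlinarith [ht0 k, ht1 k]
    nlinarith [norm_nonneg z, sq_nonneg (t k)]
  have h1 : ∀ j ∈ (Finset.univ.filter fun j => k ≤ j).erase k, (1 - mf (p j) (t j) z).re ≤
      9 * (1 - ‖mf (p j) (t j) z‖ ^ 2) + 256 * (1 - ‖mf (p j) (t j) y‖ ^ 2) := by
    intro j hj
    obtain ⟨hjk, hj2⟩ := Finset.mem_erase.1 hj
    have hkj : k ≤ j := (Finset.mem_filter.1 hj2).2
    have h5 := hmn j z hz
    have h6 := hmn j y hyB
    rcases (ht1 j).lt_or_eq with hj1 | hj1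
    · have h2 := comb (E := X) (hp j) (hp k) (ht0 j) hj1 (ht0 k) (hmono hkj)
        (mem_ball_zero_iff.1 hz) hk (fun x hx h3 h4 =>
          hdis j k hjk x (mem_ball_zero_iff.2 hx) h3 h4)
      have h3 := re_one_sub_mo (ht0 j) hj1 (hin j z hz)
      rw [← hy] at h2
      have h4 : mo (t j) (inner ℂ (p j) z) = mf (p j) (t j) z := rfl
      have h4' : mo (t j) (inner ℂ (p j) y) = mf (p j) (t j) y := rfl
      rw [h4] at h2 h3
      rw [h4'] at h2
      linarith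
    · have h4 : mf (p j) (t j) z = 1 := by
        rw [mf, hj1]
        exact mo_one (hin j z hz)
      have h7 : (1 - mf (p j) (t j) z).re = 0 := by rw [h4]; simp
      rw [h7]
      linarith
  have hmem : k ∈ (Finset.univ.filter fun j => k ≤ j) :=
    Finset.mem_filter.2 ⟨Finset.mem_univ _, le_rfl⟩
  rw [← Finset.add_sum_erase _ _ hmem]
  have h5 : (1 - mf (p k) (t k) z).re ≤ 2 := by
    have h6 := Complex.abs_re_le_norm (mf (p k) (t k) z)
    have h7 := hφ1 k z hz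
    have h8 := neg_abs_le (mf (p k) (t k) z).re
    rw [Complex.sub_re, Complex.one_re]
    linarith
  have h6 := Finset.sum_le_sum h1
  rw [Finset.sum_add_distrib, ← Finset.mul_sum, ← Finset.mul_sum] at h6
  have h7 : ∑ j ∈ (Finset.univ.filter fun j => k ≤ j).erase k, (1 - ‖mf (p j) (t j) z‖ ^ 2) ≤ M :=
    (Finset.sum_le_sum_of_subset_of_nonneg (Finset.subset_univ _)
      fun j _ _ => hmn j z hz).trans (hM z hz)
  have h8 : ∑ j ∈ (Finset.univ.filter fun j => k ≤ j).erase k, (1 - ‖mf (p j) (t j) y‖ ^ 2) ≤ M :=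
    (Finset.sum_le_sum_of_subset_of_nonneg (Finset.subset_univ _)
      fun j _ _ => hmn j y hyB).trans (hM y hyB)
  linarith

/-- a holomorphic retraction type map of the ball with values near the hyperplane -/
structure Ret {X : Type} [NormedAddCommGroup X] [InnerProductSpace ℂ X] (p : X) (t : ℝ)
    (ρ : X → X) : Prop where
  diff : DifferentiableOn ℂ ρ (ball 0 1)
  maps : MapsTo ρ (ball 0 1) (ball 0 1)
  near : ∀ z ∈ ball (0 : X) 1, ‖mf p t (ρ z)‖ < 1 / 7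

/-- **Simultaneous solution, disjoint regions.** -/
theorem van_sep (M C : ℝ) (N : ℕ) (hC : 0 ≤ C) : ∃ C' : ℝ, 0 ≤ C' ∧
    ∀ (X : Type) [NormedAddCommGroup X] [InnerProductSpace ℂ X] [FiniteDimensional ℂ X]
    (ι : Type) [Fintype ι] [LinearOrder ι] (p : ι → X) (t : ι → ℝ), (∀ k, ‖p k‖ = 1) →
    (∀ k, 0 ≤ t k) → (∀ k, t k ≤ 1) → Monotone t →
    (∀ z ∈ ball (0 : X) 1, ∑ k, (1 - ‖mf (p k) (t k) z‖ ^ 2) ≤ M) →
    (∀ j k, j ≠ k → ∀ y ∈ ball (0 : X) 1, ‖mf (p j) (t j) y‖ < 1 / 7 →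
      ‖mf (p k) (t k) y‖ < 1 / 7 → False) →
    ∀ ρ : ι → X → X, (∀ k, Ret (p k) (t k) (ρ k)) →
    ∀ (J : Type) [Fintype J] (F : J → X → ℂ), Fintype.card J = N →
    (∀ j, DifferentiableOn ℂ (F j) (ball 0 1)) → (∀ j, ∀ z ∈ ball (0 : X) 1, ‖F j z‖ ≤ 1) →
    (∀ k, Van F {z | z ∈ ball (0 : X) 1 ∧ ρ k z = z} C) →
    Van F (⋃ k, {z | z ∈ ball (0 : X) 1 ∧ ρ k z = z}) C' := by
  obtain ⟨B, hB⟩ : ∃ B : ℝ, B = 4 * Real.exp (265 * M + 2) := ⟨_, rfl⟩
  have hB0 : 0 ≤ B := by rw [hB]; positivity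
  refine ⟨B * C * Real.exp (B * (N * C)), by positivity, ?_⟩
  intro X _ _ _ ι _ _ p t hp ht0 ht1 hmono hM hdis ρ hρ J _ F hN hFd hFb hF
  classical
  choose g hgd hgb hge using hF
  obtain ⟨φ, hφ⟩ : ∃ φ : ι → X → ℂ, φ = fun k => mf (p k) (t k) := ⟨_, rfl⟩
  have hφd : ∀ k, DifferentiableOn ℂ (φ k) (ball 0 1) := fun k => by
    rw [hφ]; exact mf_diff (hp k) (ht0 k) (ht1 k)
  have hφ1 : ∀ k, ∀ z ∈ ball (0 : X) 1, ‖φ k z‖ ≤ 1 := fun k z hz => by
    rw [hφ]; exact mf_le (hp k) (ht0 k) (ht1 k) hz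
  have hφρ : ∀ k, ∀ z ∈ ball (0 : X) 1, ‖φ k (ρ k z)‖ < 1 / 7 := fun k z hz => by
    rw [hφ]; exact (hρ k).near z hz
  obtain ⟨e, he⟩ : ∃ e : ι → X → ℂ, e = fun k z => Complex.exp (-∑ j with k ≤ j, (1 - φ j z)) :=
    ⟨_, rfl⟩
  have he' : ∀ k z, e k z = Complex.exp (-∑ j with k ≤ j, (1 - φ j z)) := fun k z => by rw [he]
  have hed : ∀ k, DifferentiableOn ℂ (e k) (ball 0 1) := fun k => by
    rw [he]
    exact (DifferentiableOn.fun_sum fun j _ => (differentiableOn_const _).sub (hφd j)).neg.cexp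
  have he0 : ∀ k z, e k z ≠ 0 := fun k z => by rw [he']; exact Complex.exp_ne_zero _
  obtain ⟨τ, hτ⟩ : ∃ τ : ι → X → ℝ, τ = fun k z => (1 - φ k z).re := ⟨_, rfl⟩
  have hτ' : ∀ k z, τ k z = (1 - φ k z).re := fun k z => by rw [hτ]
  have hen : ∀ k z, ‖e k z‖ = Real.exp (-∑ j with k ≤ j, τ j z) := by
    intro k z
    rw [he', Complex.norm_exp, Complex.neg_re, Complex.re_sum]
    simp only [hτ']
  have hlow : ∀ k, ∀ z ∈ ball (0 : X) 1, Real.exp (-(265 * M + 2)) ≤ ‖e k (ρ k z)‖ := by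
    intro k z hz
    rw [he']
    simp only [hφ]
    exact e_low p t hp ht0 ht1 hmono hM hdis k ((hρ k).maps hz) ((hρ k).near z hz)
  have hx2 : ∀ k, ∀ z ∈ ball (0 : X) 1, ‖1 - φ k z‖ ^ 2 ≤ 2 * τ k z := by
    intro k z hz
    have h1 := hφ1 k z hz
    have h2 : ‖φ k z‖ ^ 2 ≤ 1 := by nlinarith [norm_nonneg (φ k z)]
    rw [hτ', ← Complex.normSq_eq_norm_sq, Complex.normSq_apply]
    rw [← Complex.normSq_eq_norm_sq, Complex.normSq_apply] at h2
    simp only [Complex.sub_re, Complex.sub_im, Complex.one_re, Complex.one_im]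
    nlinarith
  have hτ0 : ∀ k, ∀ z ∈ ball (0 : X) 1, 0 ≤ τ k z := fun k z hz => by
    have h1 := hx2 k z hz
    have h2 := sq_nonneg ‖1 - φ k z‖
    linarith
  have hden : ∀ k, ∀ z ∈ ball (0 : X) 1, 6 / 7 ≤ ‖1 - φ k (ρ k z)‖ := by
    intro k z hz
    have h1 := norm_sub_norm_le (1 : ℂ) (φ k (ρ k z))
    have h2 := hφρ k z hz
    rw [norm_one] at h1
    linarith
  have hden0 : ∀ k, ∀ z ∈ ball (0 : X) 1, 1 - φ k (ρ k z) ≠ 0 := by
    intro k z hz h
    have h1 := hden k z hz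
    rw [h, norm_zero] at h1
    linarith
  -- Beurling type functions
  obtain ⟨Θ, hΘ⟩ : ∃ Θ : ι → X → ℂ, Θ = fun k z =>
    (1 - φ k z) ^ 2 * e k z * (((1 - φ k (ρ k z)) ^ 2 * e k (ρ k z))⁻¹) := ⟨_, rfl⟩
  have hΘd : ∀ k, DifferentiableOn ℂ (Θ k) (ball 0 1) := fun k => by
    rw [hΘ]
    have h1 : DifferentiableOn ℂ (fun z => (1 - φ k z) ^ 2 * e k z) (ball (0 : X) 1) :=
      (((differentiableOn_const _).sub (hφd k)).fun_pow 2).mul (hed k)
    have h2 : DifferentiableOn ℂ (fun z => (1 - φ k (ρ k z)) ^ 2 * e k (ρ k z))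
        (ball (0 : X) 1) := h1.comp (hρ k).diff (hρ k).maps
    exact h1.mul (h2.fun_inv fun z hz => mul_ne_zero (pow_ne_zero 2 (hden0 k z hz)) (he0 k _))
  have hΘ1 : ∀ k z, z ∈ ball (0 : X) 1 → ρ k z = z → Θ k z = 1 := by
    intro k z hz hzr
    rw [hΘ]
    beta_reduce
    have h1 := hden0 k z hz
    rw [hzr] at h1 ⊢
    exact mul_inv_cancel₀ (mul_ne_zero (pow_ne_zero 2 h1) (he0 k z))
  have hΘb : ∀ k, ∀ z ∈ ball (0 : X) 1,
      ‖Θ k z‖ ≤ B * (τ k z * Real.exp (-∑ j with k ≤ j, τ j z)) := by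
    intro k z hz
    rw [hΘ, hB]
    beta_reduce
    rw [norm_mul, norm_mul, norm_pow, hen, norm_inv, norm_mul, norm_pow]
    have h1 := hx2 k z hz
    have h2 := hden k z hz
    have h3 := hlow k z hz
    have h4 : (‖1 - φ k (ρ k z)‖ ^ 2 * ‖e k (ρ k z)‖)⁻¹ ≤ 2 * Real.exp (265 * M + 2) := by
      have h5 : 1 / 2 * Real.exp (-(265 * M + 2)) ≤ ‖1 - φ k (ρ k z)‖ ^ 2 * ‖e k (ρ k z)‖ := by
        have h6 : (1 : ℝ) / 2 ≤ ‖1 - φ k (ρ k z)‖ ^ 2 := by nlinarith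
        exact mul_le_mul h6 h3 (Real.exp_pos _).le (by positivity)
      have h7 : (1 / 2 * Real.exp (-(265 * M + 2)))⁻¹ = 2 * Real.exp (265 * M + 2) := by
        rw [mul_inv, ← Real.exp_neg, neg_neg]
        norm_num
      rw [← h7]
      exact inv_anti₀ (by positivity) h5
    have h8 := hτ0 k z hz
    calc ‖1 - φ k z‖ ^ 2 * Real.exp (-∑ j with k ≤ j, τ j z) *
          (‖1 - φ k (ρ k z)‖ ^ 2 * ‖e k (ρ k z)‖)⁻¹
        ≤ (2 * τ k z) * Real.exp (-∑ j with k ≤ j, τ j z) * (2 * Real.exp (265 * M + 2)) := by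
          gcongr
      _ = _ := by ring
  have hjs : ∀ z ∈ ball (0 : X) 1,
      ∑ k, τ k z * Real.exp (-∑ j with k ≤ j, τ j z) ≤ 1 := fun z _ =>
    jones_sum (fun k => τ k z)
  have hΘs : ∀ z ∈ ball (0 : X) 1, ∑ k, ‖Θ k z‖ ≤ B := by
    intro z hz
    calc ∑ k, ‖Θ k z‖ ≤ ∑ k, B * (τ k z * Real.exp (-∑ j with k ≤ j, τ j z)) :=
          Finset.sum_le_sum fun k _ => hΘb k z hz
      _ = B * ∑ k, τ k z * Real.exp (-∑ j with k ≤ j, τ j z) := by rw [Finset.mul_sum]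
      _ ≤ B * 1 := mul_le_mul_of_nonneg_left (hjs z hz) hB0
      _ = B := mul_one _
  obtain ⟨T, hT⟩ : ∃ T : ι → X → ℂ, T = fun k z => Θ k z * ∑ j, F j z * g k j z := ⟨_, rfl⟩
  have hTd : ∀ k, DifferentiableOn ℂ (T k) (ball 0 1) := fun k => by
    rw [hT]
    exact (hΘd k).mul (DifferentiableOn.fun_sum fun i _ => (hFd i).mul (hgd k i))
  have hTb : ∀ k, ∀ z ∈ ball (0 : X) 1, ‖T k z‖ ≤ ‖Θ k z‖ * (N * C) := by
    intro k z hz
    rw [hT]
    beta_reduce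
    rw [norm_mul]
    refine mul_le_mul_of_nonneg_left ?_ (norm_nonneg _)
    refine (norm_sum_le _ _).trans ?_
    have e2 : ∀ i ∈ (Finset.univ : Finset J), ‖F i z * g k i z‖ ≤ C := by
      intro i _
      rw [norm_mul]
      have := mul_le_mul (hFb i z hz) (hgb k i z hz) (norm_nonneg _) zero_le_one
      rwa [one_mul] at this
    refine (Finset.sum_le_sum e2).trans (le_of_eq ?_)
    rw [Finset.sum_const, Finset.card_univ, nsmul_eq_mul, hN]
  have hTsum : ∀ z ∈ ball (0 : X) 1, ∑ k, ‖T k z‖ ≤ B * (N * C) := by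
    intro z hz
    calc ∑ k, ‖T k z‖ ≤ ∑ k, ‖Θ k z‖ * (N * C) := Finset.sum_le_sum fun k _ => hTb k z hz
      _ = (∑ k, ‖Θ k z‖) * (N * C) := by rw [Finset.sum_mul]
      _ ≤ B * (N * C) := mul_le_mul_of_nonneg_right (hΘs z hz) (by positivity)
  have hTprod : ∀ (S : Finset ι), ∀ z ∈ ball (0 : X) 1,
      ‖∏ j ∈ S, (1 - T j z)‖ ≤ Real.exp (B * (N * C)) := by
    intro S z hz
    refine (prod_one_sub_le S fun j => T j z).trans (Real.exp_le_exp.2 ?_)
    exact (Finset.sum_le_sum_of_subset_of_nonneg (Finset.subset_univ _)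
      fun j _ _ => norm_nonneg _).trans (hTsum z hz)
  refine ⟨fun j z => ∑ k, Θ k z * g k j z * ∏ i with i < k, (1 - T i z), fun j => ?_,
    fun j z hz => ?_, fun z hz => ?_⟩
  · exact DifferentiableOn.fun_sum fun k _ => ((hΘd k).mul (hgd k j)).mul
      (prodDiff _ (fun i z => 1 - T i z) fun i => (differentiableOn_const _).sub (hTd i))
  · refine (norm_sum_le _ _).trans ?_
    calc ∑ k, ‖Θ k z * g k j z * ∏ i with i < k, (1 - T i z)‖
        ≤ ∑ k, ‖Θ k z‖ * (C * Real.exp (B * (N * C))) := by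
          refine Finset.sum_le_sum fun k _ => ?_
          rw [norm_mul, norm_mul, mul_assoc]
          refine mul_le_mul_of_nonneg_left ?_ (norm_nonneg _)
          exact mul_le_mul (hgb k j z hz) (hTprod _ z hz) (norm_nonneg _) hC
      _ = (∑ k, ‖Θ k z‖) * (C * Real.exp (B * (N * C))) := by rw [Finset.sum_mul]
      _ ≤ B * (C * Real.exp (B * (N * C))) :=
          mul_le_mul_of_nonneg_right (hΘs z hz) (by positivity)
      _ = _ := by ring
  · obtain ⟨k0, hz0⟩ := mem_iUnion.1 hz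
    obtain ⟨hzb, hzr⟩ := hz0
    have h1 : ∑ j, F j z * ∑ k, Θ k z * g k j z * ∏ i with i < k, (1 - T i z) =
        ∑ k, T k z * ∏ i with i < k, (1 - T i z) := by
      simp only [Finset.mul_sum]
      rw [Finset.sum_comm]
      refine Finset.sum_congr rfl fun k _ => ?_
      rw [hT]
      beta_reduce
      rw [Finset.mul_sum, Finset.sum_mul]
      refine Finset.sum_congr rfl fun j _ => ?_
      ring
    have h3 := Finset.prod_one_sub_ordered (Finset.univ : Finset ι) fun k => T k z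
    have h4 : ∏ k, (1 - T k z) = 0 := by
      refine Finset.prod_eq_zero (Finset.mem_univ k0) ?_
      rw [hT]
      beta_reduce
      rw [hΘ1 k0 z hzb hzr, hge k0 z ⟨hzb, hzr⟩]
      ring
    rw [h1]
    rw [h4] at h3
    exact (sub_eq_zero.1 h3.symm).symm

end Pool.Agent.V7H86.HP
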