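import Mathlib
import Pool.Agent.V7H86.HP.Slice

/-!
Simultaneous solution of the Bezout equation on infinitely many retracts: colouring and limit.
-/

set_option autoImplicit false
set_option linter.unusedSectionVars false

open Metric Set Filter Topology Complex

namespace Pool.Agent.V7H86.HP

/-- Simultaneous solution, finite ordered families. -/
theorem van_mono (M C : ℝ) (N : ℕ) (hC : 0 ≤ C) : ∃ C' : ℝ, 0 ≤ C' ∧
    ∀ (X : Type) [NormedAddCommGroup X] [InnerProductSpace ℂ X] [FiniteDimensional ℂ X]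
    (n : ℕ) (p : Fin n → X) (t : Fin n → ℝ), (∀ k, ‖p k‖ = 1) →
    (∀ k, 0 ≤ t k) → (∀ k, t k ≤ 1) → Monotone t →
    (∀ z ∈ ball (0 : X) 1, ∑ k, (1 - ‖mf (p k) (t k) z‖ ^ 2) ≤ M) →
    ∀ ρ : Fin n → X → X, (∀ k, Ret (p k) (t k) (ρ k)) →
    ∀ (J : Type) [Fintype J] (F : J → X → ℂ), Fintype.card J = N →
    (∀ j, DifferentiableOn ℂ (F j) (ball 0 1)) → (∀ j, ∀ z ∈ ball (0 : X) 1, ‖F j z‖ ≤ 1) →
    (∀ k, Van F {z | z ∈ ball (0 : X) 1 ∧ ρ k z = z} C) →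
    Van F (⋃ k, {z | z ∈ ball (0 : X) 1 ∧ ρ k z = z}) C' := by
  obtain ⟨C₀, hC₀, hglue⟩ := van_sep M C N hC
  obtain ⟨K, hK⟩ : ∃ K : ℕ, K = ⌊25 * M⌋₊ := ⟨_, rfl⟩
  refine ⟨un N C₀ (K + 1), un_nonneg (Nat.cast_nonneg _) hC₀ _, ?_⟩
  intro X _ _ _ n p t hp ht0 ht1 hmono hM ρ hρ J _ F hN hFd hFb hF
  classical
  have hin : ∀ k, ∀ z ∈ ball (0 : X) 1, ‖(inner ℂ (p k) z : ℂ)‖ < 1 := fun k z hz =>
    inner_lt (hp k) (mem_ball_zero_iff.1 hz)
  have hmn : ∀ k, ∀ z ∈ ball (0 : X) 1, 0 ≤ 1 - ‖mf (p k) (t k) z‖ ^ 2 := fun k z hz => by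
    have h1 := mf_le (hp k) (ht0 k) (ht1 k) hz
    have h2 := norm_nonneg (mf (p k) (t k) z)
    nlinarith
  have hlt : ∀ k, ∀ z ∈ ball (0 : X) 1, ‖mf (p k) (t k) z‖ < 1 / 7 → t k < 1 := by
    intro k z hz hk
    rcases (ht1 k).lt_or_eq with h | h
    · exact h
    · rw [mf, h, mo_one (hin k z hz), norm_one] at hk
      norm_num at hk
  -- the conflict relation
  let r : Fin n → Fin n → Prop := fun j k =>
    ∃ y ∈ ball (0 : X) 1, ‖mf (p j) (t j) y‖ < 1 / 7 ∧ ‖mf (p k) (t k) y‖ < 1 / 7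
  have hcount : ∀ k : Fin n, ∀ S : Finset (Fin n), (∀ j ∈ S, j < k ∧ r j k) → S.card ≤ K := by
    intro k S hS
    rcases S.eq_empty_or_nonempty with h0 | ⟨j0, hj0⟩
    · rw [h0, Finset.card_empty]
      exact Nat.zero_le _
    obtain ⟨-, y0, hy0, -, hy02⟩ := hS j0 hj0
    have hk1 := hlt k y0 hy0 hy02
    have hx : ((t k : ℂ) • p k) ∈ ball (0 : X) 1 := by
      rw [mem_ball_zero_iff, norm_smul, hp, mul_one, Complex.norm_real, Real.norm_of_nonneg (ht0 k)]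
      exact hk1
    have h1 : ∀ j ∈ S, (1 / 25 : ℝ) ≤ 1 - ‖mf (p j) (t j) ((t k : ℂ) • p k)‖ ^ 2 := by
      intro j hj
      obtain ⟨hjk, y, hy, hy1, hy2⟩ := hS j hj
      exact geo1 (hp j) (hp k) (ht0 j) hk1 (ht0 k) (hmono hjk.le) (mem_ball_zero_iff.1 hy)
        hy1 hy2
    have h2 : (S.card : ℝ) * (1 / 25) ≤ M := by
      calc (S.card : ℝ) * (1 / 25) = ∑ _j ∈ S, (1 / 25 : ℝ) := by
            rw [Finset.sum_const, nsmul_eq_mul]
        _ ≤ ∑ j ∈ S, (1 - ‖mf (p j) (t j) ((t k : ℂ) • p k)‖ ^ 2) := Finset.sum_le_sum h1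
        _ ≤ ∑ j, (1 - ‖mf (p j) (t j) ((t k : ℂ) • p k)‖ ^ 2) :=
            Finset.sum_le_sum_of_subset_of_nonneg (Finset.subset_univ _) fun j _ _ => hmn j _ hx
        _ ≤ M := hM _ hx
    rw [hK]
    exact Nat.le_floor (by linarith)
  obtain ⟨c, hc⟩ := colour K n r hcount
  have hsol : ∀ i : Fin (K + 1), Van F
      (⋃ k : {k // c k = i}, {z | z ∈ ball (0 : X) 1 ∧ ρ k z = z}) C₀ := by
    intro i
    refine hglue X {k // c k = i} (fun k => p k) (fun k => t k) (fun k => hp k) (fun k => ht0 k)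
      (fun k => ht1 k) (fun j k hjk => hmono hjk) (fun z hz => ?_) (fun j k hjk y hy h1 h2 => ?_)
      (fun k => ρ k) (fun k => hρ k) J F hN hFd hFb (fun k => hF k)
    · have h1 : ∑ k : {k // c k = i}, (1 - ‖mf (p k) (t k) z‖ ^ 2) =
          ∑ k ∈ Finset.univ.filter (fun k => c k = i), (1 - ‖mf (p k) (t k) z‖ ^ 2) :=
        (Finset.sum_subtype _ (by simp) fun k => (1 - ‖mf (p k) (t k) z‖ ^ 2)).symm
      rw [h1]
      exact (Finset.sum_le_sum_of_subset_of_nonneg (Finset.subset_univ _)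
        fun j _ _ => hmn j z hz).trans (hM z hz)
    · have hne : (j : Fin n) ≠ k := fun h => hjk (Subtype.ext h)
      rcases lt_or_gt_of_ne hne with h | h
      · exact hc j k h ⟨y, hy, h1, h2⟩ (j.2.trans k.2.symm)
      · exact hc k j h ⟨y, hy, h2, h1⟩ (k.2.trans j.2.symm)
  have h1 := Van.iUnion hFd hFb (fun (i : Fin (K + 1)) =>
    ⋃ k : {k // c k = i}, {z | z ∈ ball (0 : X) 1 ∧ ρ k z = z}) hC₀ hsol Finset.univ
  rw [Finset.card_univ, Fintype.card_fin, hN] at h1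
  refine h1.mono (fun z hz => ?_) le_rfl
  obtain ⟨k, hk⟩ := mem_iUnion.1 hz
  exact mem_biUnion (Finset.mem_univ (c k)) (mem_iUnion.2 ⟨⟨k, rfl⟩, hk⟩)

/-- Simultaneous solution, finite families. -/
theorem van_fin (M C : ℝ) (N : ℕ) (hC : 0 ≤ C) : ∃ C' : ℝ, 0 ≤ C' ∧
    ∀ (X : Type) [NormedAddCommGroup X] [InnerProductSpace ℂ X] [FiniteDimensional ℂ X]
    (ι : Type) [Fintype ι] (p : ι → X) (t : ι → ℝ), (∀ k, ‖p k‖ = 1) →
    (∀ k, 0 ≤ t k) → (∀ k, t k ≤ 1) →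
    (∀ z ∈ ball (0 : X) 1, ∑ k, (1 - ‖mf (p k) (t k) z‖ ^ 2) ≤ M) →
    ∀ ρ : ι → X → X, (∀ k, Ret (p k) (t k) (ρ k)) →
    ∀ (J : Type) [Fintype J] (F : J → X → ℂ), Fintype.card J = N →
    (∀ j, DifferentiableOn ℂ (F j) (ball 0 1)) → (∀ j, ∀ z ∈ ball (0 : X) 1, ‖F j z‖ ≤ 1) →
    (∀ k, Van F {z | z ∈ ball (0 : X) 1 ∧ ρ k z = z} C) →
    Van F (⋃ k, {z | z ∈ ball (0 : X) 1 ∧ ρ k z = z}) C' := by
  obtain ⟨C', hC', h⟩ := van_mono M C N hC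
  refine ⟨C', hC', ?_⟩
  intro X _ _ _ ι _ p t hp ht0 ht1 hM ρ hρ J _ F hN hFd hFb hF
  classical
  let e := Fintype.equivFin ι
  obtain ⟨σ, hσ⟩ : ∃ σ : Fin (Fintype.card ι) ≃ ι, σ = (Tuple.sort (t ∘ e.symm)).trans e.symm :=
    ⟨_, rfl⟩
  have hmono : Monotone (t ∘ σ) := by
    have h1 := Tuple.monotone_sort (t ∘ e.symm)
    rw [hσ]
    exact h1
  have h1 := h X (Fintype.card ι) (p ∘ σ) (t ∘ σ) (fun k => hp _) (fun k => ht0 _)
    (fun k => ht1 _) hmono (fun z hz => by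
      have h2 := Equiv.sum_comp σ fun k => (1 - ‖mf (p k) (t k) z‖ ^ 2)
      simp only [Function.comp_apply]
      rw [h2]
      exact hM z hz) (ρ ∘ σ) (fun k => hρ _) J F hN hFd hFb (fun k => hF _)
  refine h1.mono (fun z hz => ?_) le_rfl
  obtain ⟨k, hk⟩ := mem_iUnion.1 hz
  refine mem_iUnion.2 ⟨σ.symm k, ?_⟩
  simp only [Function.comp_apply, Equiv.apply_symm_apply]
  exact hk

/-- **Simultaneous solution on infinitely many retracts.** -/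
theorem van_inf (M C : ℝ) (N : ℕ) (hC : 0 ≤ C) : ∃ C' : ℝ, 0 ≤ C' ∧
    ∀ (X : Type) [NormedAddCommGroup X] [InnerProductSpace ℂ X] [FiniteDimensional ℂ X]
    (p : ℕ → X) (t : ℕ → ℝ), Fam M p t →
    ∀ ρ : ℕ → X → X, (∀ k, t k < 1 → Ret (p k) (t k) (ρ k)) →
    ∀ (J : Type) [Fintype J] (F : J → X → ℂ), Fintype.card J = N →
    (∀ j, DifferentiableOn ℂ (F j) (ball 0 1)) → (∀ j, ∀ z ∈ ball (0 : X) 1, ‖F j z‖ ≤ 1) →
    (∀ k, t k < 1 → Van F {z | z ∈ ball (0 : X) 1 ∧ ρ k z = z} C) →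
    Van F {z | z ∈ ball (0 : X) 1 ∧ ∃ k, t k < 1 ∧ ρ k z = z} C' := by
  obtain ⟨C', hC', h⟩ := van_fin M C N hC
  refine ⟨C', hC', ?_⟩
  intro X _ _ _ p t hf ρ hρ J _ F hN hFd hFb hF
  classical
  have hmn : ∀ k, ∀ z ∈ ball (0 : X) 1, 0 ≤ 1 - ‖mf (p k) (t k) z‖ ^ 2 := fun k z hz => by
    have h1 := mf_le (hf.unit k) (hf.nonneg k) (hf.le k) hz
    have h2 := norm_nonneg (mf (p k) (t k) z)
    nlinarith
  have hn : ∀ n : ℕ, Van F
      (⋃ k : {k : Fin n // t k < 1}, {z | z ∈ ball (0 : X) 1 ∧ ρ k z = z}) C' := by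
    intro n
    refine h X {k : Fin n // t k < 1} (fun k => p k) (fun k => t k) (fun k => hf.unit _)
      (fun k => hf.nonneg _) (fun k => hf.le _) (fun z hz => ?_) (fun k => ρ k)
      (fun k => hρ _ k.2) J F hN hFd hFb (fun k => hF _ k.2)
    have h1 := hf.carleson z hz n
    rw [← Fin.sum_univ_eq_sum_range (fun k => (1 - ‖mf (p k) (t k) z‖ ^ 2)) n] at h1
    refine le_trans ?_ h1
    have h2 : ∑ k : {k : Fin n // t k < 1}, (1 - ‖mf (p k) (t k) z‖ ^ 2) =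
        ∑ k ∈ Finset.univ.filter (fun k : Fin n => t k < 1), (1 - ‖mf (p k) (t k) z‖ ^ 2) :=
      (Finset.sum_subtype (p := fun k : Fin n => t k < 1) _ (by simp)
        fun k : Fin n => (1 - ‖mf (p k) (t k) z‖ ^ 2)).symm
    rw [h2]
    exact Finset.sum_le_sum_of_subset_of_nonneg (Finset.subset_univ _) fun j _ _ => hmn j z hz
  choose G h1 h2 h3 using hn
  let e := Fintype.equivFin J
  obtain ⟨s, Φ, hs, m1, m2, m3⟩ := montel (X := X) isOpen_ball (M := C')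
    (fun n i => G n (e.symm i)) (fun n i => h1 n _) (fun n i => h2 n _)
  refine ⟨fun j => Φ (e j), fun j => m1 _, fun j => m2 _, fun z hz => ?_⟩
  obtain ⟨hzb, k, htk, hzk⟩ := hz
  have l1 : ∀ j, Tendsto (fun n => G (s n) j z) atTop (𝓝 (Φ (e j) z)) := by
    intro j
    have := m3 (e j) z hzb
    simpa using this
  have l3 : Tendsto (fun n => ∑ j, F j z * G (s n) j z) atTop (𝓝 (∑ j, F j z * Φ (e j) z)) :=
    tendsto_finsetSum _ fun j _ => (l1 j).const_mul (F j z)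
  have l4 : Tendsto (fun n => ∑ j, F j z * G (s n) j z) atTop (𝓝 1) := by
    refine tendsto_const_nhds.congr' ?_
    filter_upwards [eventually_gt_atTop k] with n hn
    have h4 : k < s n := lt_of_lt_of_le hn (hs.id_le n)
    exact (h3 (s n) z (mem_iUnion.2 ⟨⟨⟨k, h4⟩, htk⟩, hzb, hzk⟩)).symm
  exact tendsto_nhds_unique l3 l4

end Pool.Agent.V7H86.HP
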