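import Mathlib
import Pool.Agent.V7H86.HP.Slice2

/-!
Complex lines in the ball.
-/

set_option autoImplicit false
set_option linter.unusedSectionVars false

open Metric Set Filter Topology Complex
open Pool.Agent.Y263.GF (AF frac_AF loc_aff)
open Pool.Agent.Y263.LF (Bez Bez.mono)

namespace Pool.Agent.V7H86.HP

/-- the corona theorem in the disc -/
theorem disc_corona (N : ℕ) {δ : ℝ} (hδ : 0 < δ) : ∃ C : ℝ, 0 ≤ C ∧ ∀ f : Fin N → ℂ → ℂ,
    (∀ i, DifferentiableOn ℂ (f i) (ball 0 1)) → (∀ i, ∀ w ∈ ball (0 : ℂ) 1, ‖f i w‖ ≤ 1) →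
    (∀ w ∈ ball (0 : ℂ) 1, δ ≤ ∑ i, ‖f i w‖) →
    ∃ g : Fin N → ℂ → ℂ, (∀ i, DifferentiableOn ℂ (g i) (ball 0 1)) ∧
      (∀ i, ∀ w ∈ ball (0 : ℂ) 1, ‖g i w‖ ≤ C) ∧ ∀ w ∈ ball (0 : ℂ) 1, ∑ i, f i w * g i w = 1 := by
  have hN : (0 : ℝ) < N + 1 := by positivity
  obtain ⟨C, hC0, H⟩ := loc_aff N 1 0 (ε := δ / (N + 1)) (Q := 0) (by positivity) le_rfl
  refine ⟨C, hC0, fun f hf hfb hlow => ?_⟩
  have hid : AF (ball (0 : ℂ) 1) (fun w : ℂ => w) := by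
    have h := frac_AF (X := ℂ) (ContinuousLinearMap.id ℂ ℂ) 0 0 1 (by
      intro z _
      simp)
    have he : (fun w : ℂ => w) =
        fun z => ((ContinuousLinearMap.id ℂ ℂ) z + 0) / ((0 : ℂ →L[ℂ] ℂ) z + 1) := by
      funext z
      simp
    rw [he]
    exact h
  have hempty : ∀ z : ℂ, ¬ (‖z‖ < 1 ∧ ∀ (_ : Fin 1) (i : Fin N), ‖f i z‖ < δ / (N + 1)) := by
    rintro z ⟨hz, h⟩
    have h1 := hlow z (mem_ball_zero_iff.2 hz)
    have h2 : ∑ i, ‖f i z‖ ≤ N * (δ / (N + 1)) := by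
      refine (Finset.sum_le_sum fun i _ => (h 0 i).le).trans (le_of_eq ?_)
      rw [Finset.sum_const, Finset.card_univ, Fintype.card_fin, nsmul_eq_mul]
    have h3 : (N : ℝ) * (δ / (N + 1)) < δ := by
      have h4 : (N : ℝ) * (δ / (N + 1)) = δ * (N / (N + 1)) := by ring
      rw [h4]
      have h5 : (N : ℝ) / (N + 1) < 1 := by
        rw [div_lt_one hN]
        linarith
      nlinarith
    linarith
  obtain ⟨g, h1, h2, h3⟩ := H ℂ (fun _ w => w) (fun _ i => f i) (fun _ => hid)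
    (fun _ z hz => mem_ball_zero_iff.1 hz) (fun _ i => hf i) (fun _ i => hfb i)
    (fun j => j.elim0) (fun j => j.elim0) (fun j => j.elim0)
    ⟨fun j => j.elim0, fun j => j.elim0, fun j => j.elim0, fun z hz => absurd hz (hempty z)⟩
  refine ⟨fun i => g (Sum.inl (0, i)), fun i => h1 _, fun i => h2 _, fun w hw => ?_⟩
  have h4 := h3 w hw
  rw [Fintype.sum_sum_type, Fintype.sum_prod_type] at h4
  simp only [Finset.univ_unique, Finset.sum_singleton, Sum.elim_inl, Fin.default_eq_zero,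
    Finset.univ_eq_empty, Finset.sum_empty, add_zero] at h4
  exact h4

section

variable {X : Type} [NormedAddCommGroup X] [InnerProductSpace ℂ X]

/-- the parametrisation of a line -/
noncomputable def lpar (p q : X) (t : ℝ) (ζ : ℂ) : X :=
  (t : ℂ) • p + (((Real.sqrt (1 - t ^ 2) : ℝ) : ℂ) * ζ) • q

/-- its left inverse on the ball -/
noncomputable def lback (p q : X) (t : ℝ) (z : X) : ℂ :=
  ((Real.sqrt (1 - t ^ 2) : ℝ) : ℂ) * inner ℂ q z / (1 - t * inner ℂ p z)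

theorem norm_comb_sq {p q : X} (hp : ‖p‖ = 1) (hq : ‖q‖ = 1) (hpq : (inner ℂ p q : ℂ) = 0)
    (a b : ℂ) : ‖a • p + b • q‖ ^ 2 = ‖a‖ ^ 2 + ‖b‖ ^ 2 := by
  have h1 : (inner ℂ (a • p) (b • q) : ℂ) = 0 := by
    rw [inner_smul_left, inner_smul_right, hpq]
    simp
  have h2 := norm_add_sq (𝕜 := ℂ) (a • p) (b • q)
  rw [h1, norm_smul, norm_smul, hp, hq] at h2
  simpa using h2

theorem lpar_mem {p q : X} (hp : ‖p‖ = 1) (hq : ‖q‖ = 1) (hpq : (inner ℂ p q : ℂ) = 0)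
    {t : ℝ} (h0 : 0 ≤ t) (h1 : t < 1) {ζ : ℂ} (hζ : ‖ζ‖ < 1) : lpar p q t ζ ∈ ball (0 : X) 1 := by
  have hD := D_pos h0 h1
  have hs := Real.sq_sqrt hD.le
  have e1 : ‖lpar p q t ζ‖ ^ 2 < 1 := by
    rw [lpar, norm_comb_sq hp hq hpq, norm_mul, mul_pow, Complex.norm_real, Complex.norm_real,
      Real.norm_of_nonneg h0, Real.norm_of_nonneg (Real.sqrt_nonneg _), hs]
    have h2 : ‖ζ‖ ^ 2 < 1 := by nlinarith [norm_nonneg ζ]
    nlinarith
  rw [mem_ball_zero_iff]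
  by_contra h
  push Not at h
  nlinarith

theorem bessel {p q z : X} (hp : ‖p‖ = 1) (hq : ‖q‖ = 1) (hpq : (inner ℂ p q : ℂ) = 0) :
    ‖(inner ℂ p z : ℂ)‖ ^ 2 + ‖(inner ℂ q z : ℂ)‖ ^ 2 ≤ ‖z‖ ^ 2 := by
  have h1 := norm_comb_sq hp hq hpq (inner ℂ p z) (inner ℂ q z)
  have hqp : (inner ℂ q p : ℂ) = 0 := by rw [← inner_conj_symm, hpq, map_zero]
  obtain ⟨u, hu⟩ : ∃ u : X, u = (inner ℂ p z : ℂ) • p + (inner ℂ q z : ℂ) • q := ⟨_, rfl⟩
  have h2 : (inner ℂ u (z - u) : ℂ) = 0 := by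
    have e1 : (inner ℂ p (z - u) : ℂ) = 0 := by
      rw [inner_sub_right, hu, inner_add_right, inner_smul_right, inner_smul_right,
        inner_self_eq_norm_sq_to_K, hp, hpq]
      simp
    have e2 : (inner ℂ q (z - u) : ℂ) = 0 := by
      rw [inner_sub_right, hu, inner_add_right, inner_smul_right, inner_smul_right,
        inner_self_eq_norm_sq_to_K, hq, hqp]
      simp
    have e3 : (inner ℂ u (z - u) : ℂ) = inner ℂ ((inner ℂ p z : ℂ) • p) (z - u) +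
        inner ℂ ((inner ℂ q z : ℂ) • q) (z - u) := by
      conv_lhs => rw [hu, inner_add_left]
      rw [hu]
    rw [e3, inner_smul_left, inner_smul_left, e1, e2]
    simp
  have h3 := norm_add_sq (𝕜 := ℂ) u (z - u)
  rw [add_sub_cancel, h2] at h3
  rw [← hu] at h1
  have h4 := sq_nonneg ‖z - u‖
  simp only [map_zero, mul_zero, add_zero] at h3
  nlinarith

theorem lback_lt {p q z : X} (hp : ‖p‖ = 1) (hq : ‖q‖ = 1) (hpq : (inner ℂ p q : ℂ) = 0)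
    {t : ℝ} (h0 : 0 ≤ t) (h1 : t < 1) (hz : z ∈ ball (0 : X) 1) : ‖lback p q t z‖ < 1 := by
  have hz1 := mem_ball_zero_iff.1 hz
  have ha1 : ‖(inner ℂ p z : ℂ)‖ < 1 := inner_lt hp hz1
  have hr := den_pos h0 h1 ha1
  have hD := D_pos h0 h1
  have hs := Real.sq_sqrt hD.le
  have hb := bessel (z := z) hp hq hpq
  obtain ⟨a, ha⟩ : ∃ a : ℂ, a = inner ℂ p z := ⟨_, rfl⟩
  obtain ⟨b, hb'⟩ : ∃ b : ℂ, b = inner ℂ q z := ⟨_, rfl⟩
  rw [lback, norm_div, norm_mul, Complex.norm_real, Real.norm_of_nonneg (Real.sqrt_nonneg _)]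
  rw [← ha] at hr hb ha1 ⊢
  rw [← hb'] at hb ⊢
  rw [div_lt_one hr]
  have h2 : (Real.sqrt (1 - t ^ 2) * ‖b‖) ^ 2 < ‖(1 : ℂ) - t * a‖ ^ 2 := by
    rw [mul_pow, hs, sq_norm ((1 : ℂ) - t * a)]
    have e1 : ((1 : ℂ) - t * a).re = 1 - t * a.re := by simp
    have e2 : ((1 : ℂ) - t * a).im = -(t * a.im) := by simp
    rw [e1, e2]
    rw [sq_norm a] at hb
    have h3 : ‖z‖ ^ 2 < 1 := by nlinarith [norm_nonneg z]
    have h4 : ‖b‖ ^ 2 < 1 - (a.re ^ 2 + a.im ^ 2) := by linarith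
    have h5 : (1 - t ^ 2) * ‖b‖ ^ 2 < (1 - t ^ 2) * (1 - (a.re ^ 2 + a.im ^ 2)) :=
      mul_lt_mul_of_pos_left h4 hD
    nlinarith [sq_nonneg (a.re - t), sq_nonneg a.im]
  exact lt_of_pow_lt_pow_left₀ 2 hr.le h2

theorem lback_lpar {p q : X} (hp : ‖p‖ = 1) (hq : ‖q‖ = 1) (hpq : (inner ℂ p q : ℂ) = 0)
    {t : ℝ} (h0 : 0 ≤ t) (h1 : t < 1) (ζ : ℂ) : lback p q t (lpar p q t ζ) = ζ := by
  have hD := D_pos h0 h1
  have hs : ((Real.sqrt (1 - t ^ 2) : ℝ) : ℂ) * ((Real.sqrt (1 - t ^ 2) : ℝ) : ℂ) =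
      1 - (t : ℂ) * t := by
    rw [← Complex.ofReal_mul, Real.mul_self_sqrt hD.le]
    push_cast
    ring
  have hqp : (inner ℂ q p : ℂ) = 0 := by rw [← inner_conj_symm, hpq, map_zero]
  have e1 : (inner ℂ p (lpar p q t ζ) : ℂ) = t := by
    rw [lpar, inner_add_right, inner_smul_right, inner_smul_right, inner_self_eq_norm_sq_to_K,
      hp, hpq]
    simp
  have e2 : (inner ℂ q (lpar p q t ζ) : ℂ) = ((Real.sqrt (1 - t ^ 2) : ℝ) : ℂ) * ζ := by
    rw [lpar, inner_add_right, inner_smul_right, inner_smul_right, inner_self_eq_norm_sq_to_K,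
      hq, hqp]
    simp
  have hne : (1 : ℂ) - t * t ≠ 0 := by
    have : ((1 - t ^ 2 : ℝ) : ℂ) ≠ 0 := by exact_mod_cast hD.ne'
    intro h
    apply this
    push_cast
    rw [← h]
    ring
  rw [lback, e1, e2, div_eq_iff hne, ← mul_assoc, hs]
  ring

theorem lback_diff {p q : X} (hp : ‖p‖ = 1) {t : ℝ} (h0 : 0 ≤ t) (h1 : t < 1) :
    DifferentiableOn ℂ (lback p q t) (ball (0 : X) 1) := by
  unfold lback
  simp only [div_eq_mul_inv]
  refine ((differentiableOn_const _).mul (inner_diff q _)).mul ?_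
  refine DifferentiableOn.fun_inv ((differentiableOn_const _).sub
    ((differentiableOn_const _).mul (inner_diff p _))) fun z hz => ?_
  exact den_ne h0 h1 (inner_lt hp (mem_ball_zero_iff.1 hz))

theorem lpar_diff (p q : X) (t : ℝ) : Differentiable ℂ (lpar p q t) := by
  unfold lpar
  fun_prop

/-- the retraction onto a line -/
theorem line_ret {p q : X} (hp : ‖p‖ = 1) (hq : ‖q‖ = 1) (hpq : (inner ℂ p q : ℂ) = 0)
    {t : ℝ} (h0 : 0 ≤ t) (h1 : t < 1) : Ret p t (fun z => lpar p q t (lback p q t z)) := by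
  refine ⟨?_, fun z hz => lpar_mem hp hq hpq h0 h1 (lback_lt hp hq hpq h0 h1 hz), fun z _ => ?_⟩
  · exact (lpar_diff p q t).comp_differentiableOn (lback_diff hp h0 h1)
  · have e1 : (inner ℂ p (lpar p q t (lback p q t z)) : ℂ) = t := by
      rw [lpar, inner_add_right, inner_smul_right, inner_smul_right, inner_self_eq_norm_sq_to_K,
        hp, hpq]
      simp
    rw [mf, e1, mo, sub_self, zero_div, norm_zero]
    norm_num

theorem line_fix {p q z : X} (hp : ‖p‖ = 1) (hq : ‖q‖ = 1) (hpq : (inner ℂ p q : ℂ) = 0)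
    {t : ℝ} (h0 : 0 ≤ t) (h1 : t < 1) {w : ℂ} (hw : z = (t : ℂ) • p + w • q) :
    lpar p q t (lback p q t z) = z := by
  have hD := D_pos h0 h1
  have hs0 : ((Real.sqrt (1 - t ^ 2) : ℝ) : ℂ) ≠ 0 := by
    exact_mod_cast (Real.sqrt_pos.2 hD).ne'
  have h2 : z = lpar p q t (w / ((Real.sqrt (1 - t ^ 2) : ℝ) : ℂ)) := by
    rw [hw, lpar, mul_div_cancel₀ _ hs0]
  rw [h2, lback_lpar hp hq hpq h0 h1]

end

/-- **The corona theorem on infinitely many complex lines.** -/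
theorem lines_main (A : ℝ) (N : ℕ) {δ : ℝ} (hδ : 0 < δ) : ∃ C : ℝ, 0 ≤ C ∧
    ∀ (X : Type) [NormedAddCommGroup X] [InnerProductSpace ℂ X] [FiniteDimensional ℂ X]
    (p q : ℕ → X) (t : ℕ → ℝ), Fam A p t → (∀ k, ‖q k‖ = 1) →
    (∀ k, (inner ℂ (p k) (q k) : ℂ) = 0) →
    ∀ F : Fin N → X → ℂ, (∀ j, DifferentiableOn ℂ (F j) (ball 0 1)) →
    (∀ j, ∀ z ∈ ball (0 : X) 1, ‖F j z‖ ≤ 1) →
    (∀ z ∈ ball (0 : X) 1, (∃ k, ∃ w : ℂ, z = (t k : ℂ) • p k + w • q k) → δ ≤ ∑ j, ‖F j z‖) →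
    Van F {z | z ∈ ball (0 : X) 1 ∧ ∃ k, ∃ w : ℂ, z = (t k : ℂ) • p k + w • q k} C := by
  obtain ⟨C₀, hC₀, hcor⟩ := disc_corona N hδ
  obtain ⟨C, hC, H⟩ := van_inf A C₀ N hC₀
  refine ⟨C, hC, ?_⟩
  intro X _ _ _ p q t hf hq hpq F hFd hFb hlow
  have h := H X p t hf (fun k z => lpar (p k) (q k) (t k) (lback (p k) (q k) (t k) z))
    (fun k hk => line_ret (hf.unit k) (hq k) (hpq k) (hf.nonneg k) hk) (Fin N) F
    (Fintype.card_fin N) hFd hFb (fun k hk => ?_)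
  · refine h.mono (fun z hz => ?_) le_rfl
    obtain ⟨hzb, k, w, hw⟩ := hz
    have hk : t k < 1 := by
      rcases (hf.le k).lt_or_eq with h1 | h1
      · exact h1
      · exfalso
        have h2 := norm_comb_sq (hf.unit k) (hq k) (hpq k) (t k : ℂ) w
        rw [← hw, h1] at h2
        have h3 := mem_ball_zero_iff.1 hzb
        have h4 : ‖((1 : ℝ) : ℂ)‖ = 1 := by simp
        rw [h4] at h2
        nlinarith [norm_nonneg z, sq_nonneg ‖w‖]
    exact ⟨hzb, k, hk, line_fix (hf.unit k) (hq k) (hpq k) (hf.nonneg k) hk hw⟩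
  · have hpar : MapsTo (lpar (p k) (q k) (t k)) (ball 0 1) (ball 0 1) := fun ζ hζ =>
      lpar_mem (hf.unit k) (hq k) (hpq k) (hf.nonneg k) hk (mem_ball_zero_iff.1 hζ)
    obtain ⟨g, g1, g2, g3⟩ := hcor (fun j ζ => F j (lpar (p k) (q k) (t k) ζ))
      (fun j => (hFd j).comp (lpar_diff _ _ _).differentiableOn hpar)
      (fun j ζ hζ => hFb j _ (hpar hζ))
      (fun ζ hζ => hlow _ (hpar hζ) ⟨k, _, rfl⟩)
    have hback : MapsTo (lback (p k) (q k) (t k)) (ball 0 1) (ball 0 1) := fun z hz =>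
      mem_ball_zero_iff.2 (lback_lt (hf.unit k) (hq k) (hpq k) (hf.nonneg k) hk hz)
    refine ⟨fun j z => g j (lback (p k) (q k) (t k) z),
      fun j => (g1 j).comp (lback_diff (hf.unit k) (hf.nonneg k) hk) hback,
      fun j z hz => g2 j _ (hback hz), fun z hz => ?_⟩
    have h1 := g3 _ (hback hz.1)
    have h2 : lpar (p k) (q k) (t k) (lback (p k) (q k) (t k) z) = z := hz.2
    rw [h2] at h1
    exact h1

end Pool.Agent.V7H86.HP
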